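import Pool.Agent.H867.FT.Gen

/-!
# FTG LOB: codimension one analysis of beta
-/

set_option autoImplicit false
set_option linter.all false

namespace Pool.Agent.H307.FTLOB

open Pool.Agent.H867.FT
open scoped nonZeroDivisors

/-- the localization at a prime of height one -/
theorem isDVR (P : Type) [CommRing P] [IsDomain P] [IsNoetherianRing P] [IsIntegrallyClosed P]
    (𝔭 : Ideal P) [h𝔭 : 𝔭.IsPrime] (hh : 𝔭.height = 1) :
    IsDiscreteValuationRing (Localization.AtPrime 𝔭) := by
  have hdim : ringKrullDim (Localization.AtPrime 𝔭) = 1 := by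
    rw [IsLocalization.AtPrime.ringKrullDim_eq_height 𝔭 (Localization.AtPrime 𝔭), hh]
    rfl
  haveI : IsNoetherianRing (Localization.AtPrime 𝔭) :=
    IsLocalization.isNoetherianRing 𝔭.primeCompl _ inferInstance
  haveI hic : IsIntegrallyClosed (Localization.AtPrime 𝔭) :=
    isIntegrallyClosed_of_isLocalization (R := P) (S := Localization.AtPrime 𝔭) 𝔭.primeCompl (Ideal.primeCompl_le_nonZeroDivisors 𝔭)
  haveI : Ring.KrullDimLE 1 (Localization.AtPrime 𝔭) := Ring.krullDimLE_iff.2 (le_of_eq hdim)
  have hnf : ¬ IsField (Localization.AtPrime 𝔭) := by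
    intro hf
    have := ringKrullDim_eq_zero_of_isField hf
    rw [hdim] at this
    exact one_ne_zero this
  have h : (IsIntegrallyClosed (Localization.AtPrime 𝔭) ∧
      ∃! Q : Ideal (Localization.AtPrime 𝔭), Q ≠ ⊥ ∧ Q.IsPrime) ↔
      IsDiscreteValuationRing (Localization.AtPrime 𝔭) :=
    (IsDiscreteValuationRing.TFAE (Localization.AtPrime 𝔭) hnf).out 3 0
  refine h.1 ⟨hic, IsLocalRing.maximalIdeal _, ⟨?_, inferInstance⟩, ?_⟩
  · exact fun h => hnf (IsLocalRing.isField_iff_maximalIdeal_eq.2 h)
  · rintro Q ⟨hQ, hQ'⟩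
    exact IsLocalRing.eq_maximalIdeal (hQ'.isMaximal_of_ne_bot hQ)

/-- an element divides its norm -/
theorem dvd_norm {V W : Type} [CommRing V] [CommRing W] [Algebra V W] {ι : Type} [Fintype ι] [DecidableEq ι]
    (b : Module.Basis ι V W) (σ : W) : ∃ τ : W, algebraMap V W (Algebra.norm V σ) = σ * τ := by
  let M := Algebra.leftMulMatrix b σ
  let x : W := b.equivFun.symm (M.adjugate.mulVec (b.equivFun 1))
  refine ⟨x, ?_⟩
  apply b.repr.injective
  apply DFunLike.coe_injective
  rw [← Algebra.leftMulMatrix_mulVec_repr]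
  have hx : (⇑(b.repr x) : ι → V) = M.adjugate.mulVec (b.equivFun 1) := by
    have := b.equivFun.apply_symm_apply (M.adjugate.mulVec (b.equivFun 1))
    rw [← this]; rfl
  rw [hx]
  show _ = M.mulVec (M.adjugate.mulVec (b.equivFun 1))
  rw [Matrix.mulVec_mulVec, Matrix.mul_adjugate, Matrix.smul_mulVec, Matrix.one_mulVec]
  have e : algebraMap V W (Algebra.norm V σ) = (Algebra.norm V σ) • (1 : W) := by
    rw [Algebra.smul_def, mul_one]
  rw [e, map_smul, Algebra.norm_eq_matrix_det b]
  rfl

section

variable {P R L K : Type} [CommRing P] [IsDomain P] [CommRing R] [IsDomain R]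
  [Algebra P R] [Field L] [Algebra P L] [IsFractionRing P L]
  [Field K] [Algebra R K] [IsFractionRing R K] [Algebra P K] [IsScalarTower P R K]
  [Algebra L K] [IsScalarTower P L K] {ι : Type} [Fintype ι]

theorem tr_basis (b : Module.Basis ι P R) (y : K)
    (h : ∀ i, ∃ g : P, algebraMap P L g = Algebra.trace L K (y * algebraMap R K (b i))) (r : R) :
    ∃ g : P, algebraMap P L g = Algebra.trace L K (y * algebraMap R K r) := by
  choose g hg using h
  refine ⟨∑ i, b.repr r i * g i, ?_⟩
  have hr : r = ∑ i, b.repr r i • b i := (b.sum_repr r).symm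
  conv_rhs => rw [hr]
  rw [map_sum, map_sum, Finset.mul_sum, map_sum]
  refine Finset.sum_congr rfl fun i _ => ?_
  rw [map_mul (algebraMap P L), hg, Algebra.smul_def, map_mul (algebraMap R K), ← IsScalarTower.algebraMap_apply P R K,
    IsScalarTower.algebraMap_apply P L K]
  have e : y * (algebraMap L K (algebraMap P L (b.repr r i)) * algebraMap R K (b i)) =
      (algebraMap P L (b.repr r i)) • (y * algebraMap R K (b i)) := by
    rw [Algebra.smul_def]; ring
  rw [e, map_smul, smul_eq_mul]

end

/-- the local statement -/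
theorem local_part (h1 : S_DIF) (q : ℕ) (P R L K V W : Type) [CommRing P] [IsDomain P]
    [CommRing R] [IsDomain R]
    [Algebra P R] [Module.Finite P R] [Field L]
    [Algebra P L] [IsFractionRing P L]
    [Field K] [Algebra R K] [IsFractionRing R K] [Algebra P K] [IsScalarTower P R K]
    [Algebra L K] [IsScalarTower P L K] [FiniteDimensional L K]
    [Algebra.IsSeparable L K] (ι : Type) [Fintype ι] [DecidableEq ι] (b : Module.Basis ι P R)
    (C : Submodule R K) (β : K) (hq : 1 ≤ q)
    (hC : ∀ y : K, y ∈ C ↔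
      ∀ r : R, ∃ g : P, algebraMap P L g = Algebra.trace L K (y * algebraMap R K r))
    (hβC : ∀ y ∈ C, β * y ^ q ∈ C) (hβ : β ≠ 0) (𝔭 : Ideal P) [𝔭.IsPrime]
    [CommRing V] [IsDomain V] [IsDiscreteValuationRing V] [Algebra P V] [IsLocalization 𝔭.primeCompl V]
    [CommRing W] [IsDomain W] [Algebra R W] [IsLocalization (Algebra.algebraMapSubmonoid R 𝔭.primeCompl) W]
    [Algebra V W] [Algebra P W] [IsScalarTower P V W] [IsScalarTower P R W]
    [Algebra V L] [IsScalarTower P V L] [IsFractionRing V L]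
    [Algebra W K] [IsScalarTower R W K] [IsFractionRing W K]
    [Algebra V K] [IsScalarTower V L K] [IsScalarTower V W K] [IsIntegralClosure W V K]
    (hdisc : Algebra.discr P b ≠ 0) :
    (∃ s : P, s ∉ 𝔭 ∧ ∃ g : P, algebraMap P L s * Algebra.norm L β =
      algebraMap P L (g * Algebra.discr P b ^ (q - 1))) ∧
    ∃ c : P, c ∉ 𝔭 ∧ algebraMap P K c * (algebraMap L K (Algebra.norm L β) /
      algebraMap P K (Algebra.discr P b) ^ (q - 1) / β) ∈ C ^ (q - 1) := by
  classical
  let M := 𝔭.primeCompl
  let bW : Module.Basis ι V W := b.localizationLocalization V 𝔭.primeCompl W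
  obtain ⟨δ, hδ0, hδ, ε, hε, hn⟩ := h1 V L W K ι bW
  haveI : Module.Finite V W := Module.Finite.of_basis bW
  haveI : Module.Free V W := Module.Free.of_basis bW
  haveI : IsScalarTower P V K := by
    refine IsScalarTower.of_algebraMap_eq fun x => ?_
    rw [IsScalarTower.algebraMap_apply P L K, IsScalarTower.algebraMap_apply P V L,
      ← IsScalarTower.algebraMap_apply V L K]
  haveI : IsScalarTower P W K := by
    refine IsScalarTower.of_algebraMap_eq fun x => ?_
    rw [IsScalarTower.algebraMap_apply P R K, IsScalarTower.algebraMap_apply R W K,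
      ← IsScalarTower.algebraMap_apply P R W]
  have hWinj : Function.Injective (algebraMap W K) := IsFractionRing.injective W K
  have hdK : algebraMap W K δ ≠ 0 := fun h => hδ0 (hWinj (by rw [h, map_zero]))
  -- step 1
  have hdual : ∀ w : W, ∃ v : V, algebraMap V L v = Algebra.trace L K ((algebraMap W K δ)⁻¹ * algebraMap W K w) :=
    (hδ (algebraMap W K δ)⁻¹).2 ⟨1, by rw [inv_mul_cancel₀ hdK, map_one]⟩
  obtain ⟨s, hs𝔭, hsC⟩ : ∃ s : P, s ∉ 𝔭 ∧ algebraMap P K s * (algebraMap W K δ)⁻¹ ∈ C := by
    choose v hv using fun i => hdual (algebraMap R W (b i))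
    obtain ⟨s, hs⟩ := IsLocalization.exist_integer_multiples_of_finite 𝔭.primeCompl v
    refine ⟨s, s.2, (hC _).2 (tr_basis b _ fun i => ?_)⟩
    obtain ⟨g, hg⟩ := hs i
    refine ⟨g, ?_⟩
    have e1 : algebraMap P L g = algebraMap P L s * algebraMap V L (v i) := by
      rw [IsScalarTower.algebraMap_apply P V L, hg, Algebra.smul_def, map_mul,
        ← IsScalarTower.algebraMap_apply P V L]
    rw [e1, hv, ← IsScalarTower.algebraMap_apply R W K, IsScalarTower.algebraMap_apply P L K]
    have e : algebraMap L K (algebraMap P L (s : P)) * (algebraMap W K δ)⁻¹ * algebraMap R K (b i) =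
      (algebraMap P L (s : P)) • ((algebraMap W K δ)⁻¹ * algebraMap R K (b i)) := by
      rw [Algebra.smul_def]; ring
    rw [e, map_smul, smul_eq_mul]
  -- step 2
  have h2 := hβC _ hsC
  have hsu : IsUnit (algebraMap P W s) := by
    have := IsLocalization.map_units W (⟨algebraMap P R s, ⟨s, hs𝔭, rfl⟩⟩ :
      Algebra.algebraMapSubmonoid R 𝔭.primeCompl)
    rwa [← IsScalarTower.algebraMap_apply P R W] at this
  have h3 : ∀ w : W, ∃ v : V, algebraMap V L v =
      Algebra.trace L K ((β * (algebraMap P K s * (algebraMap W K δ)⁻¹) ^ q) * algebraMap W K w) := by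
    intro w
    obtain ⟨⟨r, m⟩, hw⟩ := IsLocalization.surj (Algebra.algebraMapSubmonoid R 𝔭.primeCompl) w
    obtain ⟨m₀, hm₀, hm⟩ := m.2
    obtain ⟨g, hg⟩ := (hC _).1 h2 r
    refine ⟨IsLocalization.mk' V g (⟨m₀, hm₀⟩ : 𝔭.primeCompl), ?_⟩
    have hm0L : algebraMap P L m₀ ≠ 0 := by
      intro h
      have : m₀ = 0 := IsFractionRing.injective P L (by rw [h, map_zero])
      exact hm₀ (by rw [this]; exact 𝔭.zero_mem)
    have q1 : algebraMap V L (IsLocalization.mk' V g (⟨m₀, hm₀⟩ : 𝔭.primeCompl)) * algebraMap P L m₀ =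
        algebraMap P L g := by
      rw [IsScalarTower.algebraMap_apply P V L m₀, ← map_mul, IsLocalization.mk'_spec,
        ← IsScalarTower.algebraMap_apply P V L]
    have q2 : algebraMap W K w * algebraMap P K m₀ = algebraMap R K r := by
      have := congrArg (algebraMap W K) hw
      rw [map_mul, ← IsScalarTower.algebraMap_apply R W K, ← IsScalarTower.algebraMap_apply R W K] at this
      rw [← this, ← hm]
      rw [← IsScalarTower.algebraMap_apply P R K]
    rw [← q2] at hg
    have e : (β * (algebraMap P K s * (algebraMap W K δ)⁻¹) ^ q) * (algebraMap W K w * algebraMap P K m₀) =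
      (algebraMap P L m₀) • ((β * (algebraMap P K s * (algebraMap W K δ)⁻¹) ^ q) * algebraMap W K w) := by
      rw [Algebra.smul_def, ← IsScalarTower.algebraMap_apply P L K]; ring
    rw [e, map_smul, smul_eq_mul, ← q1, mul_comm] at hg
    exact mul_left_cancel₀ hm0L hg
  obtain ⟨w₀, hw₀⟩ := (hδ _).1 h3
  obtain ⟨su, hsu'⟩ := hsu
  obtain ⟨σ, hσ⟩ : ∃ σ : W, σ = w₀ * ((su⁻¹ : Wˣ) : W) ^ q := ⟨_, rfl⟩
  have hsK : algebraMap P K s ≠ 0 := by
    rw [IsScalarTower.algebraMap_apply P W K, ← hsu']
    exact (su.isUnit.map (algebraMap W K)).ne_zero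
  have hsinv : algebraMap W K ((su⁻¹ : Wˣ) : W) * algebraMap P K s = 1 := by
    rw [IsScalarTower.algebraMap_apply P W K, ← hsu', ← map_mul, Units.inv_mul, map_one]
  have hβσ : β = algebraMap W K (δ ^ (q - 1) * σ) := by
    rw [hσ, map_mul, map_mul, map_pow, map_pow, ← hw₀]
    have e1 : (algebraMap W K δ) ^ (q - 1) * ((algebraMap W K δ)⁻¹ ^ q * algebraMap W K δ) = 1 := by
      obtain ⟨q', rfl⟩ : ∃ q', q = q' + 1 := ⟨q - 1, by omega⟩
      rw [Nat.add_sub_cancel, inv_pow]
      field_simp
      ring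
    have e2 : algebraMap P K s ^ q * algebraMap W K ((su⁻¹ : Wˣ) : W) ^ q = 1 := by
      rw [← mul_pow, mul_comm (algebraMap P K s), hsinv, one_pow]
    calc β = β * (algebraMap P K s ^ q * algebraMap W K ((su⁻¹ : Wˣ) : W) ^ q) *
          ((algebraMap W K δ) ^ (q - 1) * ((algebraMap W K δ)⁻¹ ^ q * algebraMap W K δ)) := by
            rw [e1, e2]; ring
      _ = _ := by rw [mul_pow]; ring
  -- step 3
  haveI : IsLocalization (Algebra.algebraMapSubmonoid W V⁰) K := IsIntegralClosure.isLocalization V L K W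
  have hN : Algebra.norm L β = algebraMap V L (Algebra.norm V (δ ^ (q - 1) * σ)) := by
    rw [hβσ]
    exact Algebra.norm_localization V V⁰ (δ ^ (q - 1) * σ)
  have hdisc' : Algebra.discr V bW = algebraMap P V (Algebra.discr P b) :=
    Algebra.discr_localizationLocalization P 𝔭.primeCompl W b
  rw [map_mul, map_pow, hn, hdisc'] at hN
  have hN2 : Algebra.norm L β = algebraMap P L (Algebra.discr P b) ^ (q - 1) *
      algebraMap V L (ε ^ (q - 1) * Algebra.norm V σ) := by
    rw [hN, mul_pow]
    simp only [map_mul, map_pow]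
    rw [← IsScalarTower.algebraMap_apply P V L]
    ring
  constructor
  · obtain ⟨⟨g₁, s₁⟩, hgs⟩ := IsLocalization.surj 𝔭.primeCompl (ε ^ (q - 1) * Algebra.norm V σ)
    refine ⟨s₁, s₁.2, g₁, ?_⟩
    have := congrArg (algebraMap V L) hgs
    rw [map_mul, ← IsScalarTower.algebraMap_apply P V L, ← IsScalarTower.algebraMap_apply P V L] at this
    rw [map_mul, ← this, map_pow, hN2]
    ring
  -- step 4
  · obtain ⟨τ, hτ⟩ := dvd_norm bW σ
    obtain ⟨⟨r₂, m⟩, hw⟩ := IsLocalization.surj (Algebra.algebraMapSubmonoid R 𝔭.primeCompl)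
      (algebraMap V W ε ^ (q - 1) * τ)
    obtain ⟨s₂, hs₂, hm⟩ := m.2
    have q2 : algebraMap W K (algebraMap V W ε ^ (q - 1) * τ) * algebraMap P K s₂ = algebraMap R K r₂ := by
      have := congrArg (algebraMap W K) hw
      rw [map_mul, ← IsScalarTower.algebraMap_apply R W K, ← IsScalarTower.algebraMap_apply R W K] at this
      rw [← this, ← hm]
      rw [← IsScalarTower.algebraMap_apply P R K]
    have hσ0 : algebraMap W K σ ≠ 0 := by
      intro h
      apply hβ
      rw [hβσ, map_mul, h, mul_zero]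
    have hdiscK : algebraMap P K (Algebra.discr P b) ≠ 0 := by
      rw [IsScalarTower.algebraMap_apply P L K]
      intro h
      have h' : algebraMap P L (Algebra.discr P b) = 0 := (algebraMap L K).injective (by rw [h, map_zero])
      exact hdisc (IsFractionRing.injective P L (by rw [h', map_zero]))
    refine ⟨s₂ * s ^ (q - 1), ?_, ?_⟩
    · exact 𝔭.primeCompl.mul_mem hs₂ (𝔭.primeCompl.pow_mem hs𝔭 _)
    · have e1 : algebraMap L K (Algebra.norm L β) = algebraMap P K (Algebra.discr P b) ^ (q - 1) *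
          (algebraMap W K (algebraMap V W ε ^ (q - 1) * τ) * algebraMap W K σ) := by
        rw [hN2, map_mul, map_pow, ← IsScalarTower.algebraMap_apply P L K,
          ← IsScalarTower.algebraMap_apply V L K, IsScalarTower.algebraMap_apply V W K, ← map_mul (algebraMap W K)]
        congr 2
        rw [map_mul, map_pow, hτ]; ring
      have e2 : algebraMap P K (s₂ * s ^ (q - 1)) * (algebraMap L K (Algebra.norm L β) /
          algebraMap P K (Algebra.discr P b) ^ (q - 1) / β) =
          algebraMap R K r₂ * (algebraMap P K s * (algebraMap W K δ)⁻¹) ^ (q - 1) := by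
        rw [e1, ← q2, hβσ]
        simp only [map_mul, map_pow, mul_pow, inv_pow]
        field_simp
      rw [e2, ← Algebra.smul_def]
      exact (C ^ (q - 1)).smul_mem r₂ (Submodule.pow_mem_pow C hsC _)

theorem lob (h1 : Pool.Agent.H867.FT.S_DIF) (h2 : Pool.Agent.H867.FT.S_KRU) : Pool.Agent.H867.FT.S_LOB := by
  intro q P R L K _ _ _ _ _ _ _ _ _ _ _ _ _ _ _ _ _ _ _ _ _ ι _ _ b C β hq hC hβC hβ
  haveI : IsScalarTower P L K := inferInstance
  have hPR : Function.Injective (algebraMap P R) := by
    have h : Function.Injective (algebraMap P K) := by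
      rw [IsScalarTower.algebraMap_eq P L K]
      exact (algebraMap L K).injective.comp (IsFractionRing.injective P L)
    rw [IsScalarTower.algebraMap_eq P R K] at h
    exact Function.Injective.of_comp h
  -- the discriminant
  haveI : IsIntegralClosure R P K := IsIntegralClosure.of_isIntegrallyClosed R P K
  haveI : IsLocalization (Algebra.algebraMapSubmonoid R P⁰) K := IsIntegralClosure.isLocalization P L K R
  have hdisc : Algebra.discr P b ≠ 0 := by
    intro h0
    have e := Algebra.discr_localizationLocalization P P⁰ (Rₘ := L) K b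
    rw [h0, map_zero] at e
    exact Algebra.discr_not_zero_of_basis L (b.localizationLocalization L P⁰ K) e
  have hdiscL : algebraMap P L (Algebra.discr P b) ≠ 0 := by
    intro h
    exact hdisc (IsFractionRing.injective P L (by rw [h, map_zero]))
  -- the local statement
  have hloc : ∀ 𝔭 : Ideal P, 𝔭.IsPrime → 𝔭.height = 1 →
      (∃ s : P, s ∉ 𝔭 ∧ ∃ g : P, algebraMap P L s * Algebra.norm L β =
        algebraMap P L (g * Algebra.discr P b ^ (q - 1))) ∧
      ∃ c : P, c ∉ 𝔭 ∧ algebraMap P K c * (algebraMap L K (Algebra.norm L β) /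
        algebraMap P K (Algebra.discr P b) ^ (q - 1) / β) ∈ C ^ (q - 1) := by
    intro 𝔭 h𝔭 hh
    haveI := isDVR P 𝔭 hh
    have hM : 𝔭.primeCompl ≤ P⁰ := Ideal.primeCompl_le_nonZeroDivisors 𝔭
    have hM' : Algebra.algebraMapSubmonoid R 𝔭.primeCompl ≤ R⁰ := by
      rintro _ ⟨x, hx, rfl⟩
      rw [mem_nonZeroDivisors_iff_ne_zero]
      intro h
      have : x = 0 := hPR (by rw [h, map_zero])
      exact hx (by rw [this]; exact 𝔭.zero_mem)
    let V := Localization.AtPrime 𝔭
    let W := Localization (Algebra.algebraMapSubmonoid R 𝔭.primeCompl)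
    haveI : IsDomain W := IsLocalization.isDomain_localization hM'
    let f : V →+* L := IsLocalization.map _ (T := P⁰) (RingHom.id P) hM
    let g : W →+* K := IsLocalization.map _ (T := R⁰) (RingHom.id R) hM'
    letI : Algebra V L := f.toAlgebra
    letI : Algebra W K := g.toAlgebra
    letI : Algebra V K := ((algebraMap L K).comp f).toAlgebra
    haveI : IsScalarTower V L K := IsScalarTower.of_algebraMap_eq' rfl
    haveI : IsScalarTower P V L := IsScalarTower.of_algebraMap_eq'
      (by rw [RingHom.algebraMap_toAlgebra, IsLocalization.map_comp, RingHomCompTriple.comp_eq])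
    haveI : IsFractionRing V L := IsFractionRing.isFractionRing_of_isDomain_of_isLocalization 𝔭.primeCompl V L
    haveI : IsScalarTower R W K := IsScalarTower.of_algebraMap_eq'
      (by rw [RingHom.algebraMap_toAlgebra, IsLocalization.map_comp, RingHomCompTriple.comp_eq])
    haveI : IsFractionRing W K := IsFractionRing.isFractionRing_of_isDomain_of_isLocalization
      (Algebra.algebraMapSubmonoid R 𝔭.primeCompl) W K
    haveI : IsScalarTower V W K := by
      apply IsScalarTower.of_algebraMap_eq'
      apply IsLocalization.ringHom_ext 𝔭.primeCompl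
      ext x
      simp only [RingHom.comp_apply]
      rw [← IsScalarTower.algebraMap_apply P V W, IsScalarTower.algebraMap_apply P R W,
        ← IsScalarTower.algebraMap_apply R W K, ← IsScalarTower.algebraMap_apply P R K,
        IsScalarTower.algebraMap_apply V L K, ← IsScalarTower.algebraMap_apply P V L,
        ← IsScalarTower.algebraMap_apply P L K]
    haveI : IsIntegrallyClosed W := isIntegrallyClosed_of_isLocalization (R := R) (S := W)
      (Algebra.algebraMapSubmonoid R 𝔭.primeCompl) hM'
    haveI : Module.Finite V W := Module.Finite.of_isLocalization P R 𝔭.primeCompl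
    haveI : IsIntegralClosure W V K := IsIntegralClosure.of_isIntegrallyClosed W V K
    exact local_part h1 q P R L K V W ι b C β hq hC hβC hβ 𝔭 hdisc
  obtain ⟨g, hg⟩ := h2 P L (Algebra.norm L β / algebraMap P L (Algebra.discr P b) ^ (q - 1)) (by
    intro 𝔭 h𝔭 hh
    obtain ⟨⟨s, hs, g, hg⟩, -⟩ := hloc 𝔭 h𝔭 hh
    refine ⟨s, hs, g, ?_⟩
    rw [mul_div_assoc', hg, map_mul, map_pow, mul_div_assoc, div_self (pow_ne_zero _ hdiscL), mul_one])
  refine ⟨g, ?_, ?_⟩
  · rw [map_mul, map_pow, ← hg, div_mul_cancel₀ _ (pow_ne_zero _ hdiscL)]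
  · intro 𝔭 h𝔭 hh
    obtain ⟨-, c, hc, hcC⟩ := hloc 𝔭 h𝔭 hh
    refine ⟨c, hc, ?_⟩
    have e : algebraMap P K g = algebraMap L K (Algebra.norm L β) /
        algebraMap P K (Algebra.discr P b) ^ (q - 1) := by
      rw [IsScalarTower.algebraMap_apply P L K, ← hg, map_div₀, map_pow,
        ← IsScalarTower.algebraMap_apply P L K]
    rw [e]
    exact hcC

end Pool.Agent.H307.FTLOB
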