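import Mathlib

set_option autoImplicit false

/-!
# Exponential decay of positive solutions of a radial linear equation

`p'' = -(m/r) p' + V p` with `0 < c ≤ V ≤ L` for large `r`, `p > 0`, `p → 0`.
-/

open Filter Topology Set

namespace Pool.Agent.H307

/-- A quantity whose derivative is positive whenever it equals its initial value stays above
its initial value. -/
theorem stay_above {Z Z' : ℝ → ℝ} {r0 : ℝ}
    (hZ : ∀ r, r0 ≤ r → HasDerivAt Z (Z' r) r)
    (hb : ∀ r, r0 ≤ r → Z r = Z r0 → 0 < Z' r) :
    ∀ r, r0 ≤ r → Z r0 ≤ Z r := by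
  intro r hr
  have h := image_le_of_deriv_right_lt_deriv_boundary' (f := fun x => - Z x)
    (f' := fun x => - Z' x) (a := r0) (b := r)
    (fun x hx => ((hZ x hx.1).neg).continuousAt.continuousWithinAt)
    (fun x hx => ((hZ x hx.1).neg).hasDerivWithinAt)
    (B := fun _ => - Z r0) (B' := fun _ => 0) le_rfl continuousOn_const
    (fun x _ => hasDerivWithinAt_const _ _ _)
    (fun x hx hx2 => by
      have h1 : Z x = Z r0 := by
        have := hx2
        linarith
      have := hb x hx.1 h1
      linarith)
  have := h ⟨hr, le_rfl⟩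
  linarith

/-- mean value bound : derivative at most `-d` on `[r0, ∞)`. -/
theorem le_sub_of_deriv_le {p p1 : ℝ → ℝ} {r0 d : ℝ}
    (hp : ∀ r, r0 ≤ r → HasDerivAt p (p1 r) r)
    (hd : ∀ r, r0 ≤ r → p1 r ≤ -d) :
    ∀ r, r0 ≤ r → p r ≤ p r0 - d * (r - r0) := by
  intro r hr
  have h := image_le_of_deriv_right_le_deriv_boundary (f := p)
    (f' := p1) (a := r0) (b := r)
    (fun x hx => (hp x hx.1).continuousAt.continuousWithinAt)
    (fun x hx => (hp x hx.1).hasDerivWithinAt)
    (B := fun x => p r0 - d * (x - r0)) (B' := fun _ => -d) (by simp)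
    (by fun_prop)
    (fun x _ => by
      have : HasDerivAt (fun x : ℝ => p r0 - d * (x - r0)) (-d) x := by
        have h1 := ((hasDerivAt_id x).sub_const r0).const_mul d
        have h2 := h1.const_sub (p r0)
        simpa using h2
      exact this.hasDerivWithinAt)
    (fun x hx => hd x hx.1)
  exact h ⟨hr, le_rfl⟩

theorem decay {m c L R1 : ℝ} (hm : 0 ≤ m) (hc : 0 < c) (hcL : c ≤ L) (hR1 : 0 < R1)
    {p p1 V : ℝ → ℝ}
    (hp : ∀ r, R1 ≤ r → HasDerivAt p (p1 r) r)
    (hp1 : ∀ r, R1 ≤ r → HasDerivAt p1 (-(m / r) * p1 r + V r * p r) r)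
    (hpos : ∀ r, R1 ≤ r → 0 < p r)
    (hV1 : ∀ r, R1 ≤ r → c ≤ V r) (hV2 : ∀ r, R1 ≤ r → V r ≤ L)
    (hlim : Tendsto p atTop (𝓝 0)) :
    ∃ K ε C : ℝ, 0 < K ∧ 0 < ε ∧ 0 < C ∧
      (∀ r, R1 ≤ r → |p1 r| ≤ K * p r) ∧
      (∀ r, R1 ≤ r → p r ≤ C * Real.exp (-(ε * r))) := by
  -- step 1 : p1 < 0
  have hneg : ∀ r, R1 ≤ r → p1 r < 0 := by
    by_contra hcon
    push Not at hcon
    obtain ⟨r2, hr2, hr2'⟩ := hcon
    -- `r ^ m * p1` is strictly increasing
    have hder : ∀ r, R1 ≤ r → HasDerivAt (fun x => x ^ m * p1 x) (r ^ m * (V r * p r)) r := by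
      intro r hr
      have hrpos : 0 < r := lt_of_lt_of_le hR1 hr
      have h1 := (Real.hasDerivAt_rpow_const (x := r) (p := m) (Or.inl hrpos.ne')).mul (hp1 r hr)
      refine h1.congr_deriv ?_
      rw [Real.rpow_sub_one hrpos.ne']
      field_simp
      ring
    have hmono : StrictMonoOn (fun x => x ^ m * p1 x) (Ici R1) := by
      apply strictMonoOn_of_deriv_pos (convex_Ici R1)
      · intro x hx
        exact (hder x hx).continuousAt.continuousWithinAt
      · intro x hx
        rw [interior_Ici] at hx
        have hx' : R1 ≤ x := le_of_lt hx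
        rw [(hder x hx').deriv]
        have hxpos : 0 < x := lt_of_lt_of_le hR1 hx'
        have := hV1 x hx'
        have := hpos x hx'
        have hVp : 0 < V x := by linarith
        positivity
    have hpos1 : ∀ r, r2 < r → 0 < p1 r := by
      intro r hr
      have h1 := hmono (a := r2) (b := r) hr2 (le_trans hr2 hr.le) hr
      simp only at h1
      have hr2pos : 0 < r2 := lt_of_lt_of_le hR1 hr2
      have hrpos : 0 < r := hr2pos.trans hr
      have h2 : 0 ≤ r2 ^ m * p1 r2 := by positivity
      have h3 : 0 < r ^ m * p1 r := lt_of_le_of_lt h2 h1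
      have h4 : 0 < r ^ m := by positivity
      exact (mul_pos_iff_of_pos_left h4).mp h3
    have hmono2 : StrictMonoOn p (Ici r2) := by
      apply strictMonoOn_of_deriv_pos (convex_Ici r2)
      · intro x hx
        exact (hp x (le_trans hr2 hx)).continuousAt.continuousWithinAt
      · intro x hx
        rw [interior_Ici] at hx
        rw [(hp x (le_trans hr2 (le_of_lt hx))).deriv]
        exact hpos1 x hx
    have hge : ∀ᶠ r in atTop, p r2 ≤ p r := by
      filter_upwards [eventually_ge_atTop r2] with r hr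
      exact hmono2.monotoneOn ((mem_Ici.mpr le_rfl)) hr hr
    have := ge_of_tendsto hlim hge
    have := hpos r2 hr2
    linarith
  -- step 2 : |p1| ≤ K p
  obtain ⟨K, hK0, hK1⟩ : ∃ K : ℝ, 0 < K ∧ L < (K - m / R1) * K ∧ m / R1 < K := by
    refine ⟨m / R1 + L + 1, ?_, ?_, ?_⟩
    · have : 0 ≤ m / R1 := by positivity
      have : 0 < L := lt_of_lt_of_le hc hcL
      linarith
    · have : 0 ≤ m / R1 := by positivity
      have : 0 < L := lt_of_lt_of_le hc hcL
      nlinarith
    · have : 0 < L := lt_of_lt_of_le hc hcL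
      linarith
  have hL0 : 0 < L := lt_of_lt_of_le hc hcL
  have hbound : ∀ r, R1 ≤ r → |p1 r| ≤ K * p r := by
    by_contra hcon
    push Not at hcon
    obtain ⟨r0, hr0, hr0'⟩ := hcon
    rw [abs_of_neg (hneg r0 hr0)] at hr0'
    set Z : ℝ → ℝ := fun r => - p1 r - K * p r with hZdef
    have hZ0 : 0 < Z r0 := by simp only [hZdef]; linarith
    have hZder : ∀ r, r0 ≤ r → HasDerivAt Z
        (-(-(m / r) * p1 r + V r * p r) - K * p1 r) r := by
      intro r hr
      exact ((hp1 r (hr0.trans hr)).neg).sub ((hp r (hr0.trans hr)).const_mul K)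
    have hstay := stay_above (r0 := r0) hZder (by
      intro r hr hreq
      have hrR : R1 ≤ r := hr0.trans hr
      have hrpos : 0 < r := lt_of_lt_of_le hR1 hrR
      have hZr : 0 < - p1 r - K * p r := by
        have : Z r = Z r0 := hreq
        have h2 : Z r = - p1 r - K * p r := rfl
        rw [← h2, this]; exact hZ0
      have hpr := hpos r hrR
      have hV := hV2 r hrR
      have hmr : m / r ≤ m / R1 := by
        apply div_le_div_of_nonneg_left hm hR1 hrR
      have e1 : -(-(m / r) * p1 r + V r * p r) - K * p1 r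
          = (K - m / r) * (- p1 r) - V r * p r := by ring
      rw [e1]
      have h1 : (K - m / R1) * (K * p r) < (K - m / r) * (- p1 r) := by
        have hK2 : 0 < K - m / R1 := by linarith [hK1.2]
        have a1 : (K - m / R1) * (K * p r) < (K - m / R1) * (- p1 r) := by
          apply mul_lt_mul_of_pos_left _ hK2
          linarith
        have a2 : (K - m / R1) * (- p1 r) ≤ (K - m / r) * (- p1 r) := by
          apply mul_le_mul_of_nonneg_right
          · linarith
          · linarith [hneg r hrR]
        linarith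
      have h2 : V r * p r ≤ L * p r := by
        apply mul_le_mul_of_nonneg_right hV hpr.le
      have h3 : L * p r < (K - m / R1) * K * p r := by
        apply mul_lt_mul_of_pos_right hK1.1 hpr
      nlinarith)
    have hp1le : ∀ r, r0 ≤ r → p1 r ≤ - Z r0 := by
      intro r hr
      have h1 := hstay r hr
      have h2 : Z r = - p1 r - K * p r := rfl
      have h3 := hpos r (hr0.trans hr)
      rw [h2] at h1
      nlinarith
    have hlin := le_sub_of_deriv_le (r0 := r0) (fun r hr => hp r (hr0.trans hr)) hp1le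
    have hr3 : r0 ≤ r0 + p r0 / Z r0 := by
      have := hpos r0 hr0
      have : 0 < p r0 / Z r0 := by positivity
      linarith
    have h4 := hlin (r0 + p r0 / Z r0) hr3
    have h5 := hpos (r0 + p r0 / Z r0) (hr0.trans hr3)
    have h6 : Z r0 * (r0 + p r0 / Z r0 - r0) = p r0 := by
      field_simp
      ring
    rw [h6] at h4
    linarith
  -- step 3 : p1 ≤ -ε p
  obtain ⟨ε, hε0, hε1⟩ : ∃ ε : ℝ, 0 < ε ∧ ε ^ 2 < c := by
    refine ⟨min 1 (c / 2), by positivity, ?_⟩
    have h1 : min 1 (c / 2) ≤ 1 := min_le_left _ _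
    have h2 : min 1 (c / 2) ≤ c / 2 := min_le_right _ _
    have h3 : 0 < min 1 (c / 2) := by positivity
    nlinarith
  have hbound2 : ∀ r, R1 ≤ r → p1 r ≤ - (ε * p r) := by
    by_contra hcon
    push Not at hcon
    obtain ⟨r0, hr0, hr0'⟩ := hcon
    set Z : ℝ → ℝ := fun r => p1 r + ε * p r with hZdef
    have hZ0 : 0 < Z r0 := by simp only [hZdef]; linarith
    have hZder : ∀ r, r0 ≤ r → HasDerivAt Z
        ((-(m / r) * p1 r + V r * p r) + ε * p1 r) r := by
      intro r hr
      exact ((hp1 r (hr0.trans hr))).add ((hp r (hr0.trans hr)).const_mul ε)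
    have hstay := stay_above (r0 := r0) hZder (by
      intro r hr hreq
      have hrR : R1 ≤ r := hr0.trans hr
      have hrpos : 0 < r := lt_of_lt_of_le hR1 hrR
      have hZr : 0 < p1 r + ε * p r := by
        have : Z r = Z r0 := hreq
        have h2 : Z r = p1 r + ε * p r := rfl
        rw [← h2, this]; exact hZ0
      have hpr := hpos r hrR
      have hV := hV1 r hrR
      have hn := hneg r hrR
      have h1 : 0 ≤ -(m / r) * p1 r := by
        have : 0 ≤ m / r := by positivity
        nlinarith
      have h2 : c * p r ≤ V r * p r := mul_le_mul_of_nonneg_right hV hpr.le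
      have h3 : - (ε * (ε * p r)) ≤ ε * p1 r := by
        have : -(ε * p r) ≤ p1 r := by linarith
        nlinarith
      have h4 : ε ^ 2 * p r < c * p r := mul_lt_mul_of_pos_right hε1 hpr
      nlinarith)
    -- so p1 ≥ Z r0 - ε p, eventually positive
    have hev : ∀ᶠ r in atTop, p r < Z r0 / ε := by
      have : (0 : ℝ) < Z r0 / ε := by positivity
      exact hlim.eventually (gt_mem_nhds this)
    obtain ⟨r, hr1, hr2⟩ := (hev.and (eventually_ge_atTop r0)).exists
    have h1 := hstay r hr2
    have h2 : Z r = p1 r + ε * p r := rfl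
    rw [h2] at h1
    have h3 : ε * p r < Z r0 := by
      rw [lt_div_iff₀ hε0] at hr1
      linarith
    have h4 := hneg r (hr0.trans hr2)
    linarith
  -- conclusion
  refine ⟨K, ε, p R1 * Real.exp (ε * R1), hK0, hε0, ?_, hbound, ?_⟩
  · have := hpos R1 le_rfl
    positivity
  · intro r hr
    have hanti : AntitoneOn (fun x => p x * Real.exp (ε * x)) (Ici R1) := by
      apply antitoneOn_of_deriv_nonpos (convex_Ici R1)
      · intro x hx
        exact ((hp x hx).continuousAt.mul (by fun_prop)).continuousWithinAt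
      · intro x hx
        rw [interior_Ici] at hx
        have h1 := (hp x (le_of_lt hx)).mul (((hasDerivAt_id x).const_mul ε).exp)
        exact h1.differentiableAt.differentiableWithinAt
      · intro x hx
        rw [interior_Ici] at hx
        have h1 := (hp x (le_of_lt hx)).mul (((hasDerivAt_id x).const_mul ε).exp)
        have h2 : deriv (fun x => p x * Real.exp (ε * x)) x
          = p1 x * Real.exp (ε * x) + p x * (Real.exp (ε * x) * (ε * 1)) := by
          have h1' : HasDerivAt (fun x => p x * Real.exp (ε * x))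
            (p1 x * Real.exp (ε * x) + p x * (Real.exp (ε * x) * (ε * 1))) x := h1
          exact h1'.deriv
        rw [h2]
        have h3 := hbound2 x (le_of_lt hx)
        have h4 : 0 < Real.exp (ε * x) := Real.exp_pos _
        nlinarith
    have h1 := hanti ((mem_Ici.mpr le_rfl)) hr hr
    simp only at h1
    have h2 : 0 < Real.exp (ε * r) := Real.exp_pos _
    rw [Real.exp_neg]
    rw [← div_eq_mul_inv, le_div_iff₀ h2]
    exact h1

end Pool.Agent.H307
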