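import Mathlib

set_option autoImplicit false

/-!
# The two identities behind uniqueness of the radial profile
-/

open Filter Topology Set

namespace Pool.Agent.H307

/-- the quantity `J` (a weighted Pohozaev type energy) for one component. -/
noncomputable def Jf (k lam G r t p p1 : ℝ) : ℝ :=
  r ^ 2 * t / 2 * p1 ^ 2 + k * r * t * p * p1
    + (k * (1 - k) - lam * r ^ 2 + r ^ 2 * G) * t / 2 * p ^ 2 + r ^ 2 * t / 4 * p ^ 4

/-- the coupling potential. -/
def Gf (al be s p q : ℝ) : ℝ := s * (al * p ^ 2 + be * q ^ 2)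

/-- the total energy `H`. -/
noncomputable def Hf (k lam al be s r t p p1 q q1 : ℝ) : ℝ :=
  al * Jf k lam (Gf al be s p q) r t p p1 + be * Jf k lam (Gf al be s p q) r t q q1
    - s * (r ^ 2 * t) / 4 * (al * p ^ 2 + be * q ^ 2) ^ 2

/-- the comparison quantity `X = (q/p)^2 J_p - J_q`. -/
noncomputable def Xf (k r t p p1 q q1 : ℝ) : ℝ :=
  r ^ 2 * t / 2 * ((q / p) ^ 2 * p1 ^ 2 - q1 ^ 2) + k * r * t * ((q / p) ^ 2 * p * p1 - q * q1)
    + r ^ 2 * t / 4 * (q ^ 2 * p ^ 2 - q ^ 4)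

theorem Xf_eq {k lam G r t p p1 q q1 : ℝ} (hp : p ≠ 0) :
    Xf k r t p p1 q q1 = (q / p) ^ 2 * Jf k lam G r t p p1 - Jf k lam G r t q q1 := by
  unfold Xf Jf
  field_simp
  ring

theorem hasDerivAt_H {k lam al be s r : ℝ} {t p p1 q q1 : ℝ → ℝ} (hr : 0 < r)
    (ht : HasDerivAt t ((4 * k - 2) * t r / r) r)
    (hp : HasDerivAt p (p1 r) r)
    (hp1 : HasDerivAt p1 (-(3 * k / r) * p1 r + lam * p r
      - p r * ((p r) ^ 2 + Gf al be s (p r) (q r))) r)
    (hq : HasDerivAt q (q1 r) r)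
    (hq1 : HasDerivAt q1 (-(3 * k / r) * q1 r + lam * q r
      - q r * ((q r) ^ 2 + Gf al be s (p r) (q r))) r) :
    HasDerivAt (fun x => Hf k lam al be s x (t x) (p x) (p1 x) (q x) (q1 x))
      (k * (t r / r) * ((1 - k) * (2 * k - 1) - lam * r ^ 2) * (al * p r ^ 2 + be * q r ^ 2)) r := by
  have hrr : HasDerivAt (fun x : ℝ => x) 1 r := hasDerivAt_id r
  have hr2 : HasDerivAt (fun x : ℝ => x ^ 2) (2 * r) r := by
    simpa using hasDerivAt_pow 2 r
  have hG : HasDerivAt (fun x => Gf al be s (p x) (q x))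
      (s * (al * (2 * p r * p1 r) + be * (2 * q r * q1 r))) r := by
    have h1 := ((hp.pow 2).const_mul al).add ((hq.pow 2).const_mul be)
    have h2 := h1.const_mul s
    unfold Gf
    refine h2.congr_deriv ?_
    simp
  have hJ : ∀ (f f1 : ℝ → ℝ) (f2 : ℝ), HasDerivAt f (f1 r) r → HasDerivAt f1 f2 r →
      HasDerivAt (fun x => Jf k lam (Gf al be s (p x) (q x)) x (t x) (f x) (f1 x))
        (((2 * r * t r + r ^ 2 * ((4 * k - 2) * t r / r)) / 2 * (f1 r) ^ 2
          + r ^ 2 * t r / 2 * (2 * f1 r * f2))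
        + ((k * t r + k * r * ((4 * k - 2) * t r / r)) * f r * f1 r
          + k * r * t r * (f1 r * f1 r + f r * f2))
        + (((-(lam * (2 * r)) + (2 * r * Gf al be s (p r) (q r)
            + r ^ 2 * (s * (al * (2 * p r * p1 r) + be * (2 * q r * q1 r))))) * t r
            + (k * (1 - k) - lam * r ^ 2 + r ^ 2 * Gf al be s (p r) (q r))
              * ((4 * k - 2) * t r / r)) / 2 * (f r) ^ 2
            + (k * (1 - k) - lam * r ^ 2 + r ^ 2 * Gf al be s (p r) (q r)) * t r / 2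
              * (2 * f r * f1 r))
        + ((2 * r * t r + r ^ 2 * ((4 * k - 2) * t r / r)) / 4 * (f r) ^ 4
          + r ^ 2 * t r / 4 * (4 * f r ^ 3 * f1 r))) r := by
    intro f f1 f2 hf hf1
    have a1 := (((hr2.mul ht).div_const 2).mul (hf1.pow 2))
    have a2 := ((((hrr.const_mul k).mul ht).mul hf).mul hf1)
    have a3 := (((((hr2.const_mul lam).const_sub (k * (1 - k))).add (hr2.mul hG)).mul ht).div_const 2).mul
      (hf.pow 2)
    have a4 := (((hr2.mul ht).div_const 4).mul (hf.pow 4))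
    have a := ((a1.add a2).add a3).add a4
    unfold Jf
    refine a.congr_deriv ?_
    simp only [Pi.mul_apply, Pi.add_apply, Pi.pow_apply]
    push_cast
    ring
  have e1 := (hJ p p1 _ hp hp1).const_mul al
  have e2 := (hJ q q1 _ hq hq1).const_mul be
  have e3 := (((hr2.mul ht).const_mul s).div_const 4).mul
    ((((hp.pow 2).const_mul al).add ((hq.pow 2).const_mul be)).pow 2)
  have e := (e1.add e2).sub e3
  unfold Hf
  refine e.congr_deriv ?_
  simp only [Pi.mul_apply, Pi.add_apply, Pi.pow_apply, Gf]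
  field_simp
  push_cast
  ring

theorem hasDerivAt_X {k lam al be s r : ℝ} {t p p1 q q1 : ℝ → ℝ} (hr : 0 < r) (hpr : p r ≠ 0)
    (ht : HasDerivAt t ((4 * k - 2) * t r / r) r)
    (hp : HasDerivAt p (p1 r) r)
    (hp1 : HasDerivAt p1 (-(3 * k / r) * p1 r + lam * p r
      - p r * ((p r) ^ 2 + Gf al be s (p r) (q r))) r)
    (hq : HasDerivAt q (q1 r) r)
    (hq1 : HasDerivAt q1 (-(3 * k / r) * q1 r + lam * q r
      - q r * ((q r) ^ 2 + Gf al be s (p r) (q r))) r) :
    HasDerivAt (fun x => Xf k x (t x) (p x) (p1 x) (q x) (q1 x))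
      (2 * (q r / p r) * ((q1 r * p r - q r * p1 r) / (p r) ^ 2)
        * Jf k lam (Gf al be s (p r) (q r)) r (t r) (p r) (p1 r)) r := by
  have hrr : HasDerivAt (fun x : ℝ => x) 1 r := hasDerivAt_id r
  have hr2 : HasDerivAt (fun x : ℝ => x ^ 2) (2 * r) r := by
    simpa using hasDerivAt_pow 2 r
  have hR := hq.div hp hpr
  have a1 := ((hr2.mul ht).div_const 2).mul (((hR.pow 2).mul (hp1.pow 2)).sub (hq1.pow 2))
  have a2 := (((hrr.const_mul k).mul ht)).mul ((((hR.pow 2).mul hp).mul hp1).sub (hq.mul hq1))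
  have a3 := ((hr2.mul ht).div_const 4).mul (((hq.pow 2).mul (hp.pow 2)).sub (hq.pow 4))
  have a := (a1.add a2).add a3
  unfold Xf
  refine a.congr_deriv ?_
  simp only [Pi.mul_apply, Pi.pow_apply, Pi.div_apply, Pi.sub_apply, Gf, Jf]
  push_cast
  simp only [pow_one]
  field_simp
  ring

end Pool.Agent.H307
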