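import Mathlib
import Pool.Agent.H307.Decay
import Pool.Agent.H307.OdeA

set_option autoImplicit false

/-!
# Limits of the auxiliary quantities, and positivity of the energy
-/

open Filter Topology Set

namespace Pool.Agent.H307

/-- two positive radial profiles solving the coupled radial equations -/
structure RadPair (k lam al be s P0 Q0 : ℝ) (p p1 q q1 : ℝ → ℝ) : Prop where
  hp : ∀ r, 0 < r → HasDerivAt p (p1 r) r
  hp1 : ∀ r, 0 < r → HasDerivAt p1 (-(3 * k / r) * p1 r + lam * p r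
      - p r * ((p r) ^ 2 + Gf al be s (p r) (q r))) r
  hq : ∀ r, 0 < r → HasDerivAt q (q1 r) r
  hq1 : ∀ r, 0 < r → HasDerivAt q1 (-(3 * k / r) * q1 r + lam * q r
      - q r * ((q r) ^ 2 + Gf al be s (p r) (q r))) r
  ppos : ∀ r, 0 < r → 0 < p r
  qpos : ∀ r, 0 < r → 0 < q r
  P0pos : 0 < P0
  Q0pos : 0 < Q0
  tp : Tendsto p (𝓝[>] 0) (𝓝 P0)
  tp1 : Tendsto p1 (𝓝[>] 0) (𝓝 0)
  tq : Tendsto q (𝓝[>] 0) (𝓝 Q0)
  tq1 : Tendsto q1 (𝓝[>] 0) (𝓝 0)
  ip : Tendsto p atTop (𝓝 0)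
  iq : Tendsto q atTop (𝓝 0)

theorem RadPair.swap {k lam al be s P0 Q0 : ℝ} {p p1 q q1 : ℝ → ℝ}
    (h : RadPair k lam al be s P0 Q0 p p1 q q1) : RadPair k lam be al s Q0 P0 q q1 p p1 where
  hp := h.hq
  hp1 := fun r hr => (h.hq1 r hr).congr_deriv (by unfold Gf; ring)
  hq := h.hp
  hq1 := fun r hr => (h.hp1 r hr).congr_deriv (by unfold Gf; ring)
  ppos := h.qpos
  qpos := h.ppos
  P0pos := h.Q0pos
  Q0pos := h.P0pos
  tp := h.tq
  tp1 := h.tq1
  tq := h.tp
  tq1 := h.tp1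
  ip := h.iq
  iq := h.ip

/-- faster decay than any power -/
def Small (f : ℝ → ℝ) : Prop := ∀ m : ℝ, Tendsto (fun r : ℝ => r ^ m * f r) atTop (𝓝 0)

theorem small_of_le {f : ℝ → ℝ} {C ε : ℝ} (hε : 0 < ε)
    (h : ∀ᶠ r in atTop, |f r| ≤ C * Real.exp (-(ε * r))) : Small f := by
  intro m
  have h1 := (tendsto_rpow_mul_exp_neg_mul_atTop_nhds_zero m ε hε).const_mul C
  rw [mul_zero] at h1
  refine squeeze_zero_norm' ?_ h1
  filter_upwards [h, eventually_gt_atTop (0 : ℝ)] with r hr hr0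
  rw [norm_mul, Real.norm_eq_abs, Real.norm_eq_abs]
  have h2 : 0 < r ^ m := Real.rpow_pos_of_pos hr0 m
  rw [abs_of_pos h2]
  calc r ^ m * |f r| ≤ r ^ m * (C * Real.exp (-(ε * r))) :=
        mul_le_mul_of_nonneg_left hr h2.le
    _ = C * (r ^ m * Real.exp (-ε * r)) := by ring_nf

theorem Small.lim {f : ℝ → ℝ} (h : Small f) : Tendsto f atTop (𝓝 0) := by
  have := h 0
  simpa using this

section
variable {k lam al be s P0 Q0 : ℝ} {p p1 q q1 : ℝ → ℝ}

theorem RadPair.tG (h : RadPair k lam al be s P0 Q0 p p1 q q1) :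
    Tendsto (fun r => Gf al be s (p r) (q r)) atTop (𝓝 0) := by
  have h1 := (((h.ip.pow 2).const_mul al).add ((h.iq.pow 2).const_mul be)).const_mul s
  have e : s * (al * 0 ^ 2 + be * 0 ^ 2) = 0 := by ring
  rw [e] at h1
  exact h1

theorem RadPair.decay_p (h : RadPair k lam al be s P0 Q0 p p1 q q1) (hk : 0 < k) (hlam : 0 < lam)
    (hal : 0 < al) (hbe : 0 < be) (hs : 0 ≤ s) :
    ∃ K ε C R1 : ℝ, 0 < K ∧ 0 < ε ∧ 0 < C ∧ 0 < R1 ∧
      (∀ r, R1 ≤ r → |p1 r| ≤ K * p r) ∧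
      (∀ r, R1 ≤ r → p r ≤ C * Real.exp (-(ε * r))) := by
  have h1 : Tendsto (fun r => (p r) ^ 2 + Gf al be s (p r) (q r)) atTop (𝓝 0) := by
    have := (h.ip.pow 2).add h.tG
    simpa using this
  have h2 : ∀ᶠ r in atTop, (p r) ^ 2 + Gf al be s (p r) (q r) < lam / 2 :=
    h1.eventually (gt_mem_nhds (by linarith))
  obtain ⟨R, hR⟩ := (h2.and (eventually_gt_atTop (0 : ℝ))).exists_forall_of_atTop
  have hR0 : 0 < R := (hR R le_rfl).2
  obtain ⟨K, ε, C, hK, hε, hC, hb1, hb2⟩ := decay (m := 3 * k) (c := lam / 2) (L := lam)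
    (R1 := R) (by linarith) (by linarith) (by linarith) hR0
    (V := fun r => lam - ((p r) ^ 2 + Gf al be s (p r) (q r)))
    (fun r hr => h.hp r (lt_of_lt_of_le hR0 hr))
    (fun r hr => (h.hp1 r (lt_of_lt_of_le hR0 hr)).congr_deriv (by ring))
    (fun r hr => h.ppos r (lt_of_lt_of_le hR0 hr))
    (fun r hr => by
      have := (hR r hr).1
      linarith)
    (fun r hr => by
      have h3 : 0 ≤ (p r) ^ 2 + Gf al be s (p r) (q r) := by
        unfold Gf
        positivity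
      linarith)
    h.ip
  exact ⟨K, ε, C, R, hK, hε, hC, hR0, hb1, hb2⟩

theorem RadPair.small_p (h : RadPair k lam al be s P0 Q0 p p1 q q1) (hk : 0 < k) (hlam : 0 < lam)
    (hal : 0 < al) (hbe : 0 < be) (hs : 0 ≤ s) : Small p ∧ Small p1 := by
  obtain ⟨K, ε, C, R1, hK, hε, hC, hR1, hb1, hb2⟩ := h.decay_p hk hlam hal hbe hs
  constructor
  · apply small_of_le (C := C) hε
    filter_upwards [eventually_ge_atTop R1] with r hr
    rw [abs_of_pos (h.ppos r (lt_of_lt_of_le hR1 hr))]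
    exact hb2 r hr
  · apply small_of_le (C := K * C) hε
    filter_upwards [eventually_ge_atTop R1] with r hr
    calc |p1 r| ≤ K * p r := hb1 r hr
      _ ≤ K * (C * Real.exp (-(ε * r))) := mul_le_mul_of_nonneg_left (hb2 r hr) hK.le
      _ = _ := by ring

theorem RadPair.small_f (h : RadPair k lam al be s P0 Q0 p p1 q q1) (hk : 0 < k) (hlam : 0 < lam)
    (hal : 0 < al) (hbe : 0 < be) (hs : 0 ≤ s) : Small (fun r => q r / p r * p1 r) := by
  obtain ⟨K, ε, C, R1, hK, hε, hC, hR1, hb1, hb2⟩ := h.decay_p hk hlam hal hbe hs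
  obtain ⟨K', ε', C', R1', hK', hε', hC', hR1', hb1', hb2'⟩ := h.swap.decay_p hk hlam hbe hal hs
  apply small_of_le (C := K * C') hε'
  filter_upwards [eventually_ge_atTop R1, eventually_ge_atTop R1'] with r hr hr'
  have hpr := h.ppos r (lt_of_lt_of_le hR1 hr)
  have hqr := h.qpos r (lt_of_lt_of_le hR1 hr)
  rw [abs_mul, abs_of_pos (div_pos hqr hpr)]
  calc q r / p r * |p1 r| ≤ q r / p r * (K * p r) :=
        mul_le_mul_of_nonneg_left (hb1 r hr) (div_pos hqr hpr).le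
    _ = K * q r := by field_simp
    _ ≤ K * (C' * Real.exp (-(ε' * r))) := mul_le_mul_of_nonneg_left (hb2' r hr') hK.le
    _ = _ := by ring

/-- the weight `t(r) = r^{4k-2}` -/
noncomputable def tf (k r : ℝ) : ℝ := r ^ (4 * k - 2)

theorem hasDerivAt_tf {k r : ℝ} (hr : 0 < r) :
    HasDerivAt (tf k) ((4 * k - 2) * tf k r / r) r := by
  have h1 := Real.hasDerivAt_rpow_const (x := r) (p := 4 * k - 2) (Or.inl hr.ne')
  refine h1.congr_deriv ?_
  unfold tf
  rw [Real.rpow_sub_one hr.ne']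
  ring

theorem tf_pos {k r : ℝ} (hr : 0 < r) : 0 < tf k r := Real.rpow_pos_of_pos hr _

theorem r2tf {k r : ℝ} (hr : 0 < r) : r ^ 2 * tf k r = r ^ (4 * k) := by
  unfold tf
  rw [← Real.rpow_natCast r 2, ← Real.rpow_add hr]
  congr 1
  push_cast
  ring

theorem rtf {k r : ℝ} (hr : 0 < r) : r * tf k r = r ^ (4 * k - 1) := by
  unfold tf
  nth_rw 1 [← Real.rpow_one r]
  rw [← Real.rpow_add hr]
  congr 1
  ring

/-- `X` tends to zero at infinity -/
theorem RadPair.X_inf (h : RadPair k lam al be s P0 Q0 p p1 q q1) (hk : 0 < k) (hlam : 0 < lam)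
    (hal : 0 < al) (hbe : 0 < be) (hs : 0 ≤ s) :
    Tendsto (fun r => Xf k r (tf k r) (p r) (p1 r) (q r) (q1 r)) atTop (𝓝 0) := by
  have hf := h.small_f hk hlam hal hbe hs
  obtain ⟨hq, hq1⟩ := h.swap.small_p hk hlam hbe hal hs
  have a1 := ((hf (4 * k)).mul hf.lim).const_mul (1 / 2)
  have a2 := ((hq1 (4 * k)).mul hq1.lim).const_mul (-1 / 2)
  have a3 := ((hq (4 * k - 1)).mul hf.lim).const_mul k
  have a4 := ((hq (4 * k - 1)).mul hq1.lim).const_mul (-k)
  have a5 := ((hq (4 * k)).mul (hq.lim.mul (h.ip.pow 2))).const_mul (1 / 4)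
  have a6 := ((hq (4 * k)).mul (hq.lim.pow 3)).const_mul (-1 / 4)
  have a := ((((a1.add a2).add a3).add a4).add a5).add a6
  have e0 : 1 / 2 * ((0 : ℝ) * 0) + -1 / 2 * (0 * 0) + k * (0 * 0) + -k * (0 * 0)
      + 1 / 4 * (0 * (0 * 0 ^ 2)) + -1 / 4 * (0 * 0 ^ 3) = 0 := by ring
  rw [e0] at a
  refine a.congr' ?_
  filter_upwards [eventually_gt_atTop (0 : ℝ)] with r hr
  have hpr := (h.ppos r hr).ne'
  unfold Xf
  have e1 : k * r * tf k r = k * (r * tf k r) := by ring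
  rw [r2tf hr, e1, rtf hr]
  field_simp
  ring

theorem RadPair.J_inf (h : RadPair k lam al be s P0 Q0 p p1 q q1) (hk : 0 < k) (hlam : 0 < lam)
    (hal : 0 < al) (hbe : 0 < be) (hs : 0 ≤ s) :
    Tendsto (fun r => Jf k lam (Gf al be s (p r) (q r)) r (tf k r) (p r) (p1 r)) atTop (𝓝 0) := by
  obtain ⟨hp, hp1⟩ := h.small_p hk hlam hal hbe hs
  have hG := h.tG
  have a1 := ((hp1 (4 * k)).mul hp1.lim).const_mul (1 / 2)
  have a2 := ((hp (4 * k - 1)).mul hp1.lim).const_mul k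
  have a3 := ((hp (4 * k - 2)).mul hp.lim).const_mul (k * (1 - k) / 2)
  have a4 := ((hp (4 * k)).mul hp.lim).const_mul (-lam / 2)
  have a5 := ((hp (4 * k)).mul (hp.lim.mul hG)).const_mul (1 / 2)
  have a6 := ((hp (4 * k)).mul (hp.lim.pow 3)).const_mul (1 / 4)
  have a := ((((a1.add a2).add a3).add a4).add a5).add a6
  have e0 : 1 / 2 * ((0 : ℝ) * 0) + k * (0 * 0) + k * (1 - k) / 2 * (0 * 0) + -lam / 2 * (0 * 0)
      + 1 / 2 * (0 * (0 * 0)) + 1 / 4 * (0 * 0 ^ 3) = 0 := by ring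
  rw [e0] at a
  refine a.congr' ?_
  filter_upwards [eventually_gt_atTop (0 : ℝ)] with r hr
  rw [← r2tf hr, ← rtf hr]
  unfold Jf
  have : r ^ (4 * k - 2) = tf k r := rfl
  rw [this]
  ring

theorem RadPair.H_inf (h : RadPair k lam al be s P0 Q0 p p1 q q1) (hk : 0 < k) (hlam : 0 < lam)
    (hal : 0 < al) (hbe : 0 < be) (hs : 0 ≤ s) :
    Tendsto (fun r => Hf k lam al be s r (tf k r) (p r) (p1 r) (q r) (q1 r)) atTop (𝓝 0) := by
  have hJp := h.J_inf hk hlam hal hbe hs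
  have hJq := h.swap.J_inf hk hlam hbe hal hs
  obtain ⟨hp, hp1⟩ := h.small_p hk hlam hal hbe hs
  obtain ⟨hq, hq1⟩ := h.swap.small_p hk hlam hbe hal hs
  -- g = al p^2 + be q^2
  have hg : Tendsto (fun r => al * (p r) ^ 2 + be * (q r) ^ 2) atTop (𝓝 0) := by
    have h1 := (((h.ip.pow 2).const_mul al).add ((h.iq.pow 2).const_mul be))
    have e : (al * 0 ^ 2 + be * 0 ^ 2) = 0 := by ring
    rw [e] at h1
    exact h1
  have hrg : Tendsto (fun r => r ^ (4 * k) * (al * (p r) ^ 2 + be * (q r) ^ 2)) atTop (𝓝 0) := by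
    have b1 := ((hp (4 * k)).mul hp.lim).const_mul al
    have b2 := ((hq (4 * k)).mul hq.lim).const_mul be
    have b := b1.add b2
    have e : al * ((0 : ℝ) * 0) + be * (0 * 0) = 0 := by ring
    rw [e] at b
    refine b.congr' ?_
    filter_upwards with r
    ring
  have a := (((hJp.const_mul al).add (hJq.const_mul be)).sub ((hrg.mul hg).const_mul (s / 4)))
  have e0 : al * (0 : ℝ) + be * 0 - s / 4 * (0 * 0) = 0 := by ring
  rw [e0] at a
  refine a.congr' ?_
  filter_upwards [eventually_gt_atTop (0 : ℝ)] with r hr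
  rw [← r2tf hr]
  unfold Hf
  have e2 : Gf be al s (q r) (p r) = Gf al be s (p r) (q r) := by unfold Gf; ring
  rw [e2]
  ring

theorem tendsto_rpow_zero {m : ℝ} (hm : 0 < m) :
    Tendsto (fun r : ℝ => r ^ m) (𝓝[>] 0) (𝓝 0) := by
  have h1 : ContinuousAt (fun r : ℝ => r ^ m) 0 :=
    Real.continuousAt_rpow_const 0 m (Or.inr hm.le)
  have h2 := h1.tendsto
  rw [Real.zero_rpow hm.ne'] at h2
  exact h2.mono_left nhdsWithin_le_nhds

theorem RadPair.X_zero (h : RadPair k lam al be s P0 Q0 p p1 q q1) (hk : 1 / 4 < k) :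
    Tendsto (fun r => Xf k r (tf k r) (p r) (p1 r) (q r) (q1 r)) (𝓝[>] 0) (𝓝 0) := by
  have t1 := tendsto_rpow_zero (m := 4 * k) (by linarith)
  have t2 := tendsto_rpow_zero (m := 4 * k - 1) (by linarith)
  have hR := h.tq.div h.tp h.P0pos.ne'
  have a1 := (t1.mul (((hR.pow 2).mul (h.tp1.pow 2)).sub (h.tq1.pow 2))).const_mul (1 / 2)
  have a2 := (t2.mul ((((hR.pow 2).mul h.tp).mul h.tp1).sub (h.tq.mul h.tq1))).const_mul k
  have a3 := (t1.mul (((h.tq.pow 2).mul (h.tp.pow 2)).sub (h.tq.pow 4))).const_mul (1 / 4)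
  have a := (a1.add a2).add a3
  have e0 : 1 / 2 * (0 * ((Q0 / P0) ^ 2 * 0 ^ 2 - 0 ^ 2))
      + k * (0 * ((Q0 / P0) ^ 2 * P0 * 0 - Q0 * 0))
      + 1 / 4 * (0 * (Q0 ^ 2 * P0 ^ 2 - Q0 ^ 4)) = 0 := by ring
  rw [e0] at a
  refine a.congr' ?_
  filter_upwards [self_mem_nhdsWithin] with r hr
  have hr' : 0 < r := hr
  unfold Xf
  have e1 : k * r * tf k r = k * (r * tf k r) := by ring
  rw [r2tf hr', e1, rtf hr']
  simp only [Pi.div_apply]
  ring

theorem RadPair.H_zero (h : RadPair k lam al be s P0 Q0 p p1 q q1) (hk : 1 / 2 < k) :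
    Tendsto (fun r => Hf k lam al be s r (tf k r) (p r) (p1 r) (q r) (q1 r)) (𝓝[>] 0) (𝓝 0) := by
  have t1 : Tendsto (tf k) (𝓝[>] 0) (𝓝 0) :=
    tendsto_rpow_zero (m := 4 * k - 2) (by linarith)
  have t0 : Tendsto (fun r : ℝ => r) (𝓝[>] 0) (𝓝 0) := tendsto_id.mono_left nhdsWithin_le_nhds
  have hprod : Tendsto (fun r => (r, tf k r, p r, p1 r, q r, q1 r)) (𝓝[>] 0)
      (𝓝 ((0 : ℝ), (0 : ℝ), P0, (0 : ℝ), Q0, (0 : ℝ))) :=
    t0.prodMk_nhds (t1.prodMk_nhds (h.tp.prodMk_nhds (h.tp1.prodMk_nhds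
      (h.tq.prodMk_nhds h.tq1))))
  have hc : Continuous (fun z : ℝ × ℝ × ℝ × ℝ × ℝ × ℝ =>
      Hf k lam al be s z.1 z.2.1 z.2.2.1 z.2.2.2.1 z.2.2.2.2.1 z.2.2.2.2.2) := by
    unfold Hf Jf Gf
    fun_prop
  have h2 := (hc.tendsto ((0 : ℝ), (0 : ℝ), P0, (0 : ℝ), Q0, (0 : ℝ))).comp hprod
  have e0 : Hf k lam al be s 0 0 P0 0 Q0 0 = 0 := by
    unfold Hf Jf Gf
    ring
  simp only at h2
  rw [e0] at h2
  exact h2

/-- strict monotonicity near zero gives positivity -/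
theorem pos_of_mono_zero {f : ℝ → ℝ} {r : ℝ} (hr : 0 < r)
    (hf : Tendsto f (𝓝[>] 0) (𝓝 0)) (hm : StrictMonoOn f (Ioc 0 r)) : 0 < f r := by
  have h1 : f (r / 2) < f r := hm ⟨by positivity, by linarith⟩ ⟨hr, le_rfl⟩ (by linarith)
  have h2 : 0 ≤ f (r / 2) := by
    apply le_of_tendsto hf
    have : Ioo (0 : ℝ) (r / 2) ∈ 𝓝[>] (0 : ℝ) := Ioo_mem_nhdsGT (by positivity)
    filter_upwards [this] with x hx
    exact (hm ⟨hx.1, by linarith [hx.2]⟩ ⟨by positivity, by linarith⟩ hx.2).le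
  linarith

/-- strict decrease to zero at infinity gives positivity -/
theorem pos_of_anti_inf {f : ℝ → ℝ} {r : ℝ}
    (hf : Tendsto f atTop (𝓝 0)) (hm : StrictAntiOn f (Ici r)) : 0 < f r := by
  have h1 : f (r + 1) < f r := hm (mem_Ici.mpr le_rfl) (mem_Ici.mpr (by linarith)) (by linarith)
  have h2 : 0 ≤ f (r + 1) := by
    apply le_of_tendsto hf
    filter_upwards [eventually_gt_atTop (r + 1)] with x hx
    exact (hm (mem_Ici.mpr (by linarith)) (mem_Ici.mpr (by linarith)) hx).le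
  linarith

theorem RadPair.H_pos (h : RadPair k lam al be s P0 Q0 p p1 q q1) (hk : 1 / 4 < k) (hk1 : k < 1)
    (hlam : 0 < lam) (hal : 0 < al) (hbe : 0 < be) (hs : 0 ≤ s) {r : ℝ} (hr : 0 < r) :
    0 < Hf k lam al be s r (tf k r) (p r) (p1 r) (q r) (q1 r) := by
  have hder : ∀ x, 0 < x → HasDerivAt
      (fun x => Hf k lam al be s x (tf k x) (p x) (p1 x) (q x) (q1 x))
      (k * (tf k x / x) * ((1 - k) * (2 * k - 1) - lam * x ^ 2)
        * (al * p x ^ 2 + be * q x ^ 2)) x := fun x hx =>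
    hasDerivAt_H hx (hasDerivAt_tf hx) (h.hp x hx) (h.hp1 x hx) (h.hq x hx) (h.hq1 x hx)
  have hpref : ∀ x, 0 < x → 0 < k * (tf k x / x) * (al * p x ^ 2 + be * q x ^ 2) := by
    intro x hx
    have := tf_pos (k := k) hx
    have := h.ppos x hx
    have := h.qpos x hx
    have : 0 < k := by linarith
    positivity
  by_cases hc : (1 - k) * (2 * k - 1) ≤ lam * r ^ 2
  · apply pos_of_anti_inf (h.H_inf (by linarith) hlam hal hbe hs)
    apply strictAntiOn_of_deriv_neg (convex_Ici r)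
    · intro x hx
      have hx0 : 0 < x := lt_of_lt_of_le hr hx
      exact (hder x hx0).continuousAt.continuousWithinAt
    · intro x hx
      rw [interior_Ici] at hx
      have hx' : r < x := hx
      have hx0 : 0 < x := hr.trans hx'
      rw [(hder x hx0).deriv]
      have h1 := hpref x hx0
      have h2 : (1 - k) * (2 * k - 1) - lam * x ^ 2 < 0 := by
        have : lam * r ^ 2 < lam * x ^ 2 := by
          apply mul_lt_mul_of_pos_left _ hlam
          nlinarith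
        linarith
      have e : k * (tf k x / x) * ((1 - k) * (2 * k - 1) - lam * x ^ 2)
          * (al * p x ^ 2 + be * q x ^ 2)
          = (k * (tf k x / x) * (al * p x ^ 2 + be * q x ^ 2))
            * ((1 - k) * (2 * k - 1) - lam * x ^ 2) := by ring
      rw [e]
      exact mul_neg_of_pos_of_neg h1 h2
  · push Not at hc
    have hk2 : 1 / 2 < k := by
      by_contra hcon
      push Not at hcon
      have : (1 - k) * (2 * k - 1) ≤ 0 := by nlinarith
      have : 0 < lam * r ^ 2 := by positivity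
      linarith
    apply pos_of_mono_zero (f := fun x => Hf k lam al be s x (tf k x) (p x) (p1 x) (q x) (q1 x)) hr
      (h.H_zero hk2)
    apply strictMonoOn_of_deriv_pos (convex_Ioc 0 r)
    · intro x hx
      exact (hder x hx.1).continuousAt.continuousWithinAt
    · intro x hx
      rw [interior_Ioc] at hx
      have hx0 : 0 < x := hx.1
      rw [(hder x hx0).deriv]
      have h1 := hpref x hx0
      have h2 : 0 < (1 - k) * (2 * k - 1) - lam * x ^ 2 := by
        have : lam * x ^ 2 < lam * r ^ 2 := by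
          apply mul_lt_mul_of_pos_left _ hlam
          nlinarith [hx.2]
        linarith
      have e : k * (tf k x / x) * ((1 - k) * (2 * k - 1) - lam * x ^ 2)
          * (al * p x ^ 2 + be * q x ^ 2)
          = (k * (tf k x / x) * (al * p x ^ 2 + be * q x ^ 2))
            * ((1 - k) * (2 * k - 1) - lam * x ^ 2) := by ring
      rw [e]
      exact mul_pos h1 h2

end

end Pool.Agent.H307
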