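import Mathlib
import Pool.Agent.H307.OdeB

set_option autoImplicit false

/-!
# Uniqueness of the radial profile
-/

open Filter Topology Set

namespace Pool.Agent.H307

/-- continuation lemma for positivity -/
theorem pos_of_continuation {W : ℝ → ℝ} (hc : ∀ r, 0 < r → ContinuousAt W r)
    (h0 : ∀ᶠ r in 𝓝[>] (0 : ℝ), 0 < W r)
    (hstep : ∀ r, 0 < r → (∀ t, 0 < t → t < r → 0 < W t) → 0 < W r) :
    ∀ r, 0 < r → 0 < W r := by
  by_contra hcon
  push Not at hcon
  obtain ⟨r0, hr0, hr0'⟩ := hcon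
  set S : Set ℝ := {r | 0 < r ∧ W r ≤ 0} with hS
  have hne : S.Nonempty := ⟨r0, hr0, hr0'⟩
  have hbdd : BddBelow S := ⟨0, fun x hx => hx.1.le⟩
  obtain ⟨ε, hε, hε'⟩ := (mem_nhdsGT_iff_exists_Ioo_subset).mp h0
  have hε0 : 0 < ε := hε
  have hm1 : ε ≤ sInf S := by
    apply le_csInf hne
    intro x hx
    by_contra hlt
    push Not at hlt
    have h1 : 0 < W x := hε' ⟨hx.1, hlt⟩
    linarith [hx.2]
  have hm0 : 0 < sInf S := by linarith
  have hpos := hstep (sInf S) hm0 (fun t ht htm => by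
    by_contra hcon
    push Not at hcon
    have : sInf S ≤ t := csInf_le hbdd ⟨ht, hcon⟩
    linarith)
  have hev : ∀ᶠ x in 𝓝 (sInf S), 0 < W x := (hc _ hm0).eventually (lt_mem_nhds hpos)
  obtain ⟨δ, hδ, hδ'⟩ := Metric.eventually_nhds_iff.mp hev
  obtain ⟨x, hxS, hx⟩ := exists_lt_of_csInf_lt hne (show sInf S < sInf S + δ by linarith)
  have hxge : sInf S ≤ x := csInf_le hbdd hxS
  have : 0 < W x := hδ' (by
    rw [Real.dist_eq, abs_of_nonneg (by linarith)]
    linarith)
  linarith [hxS.2]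

section
variable {k lam al be s P0 Q0 : ℝ} {p p1 q q1 : ℝ → ℝ}

/-- the weighted Wronskian -/
noncomputable def Wf (k : ℝ) (p p1 q q1 : ℝ → ℝ) (r : ℝ) : ℝ :=
  r ^ (3 * k) * (q1 r * p r - q r * p1 r)

theorem RadPair.hasDerivAt_W (h : RadPair k lam al be s P0 Q0 p p1 q q1) {r : ℝ} (hr : 0 < r) :
    HasDerivAt (Wf k p p1 q q1) (r ^ (3 * k) * (p r * q r * ((p r) ^ 2 - (q r) ^ 2))) r := by
  have h1 := (Real.hasDerivAt_rpow_const (x := r) (p := 3 * k) (Or.inl hr.ne')).mul
    (((h.hq1 r hr).mul (h.hp r hr)).sub ((h.hq r hr).mul (h.hp1 r hr)))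
  refine h1.congr_deriv ?_
  rw [Real.rpow_sub_one hr.ne']
  simp only [Pi.mul_apply, Pi.sub_apply]
  field_simp
  ring

/-- the normalised comparison quantity -/
noncomputable def Yf (k al be : ℝ) (p p1 q q1 : ℝ → ℝ) (r : ℝ) : ℝ :=
  Xf k r (tf k r) (p r) (p1 r) (q r) (q1 r) / (al + be * (q r / p r) ^ 2)

theorem RadPair.hasDerivAt_Y (h : RadPair k lam al be s P0 Q0 p p1 q q1)
    (hal : 0 < al) (hbe : 0 < be) {r : ℝ} (hr : 0 < r) :
    HasDerivAt (Yf k al be p p1 q q1)
      (2 * (q r / p r) * ((q1 r * p r - q r * p1 r) / (p r) ^ 2)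
        * (Hf k lam al be s r (tf k r) (p r) (p1 r) (q r) (q1 r)
          + s * (r ^ 2 * tf k r) / 4 * (al * p r ^ 2 + be * q r ^ 2) ^ 2)
        / (al + be * (q r / p r) ^ 2) ^ 2) r := by
  have hpr := h.ppos r hr
  have hqr := h.qpos r hr
  have hX := hasDerivAt_X hr hpr.ne' (hasDerivAt_tf hr) (h.hp r hr) (h.hp1 r hr)
    (h.hq r hr) (h.hq1 r hr)
  have hR := (h.hq r hr).div (h.hp r hr) hpr.ne'
  have hD := ((hR.pow 2).const_mul be).const_add al
  have hDne : al + be * ((q / p) r) ^ 2 ≠ 0 := by positivity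
  have hY := hX.div hD hDne
  refine hY.congr_deriv ?_
  have hXe := Xf_eq (k := k) (lam := lam) (G := Gf al be s (p r) (q r)) (r := r) (t := tf k r)
    (p := p r) (p1 := p1 r) (q := q r) (q1 := q1 r) hpr.ne'
  rw [hXe]
  unfold Hf
  simp only [Pi.div_apply, Pi.pow_apply]
  push_cast
  simp only [pow_one]
  have hD2 : al + be * (q r / p r) ^ 2 ≠ 0 := by positivity
  congr 1
  generalize Jf k lam (Gf al be s (p r) (q r)) r (tf k r) (p r) (p1 r) = A
  generalize Jf k lam (Gf al be s (p r) (q r)) r (tf k r) (q r) (q1 r) = B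
  ring

theorem RadPair.hasDerivAt_R (h : RadPair k lam al be s P0 Q0 p p1 q q1) {r : ℝ} (hr : 0 < r) :
    HasDerivAt (fun x => q x / p x) ((q1 r * p r - q r * p1 r) / (p r) ^ 2) r :=
  (h.hq r hr).div (h.hp r hr) (h.ppos r hr).ne'

/-- positivity of the derivative of `Y` -/
theorem RadPair.Y_deriv_pos (h : RadPair k lam al be s P0 Q0 p p1 q q1) (hk : 1 / 4 < k)
    (hk1 : k < 1) (hlam : 0 < lam) (hal : 0 < al) (hbe : 0 < be) (hs : 0 ≤ s) {r : ℝ}
    (hr : 0 < r) (hW : 0 < Wf k p p1 q q1 r) :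
    0 < deriv (Yf k al be p p1 q q1) r := by
  rw [(h.hasDerivAt_Y hal hbe hr).deriv]
  have h1 := h.H_pos hk hk1 hlam hal hbe hs hr
  have h2 := tf_pos (k := k) hr
  have h3 := h.ppos r hr
  have h4 := h.qpos r hr
  have h5 : 0 < q1 r * p r - q r * p1 r := by
    unfold Wf at hW
    exact (mul_pos_iff_of_pos_left (Real.rpow_pos_of_pos hr _)).mp hW
  have h6 : 0 ≤ s * (r ^ 2 * tf k r) / 4 * (al * p r ^ 2 + be * q r ^ 2) ^ 2 := by positivity
  have h7 : 0 < Hf k lam al be s r (tf k r) (p r) (p1 r) (q r) (q1 r)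
      + s * (r ^ 2 * tf k r) / 4 * (al * p r ^ 2 + be * q r ^ 2) ^ 2 := by linarith
  positivity

theorem RadPair.Y_zero (h : RadPair k lam al be s P0 Q0 p p1 q q1) (hk : 1 / 4 < k)
    (hal : 0 < al) (hbe : 0 < be) : Tendsto (Yf k al be p p1 q q1) (𝓝[>] 0) (𝓝 0) := by
  have hX := h.X_zero hk
  have hR := h.tq.div h.tp h.P0pos.ne'
  have hD := ((hR.pow 2).const_mul be).const_add al
  have := h.P0pos
  have hne : al + be * (Q0 / P0) ^ 2 ≠ 0 := by positivity
  have hY := hX.div hD hne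
  rw [zero_div] at hY
  exact hY

theorem RadPair.Y_inf (h : RadPair k lam al be s P0 Q0 p p1 q q1) (hk : 0 < k)
    (hlam : 0 < lam) (hal : 0 < al) (hbe : 0 < be) (hs : 0 ≤ s) :
    Tendsto (Yf k al be p p1 q q1) atTop (𝓝 0) := by
  have hX := h.X_inf hk hlam hal hbe hs
  have hX2 := (hX.norm).div_const al
  rw [norm_zero, zero_div] at hX2
  refine squeeze_zero_norm' ?_ hX2
  filter_upwards with r
  unfold Yf
  rw [norm_div]
  have h1 : al ≤ ‖al + be * (q r / p r) ^ 2‖ := by
    rw [Real.norm_of_nonneg (by positivity)]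
    have : 0 ≤ be * (q r / p r) ^ 2 := by positivity
    linarith
  exact div_le_div_of_nonneg_left (norm_nonneg _) hal h1

/-- the case `Q0 < P0` is impossible -/
theorem RadPair.not_lt (h : RadPair k lam al be s P0 Q0 p p1 q q1) (hk : 1 / 4 < k)
    (hk1 : k < 1) (hlam : 0 < lam) (hal : 0 < al) (hbe : 0 < be) (hs : 0 ≤ s) : ¬ Q0 < P0 := by
  intro hlt
  -- W > 0 near zero
  have hWzero : Tendsto (Wf k p p1 q q1) (𝓝[>] 0) (𝓝 0) := by
    have h1 := (tendsto_rpow_zero (m := 3 * k) (by linarith)).mul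
      ((h.tq1.mul h.tp).sub (h.tq.mul h.tp1))
    have e : (0 : ℝ) * (0 * P0 - Q0 * 0) = 0 := by ring
    rw [e] at h1
    exact h1
  have hpos0 : ∀ᶠ r in 𝓝[>] (0 : ℝ), 0 < Wf k p p1 q q1 r := by
    have h1 : ∀ᶠ r in 𝓝[>] (0 : ℝ), 0 < p r - q r := by
      have := (h.tp.sub h.tq).eventually (lt_mem_nhds (show (0 : ℝ) < P0 - Q0 by linarith))
      exact this
    obtain ⟨ε, hε, hε'⟩ := (mem_nhdsGT_iff_exists_Ioo_subset).mp h1
    have hε0 : 0 < ε := hε
    have h2 : Ioo (0 : ℝ) ε ∈ 𝓝[>] (0 : ℝ) := Ioo_mem_nhdsGT hε0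
    filter_upwards [h2] with r hr
    apply pos_of_mono_zero hr.1 hWzero
    apply strictMonoOn_of_deriv_pos (convex_Ioc 0 r)
    · intro x hx
      exact (h.hasDerivAt_W hx.1).continuousAt.continuousWithinAt
    · intro x hx
      rw [interior_Ioc] at hx
      rw [(h.hasDerivAt_W hx.1).deriv]
      have a1 : 0 < p x - q x := hε' ⟨hx.1, hx.2.trans hr.2⟩
      have a2 := h.ppos x hx.1
      have a3 := h.qpos x hx.1
      have a4 : 0 < x ^ (3 * k) := Real.rpow_pos_of_pos hx.1 _
      have a5 : 0 < (p x) ^ 2 - (q x) ^ 2 := by nlinarith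
      positivity
  have hYz := h.Y_zero hk hal hbe
  have hmonoY : ∀ r, 0 < r → (∀ t, 0 < t → t < r → 0 < Wf k p p1 q q1 t) →
      StrictMonoOn (Yf k al be p p1 q q1) (Ioc 0 r) := by
    intro r hr hW
    apply strictMonoOn_of_deriv_pos (convex_Ioc 0 r)
    · intro x hx
      exact (h.hasDerivAt_Y hal hbe hx.1).continuousAt.continuousWithinAt
    · intro x hx
      rw [interior_Ioc] at hx
      exact h.Y_deriv_pos hk hk1 hlam hal hbe hs hx.1 (hW x hx.1 hx.2)
  have hW : ∀ r, 0 < r → 0 < Wf k p p1 q q1 r := by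
    apply pos_of_continuation (fun r hr => (h.hasDerivAt_W hr).continuousAt) hpos0
    intro r hr hprev
    by_contra hcon
    push Not at hcon
    -- W r = 0 by continuity
    have hW0 : 0 ≤ Wf k p p1 q q1 r := by
      have hc := ((h.hasDerivAt_W hr).continuousAt).tendsto.mono_left
        (nhdsWithin_le_nhds (s := Iio r))
      apply ge_of_tendsto hc
      have : Ioo (0 : ℝ) r ∈ 𝓝[<] r := Ioo_mem_nhdsLT hr
      filter_upwards [this] with x hx
      exact (hprev x hx.1 hx.2).le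
    have hWr : Wf k p p1 q q1 r = 0 := le_antisymm hcon hW0
    have hrpow : 0 < r ^ (3 * k) := Real.rpow_pos_of_pos hr _
    have hD : q1 r * p r - q r * p1 r = 0 := by
      unfold Wf at hWr
      rcases mul_eq_zero.mp hWr with h1 | h1
      · exact absurd h1 hrpow.ne'
      · exact h1
    have hpr := h.ppos r hr
    have hqr := h.qpos r hr
    have htr := tf_pos (k := k) hr
    have hYr : 0 < Yf k al be p p1 q q1 r := pos_of_mono_zero hr hYz (hmonoY r hr hprev)
    have hq1 : q1 r = q r * p1 r / p r := by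
      field_simp
      linarith
    have hYe : Yf k al be p p1 q q1 r
        = (r ^ 2 * tf k r / 4 * (q r) ^ 2) * ((p r) ^ 2 - (q r) ^ 2)
          / (al + be * (q r / p r) ^ 2) := by
      unfold Yf Xf
      rw [hq1]
      congr 1
      field_simp
      ring
    have hlt1 : 0 < (p r) ^ 2 - (q r) ^ 2 := by
      rw [hYe] at hYr
      have hden : 0 < al + be * (q r / p r) ^ 2 := by positivity
      have h1 := (div_pos_iff_of_pos_right hden).mp hYr
      have h2 : 0 < r ^ 2 * tf k r / 4 * (q r) ^ 2 := by positivity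
      exact (mul_pos_iff_of_pos_left h2).mp h1
    have hqp : q r < p r := by nlinarith
    -- R is strictly increasing on (0, r]
    have hRmono : StrictMonoOn (fun x => q x / p x) (Ioc 0 r) := by
      apply strictMonoOn_of_deriv_pos (convex_Ioc 0 r)
      · intro x hx
        exact (h.hasDerivAt_R hx.1).continuousAt.continuousWithinAt
      · intro x hx
        rw [interior_Ioc] at hx
        rw [(h.hasDerivAt_R hx.1).deriv]
        have h5 : 0 < q1 x * p x - q x * p1 x := by
          have := hprev x hx.1 hx.2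
          unfold Wf at this
          exact (mul_pos_iff_of_pos_left (Real.rpow_pos_of_pos hx.1 _)).mp this
        have := h.ppos x hx.1
        positivity
    have hRlt : ∀ x, 0 < x → x < r → q x < p x := by
      intro x hx hxr
      have h1 : q x / p x < q r / p r := hRmono ⟨hx, hxr.le⟩ ⟨hr, le_rfl⟩ hxr
      have h2 : q r / p r < 1 := (div_lt_one hpr).mpr hqp
      exact (div_lt_one (h.ppos x hx)).mp (h1.trans h2)
    have hWmono : StrictMonoOn (Wf k p p1 q q1) (Ioc 0 r) := by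
      apply strictMonoOn_of_deriv_pos (convex_Ioc 0 r)
      · intro x hx
        exact (h.hasDerivAt_W hx.1).continuousAt.continuousWithinAt
      · intro x hx
        rw [interior_Ioc] at hx
        rw [(h.hasDerivAt_W hx.1).deriv]
        have a1 := hRlt x hx.1 hx.2
        have a2 := h.ppos x hx.1
        have a3 := h.qpos x hx.1
        have a4 : 0 < x ^ (3 * k) := Real.rpow_pos_of_pos hx.1 _
        have a5 : 0 < (p x) ^ 2 - (q x) ^ 2 := by nlinarith
        positivity
    have := pos_of_mono_zero hr hWzero hWmono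
    linarith
  -- final contradiction
  have hY1 : 0 < Yf k al be p p1 q q1 1 :=
    pos_of_mono_zero one_pos hYz (hmonoY 1 one_pos (fun t ht _ => hW t ht))
  have hYge : ∀ᶠ r in atTop, Yf k al be p p1 q q1 1 ≤ Yf k al be p p1 q q1 r := by
    filter_upwards [eventually_gt_atTop (1 : ℝ)] with r hr
    have hr0 : 0 < r := by linarith
    exact (hmonoY r hr0 (fun t ht _ => hW t ht) ⟨one_pos, hr.le⟩ ⟨hr0, le_rfl⟩ hr).le
  have := ge_of_tendsto (h.Y_inf (by linarith) hlam hal hbe hs) hYge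
  linarith

theorem RadPair.init_eq (h : RadPair k lam al be s P0 Q0 p p1 q q1) (hk : 1 / 4 < k)
    (hk1 : k < 1) (hlam : 0 < lam) (hal : 0 < al) (hbe : 0 < be) (hs : 0 ≤ s) : P0 = Q0 := by
  have h1 := h.not_lt hk hk1 hlam hal hbe hs
  have h2 := h.swap.not_lt hk hk1 hlam hbe hal hs
  push Not at h1 h2
  exact le_antisymm h1 h2

/-- uniqueness of the radial profile -/
theorem RadPair.eq (h : RadPair k lam al be s P0 Q0 p p1 q q1) (hk : 1 / 4 < k)
    (hk1 : k < 1) (hlam : 0 < lam) (hal : 0 < al) (hbe : 0 < be) (hs : 0 ≤ s)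
    {M : ℝ} (hpM : ∀ r, 0 < r → p r ≤ M) (hqM : ∀ r, 0 < r → q r ≤ M) :
    ∀ r, 0 < r → p r = q r := by
  have hPQ := h.init_eq hk hk1 hlam hal hbe hs
  -- energy of the difference
  set e : ℝ → ℝ := fun r => (p r - q r) ^ 2 + (p1 r - q1 r) ^ 2 with he
  set c : ℝ → ℝ := fun r => lam - Gf al be s (p r) (q r)
    - ((p r) ^ 2 + p r * q r + (q r) ^ 2) with hcdef
  have hM0 : 0 < M := lt_of_lt_of_le (h.ppos 1 one_pos) (hpM 1 one_pos)
  set C : ℝ := 1 + lam + s * (al * M ^ 2 + be * M ^ 2) + 3 * M ^ 2 with hC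
  have hder : ∀ r, 0 < r → HasDerivAt e
      (2 * (p r - q r) * (p1 r - q1 r) * (1 + c r) - 6 * k / r * (p1 r - q1 r) ^ 2) r := by
    intro r hr
    have h1 := (((h.hp r hr).sub (h.hq r hr)).pow 2).add
      (((h.hp1 r hr).sub (h.hq1 r hr)).pow 2)
    refine h1.congr_deriv ?_
    simp only [Pi.sub_apply, hcdef]
    push_cast
    field_simp
    ring
  have hcb : ∀ r, 0 < r → |1 + c r| ≤ C := by
    intro r hr
    have a1 := h.ppos r hr
    have a2 := h.qpos r hr
    have a3 := hpM r hr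
    have a4 := hqM r hr
    have a5 : (p r) ^ 2 ≤ M ^ 2 := by nlinarith
    have a6 : (q r) ^ 2 ≤ M ^ 2 := by nlinarith
    have a7 : p r * q r ≤ M ^ 2 := by nlinarith
    have a8 : Gf al be s (p r) (q r) ≤ s * (al * M ^ 2 + be * M ^ 2) := by
      unfold Gf
      gcongr
    have a9 : 0 ≤ Gf al be s (p r) (q r) := by
      unfold Gf
      positivity
    rw [abs_le]
    simp only [hcdef, hC]
    constructor
    · nlinarith
    · nlinarith [mul_pos a1 a2]
  have hzero : Tendsto e (𝓝[>] 0) (𝓝 0) := by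
    have h1 := ((h.tp.sub h.tq).pow 2).add ((h.tp1.sub h.tq1).pow 2)
    have e0 : (P0 - Q0) ^ 2 + (0 - 0) ^ 2 = (0 : ℝ) := by rw [hPQ]; ring
    rw [e0] at h1
    exact h1
  have hanti : AntitoneOn (fun r => Real.exp (-(C * r)) * e r) (Ioi 0) := by
    have hd : ∀ x, 0 < x → HasDerivAt (fun r => Real.exp (-(C * r)) * e r)
        (Real.exp (-(C * x)) * (-(C * 1)) * e x + Real.exp (-(C * x))
          * (2 * (p x - q x) * (p1 x - q1 x) * (1 + c x)
            - 6 * k / x * (p1 x - q1 x) ^ 2)) x := by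
      intro x hx
      exact ((((hasDerivAt_id x).const_mul C).neg).exp).mul (hder x hx)
    apply antitoneOn_of_deriv_nonpos (convex_Ioi 0)
    · intro x hx
      exact (hd x hx).continuousAt.continuousWithinAt
    · intro x hx
      rw [interior_Ioi] at hx
      exact (hd x hx).differentiableAt.differentiableWithinAt
    · intro x hx
      rw [interior_Ioi] at hx
      have hx0 : 0 < x := hx
      rw [(hd x hx0).deriv]
      have h1 : 0 < Real.exp (-(C * x)) := Real.exp_pos _
      have h2 := hcb x hx0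
      have h3 : 0 ≤ 6 * k / x * (p1 x - q1 x) ^ 2 := by
        have : 0 < k := by linarith
        positivity
      have h4 : 2 * (p x - q x) * (p1 x - q1 x) * (1 + c x) ≤ C * e x := by
        have h5 : |2 * (p x - q x) * (p1 x - q1 x)| ≤ e x := by
          rw [abs_le]
          simp only [he]
          constructor
          · nlinarith [sq_nonneg ((p x - q x) + (p1 x - q1 x))]
          · nlinarith [sq_nonneg ((p x - q x) - (p1 x - q1 x))]
        calc 2 * (p x - q x) * (p1 x - q1 x) * (1 + c x)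
            ≤ |2 * (p x - q x) * (p1 x - q1 x) * (1 + c x)| := le_abs_self _
          _ = |2 * (p x - q x) * (p1 x - q1 x)| * |1 + c x| := abs_mul _ _
          _ ≤ e x * C := mul_le_mul h5 h2 (abs_nonneg _) (by simp only [he]; positivity)
          _ = C * e x := by ring
      have h6 : -(C * 1) * e x + (2 * (p x - q x) * (p1 x - q1 x) * (1 + c x)
            - 6 * k / x * (p1 x - q1 x) ^ 2) ≤ 0 := by linarith
      have e7 : Real.exp (-(C * x)) * (-(C * 1)) * e x + Real.exp (-(C * x))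
          * (2 * (p x - q x) * (p1 x - q1 x) * (1 + c x) - 6 * k / x * (p1 x - q1 x) ^ 2)
          = Real.exp (-(C * x)) * (-(C * 1) * e x + (2 * (p x - q x) * (p1 x - q1 x) * (1 + c x)
            - 6 * k / x * (p1 x - q1 x) ^ 2)) := by ring
      rw [e7]
      exact mul_nonpos_of_nonneg_of_nonpos h1.le h6
  have hlim : Tendsto (fun r => Real.exp (-(C * r)) * e r) (𝓝[>] 0) (𝓝 0) := by
    have h1 : Tendsto (fun r : ℝ => Real.exp (-(C * r))) (𝓝[>] 0) (𝓝 1) := by
      have hc : Continuous (fun r : ℝ => Real.exp (-(C * r))) := by fun_prop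
      have := (hc.tendsto 0).mono_left (nhdsWithin_le_nhds (s := Ioi 0))
      simpa using this
    have := h1.mul hzero
    rwa [mul_zero] at this
  intro r hr
  have hle : Real.exp (-(C * r)) * e r ≤ 0 := by
    apply ge_of_tendsto hlim
    have : Ioo (0 : ℝ) r ∈ 𝓝[>] (0 : ℝ) := Ioo_mem_nhdsGT hr
    filter_upwards [this] with x hx
    exact hanti hx.1 hr hx.2.le
  have h1 : 0 < Real.exp (-(C * r)) := Real.exp_pos _
  have h2 : e r ≤ 0 := by
    by_contra hcon
    push Not at hcon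
    have := mul_pos h1 hcon
    linarith
  have h3 : (p r - q r) ^ 2 ≤ 0 := by
    have : 0 ≤ (p1 r - q1 r) ^ 2 := sq_nonneg _
    simp only [he] at h2
    linarith
  have h4 : (p r - q r) ^ 2 = 0 := le_antisymm h3 (sq_nonneg _)
  have h5 : p r - q r = 0 := by
    exact pow_eq_zero_iff (two_ne_zero) |>.mp h4
  linarith

end

end Pool.Agent.H307
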