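import Mathlib

set_option autoImplicit false

/-!
# Elementary facts on the Laplacian of `C^2` functions
-/

open Filter Topology Set InnerProductSpace Laplacian

namespace Pool.Agent.H307

variable {E : Type*} [NormedAddCommGroup E] [InnerProductSpace ℝ E] [FiniteDimensional ℝ E]

omit [FiniteDimensional ℝ E] in
theorem hasDerivAt_line {f : E → ℝ} (hf : ContDiff ℝ 2 f) (x v : E) (t : ℝ) :
    HasDerivAt (fun s : ℝ => f (x + s • v)) (fderiv ℝ f (x + t • v) v) t := by
  have h1 : HasFDerivAt f (fderiv ℝ f (x + t • v)) (x + t • v) :=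
    (hf.differentiable (by norm_num)).differentiableAt.hasFDerivAt
  have h2 : HasDerivAt (fun s : ℝ => x + s • v) v t := by
    have := ((hasDerivAt_id t).smul_const v).const_add x
    simpa using this
  exact h1.comp_hasDerivAt t h2

omit [FiniteDimensional ℝ E] in
theorem hasDerivAt_line2 {f : E → ℝ} (hf : ContDiff ℝ 2 f) (x v w : E) (t : ℝ) :
    HasDerivAt (fun s : ℝ => fderiv ℝ f (x + s • v) w)
      (fderiv ℝ (fderiv ℝ f) (x + t • v) v w) t := by
  have hf1 : ContDiff ℝ 1 (fderiv ℝ f) := hf.fderiv_right (by norm_num)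
  have h1 : HasFDerivAt (fderiv ℝ f) (fderiv ℝ (fderiv ℝ f) (x + t • v)) (x + t • v) :=
    (hf1.differentiable (by norm_num)).differentiableAt.hasFDerivAt
  have h2 : HasDerivAt (fun s : ℝ => x + s • v) v t := by
    have := ((hasDerivAt_id t).smul_const v).const_add x
    simpa using this
  have h3 := h1.comp_hasDerivAt t h2
  exact (ContinuousLinearMap.apply ℝ ℝ w).hasFDerivAt.comp_hasDerivAt t h3

theorem lap_eq {ι : Type*} [Fintype ι] (b : OrthonormalBasis ι ℝ E) (f : E → ℝ) (x : E) :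
    Δ f x = ∑ i, fderiv ℝ (fderiv ℝ f) x (b i) (b i) := by
  rw [laplacian_eq_iteratedFDeriv_orthonormalBasis f b]
  simp only [iteratedFDeriv_two_apply]
  simp

theorem lap_eq_sum {ι : Type*} [Fintype ι] (b : OrthonormalBasis ι ℝ E) {f : E → ℝ}
    (hf : ContDiff ℝ 2 f) (x : E) {g1 : ι → ℝ → ℝ} {g2 : ι → ℝ}
    (h1 : ∀ i t, HasDerivAt (fun s : ℝ => f (x + s • b i)) (g1 i t) t)
    (h2 : ∀ i, HasDerivAt (g1 i) (g2 i) 0) :
    Δ f x = ∑ i, g2 i := by
  rw [lap_eq b]
  apply Finset.sum_congr rfl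
  intro i _
  have e1 : g1 i = fun s : ℝ => fderiv ℝ f (x + s • b i) (b i) := by
    funext t
    exact (h1 i t).unique (hasDerivAt_line hf x (b i) t)
  have h3 := h2 i
  rw [e1] at h3
  have h4 := hasDerivAt_line2 hf x (b i) (b i) 0
  have h5 := h4.unique h3
  simpa using h5

/-- second derivative test, one dimensional necessary condition -/
theorem second_deriv_nonneg {g g1 : ℝ → ℝ} {g2 : ℝ} (h1 : ∀ t, HasDerivAt g (g1 t) t)
    (h2 : HasDerivAt g1 g2 0) (hmin : IsLocalMin g 0) : 0 ≤ g2 := by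
  by_contra hcon
  push Not at hcon
  have hd : deriv g = g1 := by
    funext t
    exact (h1 t).deriv
  have hd0 : deriv g 0 = 0 := hmin.deriv_eq_zero
  have hdd : deriv (deriv g) 0 < 0 := by
    rw [hd, h2.deriv]; exact hcon
  have hmax := isLocalMax_of_deriv_deriv_neg hdd hd0 (h1 0).continuousAt
  have hconst : g =ᶠ[𝓝 0] fun _ => g 0 := by
    filter_upwards [hmin, hmax] with t ht1 ht2
    exact le_antisymm ht2 ht1
  have h3 : deriv g =ᶠ[𝓝 0] fun _ => 0 := by
    have := hconst.deriv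
    simpa using this
  have h4 : deriv (deriv g) 0 = 0 := by
    rw [h3.deriv_eq]
    simp
  linarith

theorem lap_nonneg_of_localMin {f : E → ℝ} (hf : ContDiff ℝ 2 f) {x : E}
    (hmin : IsLocalMin f x) : 0 ≤ Δ f x := by
  rw [lap_eq (stdOrthonormalBasis ℝ E)]
  apply Finset.sum_nonneg
  intro i _
  set v := stdOrthonormalBasis ℝ E i
  have h2 := hasDerivAt_line2 hf x v v 0
  have h3 : IsLocalMin (fun s : ℝ => f (x + s • v)) 0 := by
    have hc : ContinuousAt (fun s : ℝ => x + s • v) 0 := by fun_prop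
    have h4 : Tendsto (fun s : ℝ => x + s • v) (𝓝 0) (𝓝 x) := by
      have := hc.tendsto
      simpa using this
    have h5 := h4.eventually hmin
    filter_upwards [h5] with s hs
    simpa using hs
  have h4 := second_deriv_nonneg (fun t => hasDerivAt_line hf x v t) h2 h3
  simpa using h4

/-- linearity -/
theorem lap_sub {f g : E → ℝ} (hf : ContDiff ℝ 2 f) (hg : ContDiff ℝ 2 g) (x : E) :
    Δ (fun y => f y - g y) x = Δ f x - Δ g x :=
  ContDiffAt.laplacian_sub hf.contDiffAt hg.contDiffAt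

theorem lap_add {f g : E → ℝ} (hf : ContDiff ℝ 2 f) (hg : ContDiff ℝ 2 g) (x : E) :
    Δ (fun y => f y + g y) x = Δ f x + Δ g x :=
  ContDiffAt.laplacian_add hf.contDiffAt hg.contDiffAt

theorem lap_const_mul {f : E → ℝ} (hf : ContDiff ℝ 2 f) (c : ℝ) (x : E) :
    Δ (fun y => c * f y) x = c * Δ f x :=
  laplacian_smul (𝕜 := ℝ) c hf.contDiffAt

/-- Laplacian of a function of one linear coordinate -/
theorem lap_coord {e : E} (he : ‖e‖ = 1) {h h1 h2 : ℝ → ℝ} (hh : ContDiff ℝ 2 h)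
    (hd1 : ∀ t, HasDerivAt h (h1 t) t) (hd2 : ∀ t, HasDerivAt h1 (h2 t) t) (x : E) :
    Δ (fun y : E => h (inner ℝ y e)) x = h2 (inner ℝ x e) := by
  have hC : ContDiff ℝ 2 (fun y : E => h (inner ℝ y e)) := by
    exact hh.comp (contDiff_id.inner ℝ contDiff_const)
  rw [lap_eq_sum (stdOrthonormalBasis ℝ E) hC x
    (g1 := fun i t => h1 (inner ℝ (x + t • stdOrthonormalBasis ℝ E i) e)
      * inner ℝ (stdOrthonormalBasis ℝ E i) e)
    (g2 := fun i => h2 (inner ℝ x e) * (inner ℝ (stdOrthonormalBasis ℝ E i) e) ^ 2)]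
  · rw [← Finset.mul_sum]
    have h4 : ∑ i, (inner ℝ (stdOrthonormalBasis ℝ E i) e : ℝ) ^ 2 = 1 := by
      have h5 : ∑ i, ‖(inner ℝ (stdOrthonormalBasis ℝ E i) e : ℝ)‖ ^ 2 = ‖e‖ ^ 2 := by
        exact OrthonormalBasis.sum_sq_norm_inner_right (stdOrthonormalBasis ℝ E) e
      rw [he] at h5
      simpa using h5
    rw [h4, mul_one]
  · intro i t
    have hl : HasDerivAt (fun s : ℝ => (inner ℝ (x + s • stdOrthonormalBasis ℝ E i) e : ℝ))
        (inner ℝ (stdOrthonormalBasis ℝ E i) e) t := by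
      have h3 : (fun s : ℝ => (inner ℝ (x + s • stdOrthonormalBasis ℝ E i) e : ℝ))
          = fun s : ℝ => inner ℝ x e + s * inner ℝ (stdOrthonormalBasis ℝ E i) e := by
        funext s
        rw [inner_add_left, real_inner_smul_left]
      rw [h3]
      have := ((hasDerivAt_id t).mul_const
        (inner ℝ (stdOrthonormalBasis ℝ E i) e : ℝ)).const_add (inner ℝ x e : ℝ)
      simpa using this
    exact (hd1 _).comp t hl
  · intro i
    have hl : HasDerivAt (fun s : ℝ => (inner ℝ (x + s • stdOrthonormalBasis ℝ E i) e : ℝ))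
        (inner ℝ (stdOrthonormalBasis ℝ E i) e) 0 := by
      have h3 : (fun s : ℝ => (inner ℝ (x + s • stdOrthonormalBasis ℝ E i) e : ℝ))
          = fun s : ℝ => inner ℝ x e + s * inner ℝ (stdOrthonormalBasis ℝ E i) e := by
        funext s
        rw [inner_add_left, real_inner_smul_left]
      rw [h3]
      have := ((hasDerivAt_id (0 : ℝ)).mul_const
        (inner ℝ (stdOrthonormalBasis ℝ E i) e : ℝ)).const_add (inner ℝ x e : ℝ)
      simpa using this
    have h4 := ((hd2 _).comp (0 : ℝ) hl).mul_const (inner ℝ (stdOrthonormalBasis ℝ E i) e : ℝ)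
    refine h4.congr_deriv ?_
    simp only [zero_smul, add_zero]
    ring

/-- Laplacian of the Gaussian barrier -/
theorem lap_gauss (A : ℝ) (y x : E) :
    Δ (fun z : E => Real.exp (-(A * ‖z - y‖ ^ 2))) x
      = (4 * A ^ 2 * ‖x - y‖ ^ 2 - 2 * A * (Module.finrank ℝ E : ℝ))
        * Real.exp (-(A * ‖x - y‖ ^ 2)) := by
  have hC : ContDiff ℝ 2 (fun z : E => Real.exp (-(A * ‖z - y‖ ^ 2))) := by
    apply Real.contDiff_exp.comp
    apply ContDiff.neg
    apply contDiff_const.mul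
    exact (contDiff_id.sub contDiff_const).norm_sq ℝ
  set b := stdOrthonormalBasis ℝ E with hb
  have hexp : ∀ i, ∀ s : ℝ, ‖x + s • b i - y‖ ^ 2 = ‖x - y‖ ^ 2 + 2 * s * inner ℝ (x - y) (b i)
      + s ^ 2 := by
    intro i s
    have h1 : x + s • b i - y = (x - y) + s • b i := by abel
    rw [h1, norm_add_sq_real, real_inner_smul_right, norm_smul, b.norm_eq_one i]
    simp
    ring
  rw [lap_eq_sum b hC x
    (g1 := fun i t => Real.exp (-(A * (‖x - y‖ ^ 2 + 2 * t * inner ℝ (x - y) (b i) + t ^ 2)))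
      * (-(A * (2 * inner ℝ (x - y) (b i) + 2 * t))))
    (g2 := fun i => (4 * A ^ 2 * (inner ℝ (x - y) (b i)) ^ 2 - 2 * A)
      * Real.exp (-(A * ‖x - y‖ ^ 2)))]
  · rw [← Finset.sum_mul, Finset.sum_sub_distrib, ← Finset.mul_sum]
    have h5 : ∑ i, (inner ℝ (x - y) (b i) : ℝ) ^ 2 = ‖x - y‖ ^ 2 := by
      have h6 : ∑ i, ‖(inner ℝ (x - y) (b i) : ℝ)‖ ^ 2 = ‖x - y‖ ^ 2 := by
        exact OrthonormalBasis.sum_sq_norm_inner_left b (x - y)
      simpa using h6
    rw [h5]
    simp only [Finset.sum_const, Finset.card_univ, Fintype.card_fin, nsmul_eq_mul]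
    ring
  · intro i t
    have h3 : (fun s : ℝ => Real.exp (-(A * ‖x + s • b i - y‖ ^ 2)))
        = fun s : ℝ => Real.exp (-(A * (‖x - y‖ ^ 2 + 2 * s * inner ℝ (x - y) (b i) + s ^ 2))) := by
      funext s
      rw [hexp]
    rw [h3]
    have h4 : HasDerivAt (fun s : ℝ => ‖x - y‖ ^ 2 + 2 * s * inner ℝ (x - y) (b i) + s ^ 2)
        (2 * inner ℝ (x - y) (b i) + 2 * t) t := by
      have h5 := ((((hasDerivAt_id t).const_mul 2).mul_const
        (inner ℝ (x - y) (b i) : ℝ)).const_add (‖x - y‖ ^ 2)).add (hasDerivAt_pow 2 t)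
      refine h5.congr_deriv ?_
      simp
    exact ((h4.const_mul A).neg).exp
  · intro i
    have h4 : HasDerivAt (fun s : ℝ => ‖x - y‖ ^ 2 + 2 * s * inner ℝ (x - y) (b i) + s ^ 2)
        (2 * inner ℝ (x - y) (b i) + 2 * 0) 0 := by
      have h5 := ((((hasDerivAt_id (0 : ℝ)).const_mul 2).mul_const
        (inner ℝ (x - y) (b i) : ℝ)).const_add (‖x - y‖ ^ 2)).add (hasDerivAt_pow 2 0)
      refine h5.congr_deriv ?_
      simp
    have h6 := ((h4.const_mul A).neg).exp
    have h7 : HasDerivAt (fun s : ℝ => -(A * (2 * inner ℝ (x - y) (b i) + 2 * s))) (-(A * (2 * 1))) 0 := by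
      exact ((((hasDerivAt_id (0 : ℝ)).const_mul 2).const_add
        (2 * inner ℝ (x - y) (b i) : ℝ)).const_mul A).neg
    have h8 := h6.mul h7
    refine h8.congr_deriv ?_
    simp only [mul_zero, add_zero, mul_one]
    norm_num
    ring

end Pool.Agent.H307
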