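import Mathlib
import Pool.Agent.H307.Lap

set_option autoImplicit false

/-!
# Boundary point lemma and strong maximum principle for `Δ w ≤ λ w`, `w ≥ 0`
-/

open Filter Topology Set InnerProductSpace Laplacian Metric

namespace Pool.Agent.H307

variable {E : Type*} [NormedAddCommGroup E] [InnerProductSpace ℝ E] [FiniteDimensional ℝ E]

/-- boundary point lemma on a ball -/
theorem boundary_point {lam : ℝ} (hlam : 0 < lam) {w : E → ℝ} (hw : ContDiff ℝ 2 w)
    {y x3 : E} {ρ : ℝ} (hρ : 0 < ρ) (hx3 : ‖x3 - y‖ = ρ) (hzero : w x3 = 0)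
    (hnn : ∀ x, ‖x - y‖ ≤ ρ → 0 ≤ w x) (hpos : ∀ x, ‖x - y‖ < ρ → 0 < w x)
    (hlap : ∀ x, ‖x - y‖ ≤ ρ → Δ w x ≤ lam * w x) :
    0 < fderiv ℝ w x3 (y - x3) := by
  have hnc : Continuous fun x : E => ‖x - y‖ := by fun_prop
  set n : ℝ := (Module.finrank ℝ E : ℝ) with hn
  have hn0 : 0 ≤ n := Nat.cast_nonneg _
  set A : ℝ := (2 * n + 1) / ρ ^ 2 + lam with hA
  have hA0 : 0 < A := by positivity
  have hAρ : 1 ≤ A * ρ ^ 2 - 2 * n := by
    rw [hA]
    have : ((2 * n + 1) / ρ ^ 2 + lam) * ρ ^ 2 = (2 * n + 1) + lam * ρ ^ 2 := by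
      field_simp
    rw [this]
    have : 0 < lam * ρ ^ 2 := by positivity
    linarith
  have hAlam : lam < A := by
    rw [hA]
    have : 0 < (2 * n + 1) / ρ ^ 2 := by positivity
    linarith
  set G : E → ℝ := fun z => Real.exp (-(A * ‖z - y‖ ^ 2)) with hG
  have hGC : ContDiff ℝ 2 G := by
    apply Real.contDiff_exp.comp
    apply ContDiff.neg
    apply contDiff_const.mul
    exact (contDiff_id.sub contDiff_const).norm_sq ℝ
  set e0 : ℝ := Real.exp (-(A * ρ ^ 2)) with he0
  have he0pos : 0 < e0 := Real.exp_pos _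
  -- inner sphere
  have hmid : ‖(x3 + (1 / 2 : ℝ) • (y - x3)) - y‖ = ρ / 2 := by
    have : (x3 + (1 / 2 : ℝ) • (y - x3)) - y = (1 / 2 : ℝ) • (x3 - y) := by
      module
    rw [this, norm_smul, hx3]
    norm_num
    ring
  have hScpt : IsCompact {x : E | ‖x - y‖ = ρ / 2} := by
    have : {x : E | ‖x - y‖ = ρ / 2} = sphere y (ρ / 2) := by
      ext x; simp
    rw [this]
    exact isCompact_sphere y (ρ / 2)
  obtain ⟨xs, hxs, hxsmin⟩ := hScpt.exists_isMinOn ⟨_, hmid⟩ hw.continuous.continuousOn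
  have hc : 0 < w xs := hpos xs (by
    have : ‖xs - y‖ = ρ / 2 := hxs
    rw [this]; linarith)
  set c : ℝ := w xs with hcdef
  set g : E → ℝ := fun x => w x - c * (G x - e0) with hg
  have hgC : ContDiff ℝ 2 g := hw.sub (contDiff_const.mul (hGC.sub contDiff_const))
  set Ann : Set E := {x | ρ / 2 ≤ ‖x - y‖ ∧ ‖x - y‖ ≤ ρ} with hAnn
  have hAnncpt : IsCompact Ann := by
    apply IsCompact.of_isClosed_subset (isCompact_closedBall y ρ)
    · apply IsClosed.inter
      · exact isClosed_le continuous_const hnc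
      · exact isClosed_le hnc continuous_const
    · intro x hx
      simp only [mem_closedBall, dist_eq_norm]
      exact hx.2
  have hAnnne : Ann.Nonempty := ⟨x3, by rw [hx3]; linarith, hx3.le⟩
  obtain ⟨xm, hxm, hxmmin⟩ := hAnncpt.exists_isMinOn hAnnne hgC.continuous.continuousOn
  have hgm : 0 ≤ g xm := by
    by_contra hcon
    push Not at hcon
    have hGle : ∀ x, G x ≤ 1 := by
      intro x
      simp only [hG]
      rw [← Real.exp_zero]
      apply Real.exp_le_exp.mpr
      have : 0 ≤ A * ‖x - y‖ ^ 2 := by positivity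
      linarith
    have h1 : ‖xm - y‖ ≠ ρ / 2 := by
      intro heq
      have h2 : c ≤ w xm := hxsmin heq
      have h3 : G xm - e0 ≤ 1 := by linarith [hGle xm]
      have h4 : c * (G xm - e0) ≤ c := by nlinarith
      simp only [hg] at hcon
      linarith
    have h2 : ‖xm - y‖ ≠ ρ := by
      intro heq
      have h3 : 0 ≤ w xm := hnn xm heq.le
      have h4 : G xm = e0 := by simp only [hG, he0, heq]
      simp only [hg, h4, sub_self, mul_zero, sub_zero] at hcon
      linarith
    have h3 : ρ / 2 < ‖xm - y‖ := lt_of_le_of_ne hxm.1 (Ne.symm h1)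
    have h4 : ‖xm - y‖ < ρ := lt_of_le_of_ne hxm.2 h2
    have hloc : IsLocalMin g xm := by
      have hopen : IsOpen {x : E | ρ / 2 < ‖x - y‖ ∧ ‖x - y‖ < ρ} := by
        apply IsOpen.inter
        · exact isOpen_lt continuous_const hnc
        · exact isOpen_lt hnc continuous_const
      filter_upwards [hopen.mem_nhds ⟨h3, h4⟩] with x hx
      exact hxmmin ⟨hx.1.le, hx.2.le⟩
    have hlap0 : 0 ≤ Δ g xm := lap_nonneg_of_localMin hgC hloc
    have hlapg : Δ g xm = Δ w xm - c * Δ G xm := by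
      have e1 : g = fun x => w x - (fun x => c * (G x - e0)) x := by
        funext x; simp only [hg]
      rw [e1, lap_sub hw (contDiff_const.mul (hGC.sub contDiff_const))]
      have e2 : Δ (fun x => c * (G x - e0)) xm = c * Δ (fun x => G x - e0) xm :=
        lap_const_mul (hGC.sub contDiff_const) c xm
      have e3 : Δ (fun x => G x - e0) xm = Δ G xm - Δ (fun _ : E => e0) xm :=
        lap_sub hGC contDiff_const xm
      rw [e2, e3]
      have e4 : Δ (fun _ : E => e0) xm = 0 := by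
        rw [laplacian_const]; rfl
      rw [e4, sub_zero]
    have hG1 : Δ G xm = (4 * A ^ 2 * ‖xm - y‖ ^ 2 - 2 * A * n) * G xm := by
      simp only [hG]
      exact lap_gauss A y xm
    have hGpos : 0 < G xm := Real.exp_pos _
    have hkey : lam * (G xm - e0) < Δ G xm := by
      rw [hG1]
      have h5 : A ^ 2 * ρ ^ 2 ≤ 4 * A ^ 2 * ‖xm - y‖ ^ 2 := by
        have h6 : (ρ / 2) ^ 2 ≤ ‖xm - y‖ ^ 2 := by
          apply pow_le_pow_left₀ (by positivity) h3.le
        have h7 : 4 * A ^ 2 * (ρ / 2) ^ 2 ≤ 4 * A ^ 2 * ‖xm - y‖ ^ 2 := by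
          apply mul_le_mul_of_nonneg_left h6 (by positivity)
        calc A ^ 2 * ρ ^ 2 = 4 * A ^ 2 * (ρ / 2) ^ 2 := by ring
          _ ≤ _ := h7
      have h6 : A ≤ A ^ 2 * ρ ^ 2 - 2 * A * n := by
        have : A * 1 ≤ A * (A * ρ ^ 2 - 2 * n) := mul_le_mul_of_nonneg_left hAρ hA0.le
        nlinarith
      have h7 : lam < 4 * A ^ 2 * ‖xm - y‖ ^ 2 - 2 * A * n := by linarith
      have h8 : lam * G xm < (4 * A ^ 2 * ‖xm - y‖ ^ 2 - 2 * A * n) * G xm :=
        mul_lt_mul_of_pos_right h7 hGpos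
      have h9 : 0 < lam * e0 := by positivity
      linarith
    have h10 : Δ w xm ≤ lam * w xm := hlap xm hxm.2
    have h11 : Δ g xm < lam * g xm := by
      rw [hlapg]
      simp only [hg]
      have : c * (lam * (G xm - e0)) < c * Δ G xm := mul_lt_mul_of_pos_left hkey hc
      nlinarith
    have h12 : lam * g xm < 0 := mul_neg_of_pos_of_neg hlam hcon
    linarith
  -- one-sided derivative at x3 along y - x3
  by_contra hcon
  push Not at hcon
  have hder := hasDerivAt_line hgC x3 (y - x3) 0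
  simp only [zero_smul, add_zero] at hder
  have hgx3 : g x3 = 0 := by
    simp only [hg, hG, hx3, hzero, he0, sub_self, mul_zero]
  -- derivative of g
  have hderG : HasDerivAt (fun s : ℝ => G (x3 + s • (y - x3))) (2 * A * ρ ^ 2 * e0) 0 := by
    have h1 : (fun s : ℝ => G (x3 + s • (y - x3)))
        = fun s : ℝ => Real.exp (-(A * ((1 - s) ^ 2 * ρ ^ 2))) := by
      funext s
      simp only [hG]
      have h2 : x3 + s • (y - x3) - y = (1 - s) • (x3 - y) := by module
      rw [h2, norm_smul, hx3, mul_pow, Real.norm_eq_abs, sq_abs]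
    rw [h1]
    have h3 : HasDerivAt (fun s : ℝ => (1 - s) ^ 2 * ρ ^ 2) (-(2 * ρ ^ 2)) 0 := by
      have h4 := (((hasDerivAt_id (0 : ℝ)).const_sub 1).pow 2).mul_const (ρ ^ 2)
      refine h4.congr_deriv ?_
      simp
    have h5 := ((h3.const_mul A).neg).exp
    refine h5.congr_deriv ?_
    simp only [he0]
    norm_num
    ring
  have hderw := hasDerivAt_line hw x3 (y - x3) 0
  simp only [zero_smul, add_zero] at hderw
  have hderg2 : HasDerivAt (fun s : ℝ => g (x3 + s • (y - x3)))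
      (fderiv ℝ w x3 (y - x3) - c * (2 * A * ρ ^ 2 * e0)) 0 :=
    hderw.sub ((hderG.sub_const e0).const_mul c)
  have hneg : fderiv ℝ w x3 (y - x3) - c * (2 * A * ρ ^ 2 * e0) < 0 := by
    have : 0 < c * (2 * A * ρ ^ 2 * e0) := by positivity
    linarith
  -- near 0 on the right g is negative, contradiction
  have hge : ∀ s : ℝ, 0 < s → s < 1 / 2 → 0 ≤ g (x3 + s • (y - x3)) := by
    intro s hs1 hs2
    have h2 : x3 + s • (y - x3) - y = (1 - s) • (x3 - y) := by module
    have h3 : ‖x3 + s • (y - x3) - y‖ = (1 - s) * ρ := by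
      rw [h2, norm_smul, hx3, Real.norm_of_nonneg (by linarith)]
    have hmem : x3 + s • (y - x3) ∈ Ann := by
      constructor
      · rw [h3]; nlinarith
      · rw [h3]; nlinarith
    exact hgm.trans (hxmmin hmem)
  have hslope := (hasDerivAt_iff_tendsto_slope.mp hderg2).mono_left
    (nhdsWithin_mono 0 (show Ioi (0 : ℝ) ⊆ {0}ᶜ from fun x hx => ne_of_gt hx))
  have hge2 : 0 ≤ fderiv ℝ w x3 (y - x3) - c * (2 * A * ρ ^ 2 * e0) := by
    apply ge_of_tendsto hslope
    have : Ioo (0 : ℝ) (1 / 2) ∈ 𝓝[>] (0 : ℝ) := Ioo_mem_nhdsGT (by norm_num)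
    filter_upwards [this] with s hs
    rw [slope_def_field]
    have h5 := hge s hs.1 hs.2
    have h6 : g (x3 + (0 : ℝ) • (y - x3)) = 0 := by simp [hgx3]
    rw [h6]
    apply div_nonneg
    · linarith
    · linarith [hs.1]
  linarith

/-- strong maximum principle on a half space -/
theorem strong_max_half {lam : ℝ} (hlam : 0 < lam) {w : E → ℝ} (hw : ContDiff ℝ 2 w)
    {e : E} (he : ‖e‖ = 1) {t : ℝ}
    (hnn : ∀ x : E, t < inner ℝ x e → 0 ≤ w x)
    (hlap : ∀ x : E, t < inner ℝ x e → Δ w x ≤ lam * w x)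
    {x1 : E} (hx1 : t < inner ℝ x1 e) (hx1z : w x1 = 0) :
    ∀ x : E, t < inner ℝ x e → w x = 0 := by
  by_contra hcon
  push Not at hcon
  obtain ⟨x2, hx2, hx2ne⟩ := hcon
  have hx2pos : 0 < w x2 := lt_of_le_of_ne (hnn x2 hx2) (Ne.symm hx2ne)
  have hinner : ∀ a b : E, |(inner ℝ a e : ℝ) - inner ℝ b e| ≤ ‖a - b‖ := by
    intro a b
    rw [← inner_sub_left]
    calc |(inner ℝ (a - b) e : ℝ)| ≤ ‖a - b‖ * ‖e‖ := abs_real_inner_le_norm _ _
      _ = ‖a - b‖ := by rw [he, mul_one]
  obtain ⟨d, hd0, hd1, hd2⟩ : ∃ d : ℝ, 0 < d ∧ t + d ≤ inner ℝ x1 e ∧ t + d ≤ inner ℝ x2 e := by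
    refine ⟨min (inner ℝ x1 e - t) (inner ℝ x2 e - t), ?_, ?_, ?_⟩
    · apply lt_min <;> linarith
    · linarith [min_le_left ((inner ℝ x1 e : ℝ) - t) (inner ℝ x2 e - t)]
    · linarith [min_le_right ((inner ℝ x1 e : ℝ) - t) (inner ℝ x2 e - t)]
  have hic : Continuous fun x : E => (inner ℝ x e : ℝ) := continuous_id.inner continuous_const
  set Z : Set E := {x | w x = 0 ∧ t + d / 2 ≤ inner ℝ x e} with hZ
  have hZc : IsClosed Z := by
    apply IsClosed.inter
    · exact isClosed_eq hw.continuous continuous_const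
    · exact isClosed_le continuous_const hic
  have hZne : Z.Nonempty := ⟨x1, hx1z, by linarith⟩
  have hx2Z : x2 ∉ Z := fun h => hx2ne h.1
  have hD0 : 0 < infDist x2 Z := (hZc.notMem_iff_infDist_pos hZne).mp hx2Z
  set γ : ℝ → E := fun τ => x2 + τ • (x1 - x2) with hγ
  have hγc : Continuous γ := by fun_prop
  have hDc : Continuous (fun τ => infDist (γ τ) Z) := (continuous_infDist_pt Z).comp hγc
  have hγ0 : γ 0 = x2 := by simp [hγ]
  have hγ1 : γ 1 = x1 := by simp [hγ]
  set ρ : ℝ := min (d / 2) (infDist x2 Z) / 2 with hρdef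
  have hρ0 : 0 < ρ := by
    have : 0 < min (d / 2) (infDist x2 Z) := lt_min (by linarith) hD0
    linarith
  have hρd : ρ < d / 2 := by
    have := min_le_left (d / 2) (infDist x2 Z)
    have h3 : 0 < min (d / 2) (infDist x2 Z) := lt_min (by linarith) hD0
    linarith
  have hρD : ρ ≤ infDist x2 Z := by
    have := min_le_right (d / 2) (infDist x2 Z)
    have h3 : 0 < min (d / 2) (infDist x2 Z) := lt_min (by linarith) hD0
    linarith
  have hx1D : infDist x1 Z = 0 := infDist_zero_of_mem ⟨hx1z, by linarith⟩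
  have hivt := intermediate_value_Icc' (zero_le_one) hDc.continuousOn
  obtain ⟨τ, hτ, hτD⟩ := hivt (show ρ ∈ Icc (infDist (γ 1) Z) (infDist (γ 0) Z) by
    rw [hγ0, hγ1, hx1D]
    exact ⟨hρ0.le, hρD⟩)
  simp only at hτD
  set y : E := γ τ with hy
  have hyin : t + d ≤ inner ℝ y e := by
    have h1 : (inner ℝ y e : ℝ) = (1 - τ) * inner ℝ x2 e + τ * inner ℝ x1 e := by
      simp only [hy, hγ, inner_add_left, real_inner_smul_left, inner_sub_left]
      ring
    rw [h1]
    nlinarith [hτ.1, hτ.2]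
  obtain ⟨x3, hx3Z, hx3d⟩ := hZc.exists_infDist_eq_dist hZne y
  have hx3ρ : ‖x3 - y‖ = ρ := by
    rw [← hτD, hx3d, dist_eq_norm, norm_sub_rev]
  have hball : ∀ x, ‖x - y‖ ≤ ρ → t + d / 2 < inner ℝ x e := by
    intro x hx
    have h1 := hinner x y
    have h2 := (abs_le.mp h1).1
    linarith
  have hder := boundary_point hlam hw hρ0 hx3ρ hx3Z.1
    (fun x hx => hnn x (by linarith [hball x hx]))
    (fun x hx => by
      have h1 := hball x hx.le
      have h2 := hnn x (by linarith)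
      rcases h2.lt_or_eq with h3 | h3
      · exact h3
      · exfalso
        have hxZ : x ∈ Z := ⟨h3.symm, h1.le⟩
        have h4 : infDist y Z ≤ dist y x := infDist_le_dist_of_mem hxZ
        rw [dist_eq_norm, norm_sub_rev] at h4
        linarith)
    (fun x hx => hlap x (by linarith [hball x hx]))
  have hlocmin : IsLocalMin w x3 := by
    have hopen : IsOpen {x : E | t < inner ℝ x e} :=
      isOpen_lt continuous_const hic
    have hmem : x3 ∈ {x : E | t < inner ℝ x e} := by
      have := hx3Z.2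
      show t < inner ℝ x3 e
      linarith
    filter_upwards [hopen.mem_nhds hmem] with x hx
    rw [hx3Z.1]
    exact hnn x hx
  rw [hlocmin.fderiv_eq_zero] at hder
  simp at hder

end Pool.Agent.H307
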