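import Mathlib
import Pool.Agent.H307.Smp

set_option autoImplicit false

/-!
# Reflections and the key inequality of the moving plane argument
-/

open Filter Topology Set InnerProductSpace Laplacian Metric

namespace Pool.Agent.H307

variable {E : Type*} [NormedAddCommGroup E] [InnerProductSpace ℝ E] [FiniteDimensional ℝ E]

/-- reflection through the hyperplane `⟨x, e⟩ = t` (for a unit vector `e`) -/
noncomputable def rf (e : E) (t : ℝ) (x : E) : E := x - (2 * (inner ℝ x e - t)) • e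

/-- linear part -/
noncomputable def rl (e : E) : E ≃ₗᵢ[ℝ] E := Submodule.reflection (ℝ ∙ e)ᗮ

omit [FiniteDimensional ℝ E] in
theorem rl_apply {e : E} (he : ‖e‖ = 1) (x : E) : rl e x = x - (2 * inner ℝ x e) • e := by
  unfold rl
  rw [Submodule.reflection_orthogonal_apply, Submodule.reflection_singleton_apply, he]
  simp only [RCLike.ofReal_real_eq_id, id_eq, one_pow, div_one, real_inner_comm]
  module

omit [FiniteDimensional ℝ E] in
theorem rf_eq {e : E} (he : ‖e‖ = 1) (t : ℝ) (x : E) : rf e t x = rl e x + (2 * t) • e := by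
  rw [rl_apply he]
  unfold rf
  module

omit [FiniteDimensional ℝ E] in
theorem rf_line {e : E} (he : ‖e‖ = 1) (t : ℝ) (x v : E) (s : ℝ) :
    rf e t (x + s • v) = rf e t x + s • rl e v := by
  rw [rf_eq he, rf_eq he, map_add, map_smul]
  abel

omit [FiniteDimensional ℝ E] in
theorem inner_rf {e : E} (he : ‖e‖ = 1) (t : ℝ) (x : E) :
    (inner ℝ (rf e t x) e : ℝ) = 2 * t - inner ℝ x e := by
  unfold rf
  rw [inner_sub_left, real_inner_smul_left, real_inner_self_eq_norm_sq, he]
  ring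

omit [FiniteDimensional ℝ E] in
theorem rf_rf {e : E} (he : ‖e‖ = 1) (t : ℝ) (x : E) : rf e t (rf e t x) = x := by
  have h := inner_rf he t x
  have h1 : rf e t (rf e t x) = rf e t x - (2 * (inner ℝ (rf e t x) e - t)) • e := rfl
  rw [h1, h]
  unfold rf
  module

omit [FiniteDimensional ℝ E] in
theorem rf_of_eq {e : E} {t : ℝ} {x : E} (h : (inner ℝ x e : ℝ) = t) : rf e t x = x := by
  unfold rf
  rw [h]
  simp

omit [FiniteDimensional ℝ E] in
theorem contDiff_rf (e : E) (t : ℝ) {n : WithTop ℕ∞} : ContDiff ℝ n (rf e t) := by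
  unfold rf
  apply contDiff_id.sub
  apply ContDiff.smul _ contDiff_const
  apply contDiff_const.mul
  exact (contDiff_id.inner ℝ contDiff_const).sub contDiff_const

omit [FiniteDimensional ℝ E] in
theorem norm_rf_ge {e : E} (he : ‖e‖ = 1) (t : ℝ) (x : E) : ‖x‖ - 2 * |t| ≤ ‖rf e t x‖ := by
  rw [rf_eq he]
  have h1 : ‖rl e x‖ = ‖x‖ := (rl e).norm_map x
  have h2 : ‖(2 * t) • e‖ = 2 * |t| := by
    rw [norm_smul, he, mul_one, Real.norm_eq_abs, abs_mul]
    norm_num
  have h3 := norm_sub_le (rl e x + (2 * t) • e) ((2 * t) • e)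
  rw [add_sub_cancel_right, h1, h2] at h3
  linarith

theorem lap_rf {e : E} (he : ‖e‖ = 1) (t : ℝ) {f : E → ℝ} (hf : ContDiff ℝ 2 f) (x : E) :
    Δ (fun y => f (rf e t y)) x = Δ f (rf e t x) := by
  have hC : ContDiff ℝ 2 (fun y => f (rf e t y)) := hf.comp (contDiff_rf e t)
  set b := stdOrthonormalBasis ℝ E with hb
  rw [lap_eq (b.map (rl e)) f (rf e t x)]
  rw [lap_eq_sum b hC x
    (g1 := fun i s => fderiv ℝ f (rf e t x + s • rl e (b i)) (rl e (b i)))
    (g2 := fun i => fderiv ℝ (fderiv ℝ f) (rf e t x) (rl e (b i)) (rl e (b i)))]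
  · apply Finset.sum_congr rfl
    intro i _
    rw [OrthonormalBasis.map_apply]
  · intro i s
    have h1 : (fun s : ℝ => f (rf e t (x + s • b i)))
        = fun s : ℝ => f (rf e t x + s • rl e (b i)) := by
      funext s
      rw [rf_line he]
    rw [h1]
    exact hasDerivAt_line hf _ _ s
  · intro i
    have := hasDerivAt_line2 hf (rf e t x) (rl e (b i)) (rl e (b i)) 0
    simpa using this

/-- algebraic inequality for the nonlinearity at a negative minimum -/
theorem alg_ineq {mu be a a' b b' : ℝ} (hmu : 0 ≤ mu) (hbe : 0 ≤ be) (ha : 0 < a) (ha' : 0 < a')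
    (hb : 0 < b) (hb' : 0 < b') (hw : a' < a) (hz : a' - a ≤ b' - b) :
    (a' - a) * (3 * mu * a ^ 2 + be * b ^ 2 + 2 * be * a * b)
      ≤ (mu * a' ^ 3 + be * a' * b' ^ 2) - (mu * a ^ 3 + be * a * b ^ 2) := by
  have h1 : (a' - a) * (3 * a ^ 2) ≤ a' ^ 3 - a ^ 3 := by
    have e1 : a' ^ 3 - a ^ 3 = (a' - a) * (a' ^ 2 + a' * a + a ^ 2) := by ring
    rw [e1]
    apply mul_le_mul_of_nonpos_left _ (by linarith)
    nlinarith
  have h2 : (a' - a) * (b ^ 2 + 2 * a * b) ≤ a' * b' ^ 2 - a * b ^ 2 := by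
    rcases le_or_gt b b' with h | h
    · have h3 : a' * b ^ 2 ≤ a' * b' ^ 2 := by
        apply mul_le_mul_of_nonneg_left _ ha'.le
        nlinarith
      have h4 : (a' - a) * (2 * a * b) ≤ 0 := by
        apply mul_nonpos_of_nonpos_of_nonneg (by linarith) (by positivity)
      nlinarith
    · have e2 : a' * b' ^ 2 - a * b ^ 2 = (a' - a) * b ^ 2 + (b' - b) * (a' * (b' + b)) := by ring
      rw [e2]
      have h3 : (b' - b) * (a * (2 * b)) ≤ (b' - b) * (a' * (b' + b)) := by
        apply mul_le_mul_of_nonpos_left _ (by linarith)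
        apply mul_le_mul hw.le (by linarith) (by positivity) ha.le
      have h4 : (a' - a) * (a * (2 * b)) ≤ (b' - b) * (a * (2 * b)) :=
        mul_le_mul_of_nonneg_right hz (by positivity)
      nlinarith
  have h3 := mul_le_mul_of_nonneg_left h1 hmu
  have h4 := mul_le_mul_of_nonneg_left h2 hbe
  nlinarith

/-- key estimate at a negative minimum of the quotient -/
theorem key_min {lam mu be C0 M : ℝ} (hlam : 0 < lam) (hmu : 0 ≤ mu) (hbe : 0 ≤ be)
    {u v : E → ℝ} (cu : ContDiff ℝ 2 u) (pu : ∀ x, 0 < u x) (pv : ∀ x, 0 < v x)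
    (eu : ∀ x, Δ u x = lam * u x - (mu * u x ^ 3 + be * u x * v x ^ 2))
    (hC0 : ∀ x, 3 * mu * u x ^ 2 + be * v x ^ 2 + 2 * be * u x * v x ≤ C0)
    (hM : 0 < M) (hM2 : 2 * C0 ≤ M ^ 2 * Real.exp (-1))
    {e : E} (he : ‖e‖ = 1) {t m : ℝ} (hm : m < 0) {x0 : E} (hx0 : t < inner ℝ x0 e)
    (hmin : ∀ x : E, t < inner ℝ x e →
      m * (2 - Real.exp (-(M * (inner ℝ x e - t)))) ≤ u (rf e t x) - u x)
    (heq : u (rf e t x0) - u x0 = m * (2 - Real.exp (-(M * (inner ℝ x0 e - t)))))
    (hle : u (rf e t x0) - u x0 ≤ v (rf e t x0) - v x0) :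
    lam < 3 * mu * u x0 ^ 2 + be * v x0 ^ 2 + 2 * be * u x0 * v x0 ∧
      t + 1 / M ≤ inner ℝ x0 e := by
  set s0 : ℝ := inner ℝ x0 e - t with hs0
  have hs0pos : 0 < s0 := by rw [hs0]; linarith
  set Ex : ℝ := Real.exp (-(M * s0)) with hEx
  have hExpos : 0 < Ex := Real.exp_pos _
  have hExlt : Ex < 1 := by
    rw [hEx, ← Real.exp_zero]
    apply Real.exp_lt_exp.mpr
    have : 0 < M * s0 := by positivity
    linarith
  -- the comparison function
  set h : ℝ → ℝ := fun s => 2 - Real.exp (-(M * (s - t))) with hh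
  have hhC : ContDiff ℝ 2 h := by
    apply contDiff_const.sub
    apply Real.contDiff_exp.comp
    fun_prop
  have hd1 : ∀ s, HasDerivAt h (M * Real.exp (-(M * (s - t)))) s := by
    intro s
    have h1 := (((((hasDerivAt_id s).sub_const t).const_mul M).neg).exp).const_sub 2
    refine h1.congr_deriv ?_
    simp only [id_eq, Pi.neg_apply]
    ring
  have hd2 : ∀ s, HasDerivAt (fun s => M * Real.exp (-(M * (s - t))))
      (-(M ^ 2 * Real.exp (-(M * (s - t))))) s := by
    intro s
    have h1 := (((((hasDerivAt_id s).sub_const t).const_mul M).neg).exp).const_mul M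
    refine h1.congr_deriv ?_
    simp only [id_eq, Pi.neg_apply]
    ring
  have hlapH : Δ (fun y : E => h (inner ℝ y e)) x0 = -(M ^ 2 * Ex) :=
    lap_coord he hhC hd1 hd2 x0
  have hHC : ContDiff ℝ 2 (fun y : E => h (inner ℝ y e)) :=
    hhC.comp (contDiff_id.inner ℝ contDiff_const)
  have hurC : ContDiff ℝ 2 (fun y : E => u (rf e t y)) := cu.comp (contDiff_rf e t)
  have hwC : ContDiff ℝ 2 (fun y : E => u (rf e t y) - u y) := hurC.sub cu
  set φ : E → ℝ := fun y => (u (rf e t y) - u y) - m * h (inner ℝ y e) with hφ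
  have hφC : ContDiff ℝ 2 φ := hwC.sub (contDiff_const.mul hHC)
  have hφmin : IsLocalMin φ x0 := by
    have hopen : IsOpen {x : E | t < inner ℝ x e} :=
      isOpen_lt continuous_const (continuous_id.inner continuous_const)
    have hφ0 : φ x0 = 0 := by
      simp only [hφ, hh]
      rw [heq]
      ring
    filter_upwards [hopen.mem_nhds hx0] with x hx
    rw [hφ0]
    have := hmin x hx
    simp only [hφ, hh]
    linarith
  have hlapφ : 0 ≤ Δ φ x0 := lap_nonneg_of_localMin hφC hφmin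
  have e1 : Δ φ x0 = Δ (fun y : E => u (rf e t y) - u y) x0
      - m * Δ (fun y : E => h (inner ℝ y e)) x0 := by
    have e2 := lap_sub hwC (contDiff_const.mul hHC : ContDiff ℝ 2
      (fun y : E => m * h (inner ℝ y e))) x0
    have e3 := lap_const_mul hHC m x0
    rw [e3] at e2
    exact e2
  have e2 : Δ (fun y : E => u (rf e t y) - u y) x0 = Δ u (rf e t x0) - Δ u x0 := by
    rw [lap_sub hurC cu, lap_rf he t cu]
  rw [e1, e2, hlapH, eu, eu] at hlapφ
  set a := u x0 with ha
  set a' := u (rf e t x0) with ha'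
  set b := v x0 with hb
  set b' := v (rf e t x0) with hb'
  have hhpos : 0 < 2 - Ex := by linarith
  have hwneg : a' - a < 0 := by
    rw [heq]
    exact mul_neg_of_neg_of_pos hm hhpos
  have halg := alg_ineq (mu := mu) (be := be) hmu hbe (pu x0) (pu (rf e t x0)) (pv x0)
    (pv (rf e t x0)) (by linarith) hle
  have hC0x := hC0 x0
  set C : ℝ := 3 * mu * a ^ 2 + be * b ^ 2 + 2 * be * a * b with hC
  have hmain : m * (-(M ^ 2 * Ex)) ≤ m * ((2 - Ex) * (lam - C)) := by
    have h5 : (a' - a) * (lam - C) = m * ((2 - Ex) * (lam - C)) := by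
      rw [heq]; ring
    rw [← h5]
    nlinarith
  have hmain2 : (2 - Ex) * (lam - C) ≤ -(M ^ 2 * Ex) := by
    by_contra hcon
    push Not at hcon
    have := mul_lt_mul_of_neg_left hcon hm
    linarith
  have hMEx : 0 < M ^ 2 * Ex := by positivity
  have hlC : lam < C := by
    by_contra hcon
    push Not at hcon
    have : 0 ≤ (2 - Ex) * (lam - C) := mul_nonneg hhpos.le (by linarith)
    linarith
  refine ⟨hlC, ?_⟩
  by_contra hcon
  push Not at hcon
  have hs1 : M * s0 < 1 := by
    have : s0 < 1 / M := by rw [hs0]; linarith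
    rw [lt_div_iff₀ hM] at this
    linarith
  have hEx1 : Real.exp (-1) < Ex := by
    rw [hEx]
    apply Real.exp_lt_exp.mpr
    linarith
  have h6 : M ^ 2 * Real.exp (-1) < M ^ 2 * Ex := mul_lt_mul_of_pos_left hEx1 (by positivity)
  have h7 : M ^ 2 * Ex ≤ (2 - Ex) * (C - lam) := by nlinarith
  have h8 : (2 - Ex) * (C - lam) ≤ 2 * (C - lam) := by
    apply mul_le_mul_of_nonneg_right _ (by linarith)
    linarith
  linarith

end Pool.Agent.H307
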