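import Mathlib
import Pool.Agent.H307.Refl

set_option autoImplicit false

/-!
# Moving planes for the cubic system
-/

open Filter Topology Set InnerProductSpace Laplacian Metric

namespace Pool.Agent.H307

variable {E : Type*} [NormedAddCommGroup E] [InnerProductSpace ℝ E] [FiniteDimensional ℝ E]

/-- classical positive decaying solution of the cubic system (internal form) -/
structure Sol (lam mu1 mu2 be : ℝ) (u v : E → ℝ) : Prop where
  cu : ContDiff ℝ 2 u
  cv : ContDiff ℝ 2 v
  pu : ∀ x, 0 < u x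
  pv : ∀ x, 0 < v x
  lu : Tendsto u (cocompact E) (𝓝 0)
  lv : Tendsto v (cocompact E) (𝓝 0)
  eu : ∀ x, Δ u x = lam * u x - (mu1 * u x ^ 3 + be * u x * v x ^ 2)
  ev : ∀ x, Δ v x = lam * v x - (mu2 * v x ^ 3 + be * v x * u x ^ 2)

theorem Sol.swap {lam mu1 mu2 be : ℝ} {u v : E → ℝ} (h : Sol lam mu1 mu2 be u v) :
    Sol lam mu2 mu1 be v u :=
  ⟨h.cv, h.cu, h.pv, h.pu, h.lv, h.lu, h.ev, h.eu⟩

omit [InnerProductSpace ℝ E] [FiniteDimensional ℝ E] in
theorem ev_cocompact {P : E → Prop} (h : ∀ᶠ x in cocompact E, P x) :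
    ∃ R : ℝ, 0 < R ∧ ∀ x, R ≤ ‖x‖ → P x := by
  obtain ⟨K, hK, hKP⟩ := mem_cocompact'.mp h
  obtain ⟨R, hR⟩ := hK.isBounded.subset_closedBall (0 : E)
  refine ⟨max R 0 + 1, by positivity, fun x hx => ?_⟩
  by_contra hcon
  have h1 : x ∈ K := hKP hcon
  have h2 := hR h1
  rw [mem_closedBall_zero_iff] at h2
  have := le_max_left R 0
  linarith

omit [InnerProductSpace ℝ E] [FiniteDimensional ℝ E] in
theorem bdd_of_cocompact [ProperSpace E] {u : E → ℝ} (hc : Continuous u)
    (hl : Tendsto u (cocompact E) (𝓝 0)) : ∃ B : ℝ, 0 < B ∧ ∀ x, u x ≤ B := by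
  obtain ⟨R, hR, hR2⟩ := ev_cocompact (hl.eventually (gt_mem_nhds (show (0 : ℝ) < 1 by norm_num)))
  obtain ⟨C, hC⟩ := (isCompact_closedBall (0 : E) R).exists_bound_of_continuousOn hc.continuousOn
  refine ⟨max C 1, by positivity, fun x => ?_⟩
  rcases le_or_gt R ‖x‖ with h | h
  · exact (hR2 x h).le.trans (le_max_right _ _)
  · have h1 := hC x (by rw [mem_closedBall_zero_iff]; exact h.le)
    exact ((le_abs_self _).trans h1).trans (le_max_left _ _)

/-- constants for the moving plane argument -/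
structure Consts (lam mu1 mu2 be C0 M R0 : ℝ) (u v : E → ℝ) : Prop where
  M0 : 0 < M
  hM : 2 * C0 ≤ M ^ 2 * Real.exp (-1)
  c1 : ∀ x, 3 * mu1 * u x ^ 2 + be * v x ^ 2 + 2 * be * u x * v x ≤ C0
  c2 : ∀ x, 3 * mu2 * v x ^ 2 + be * u x ^ 2 + 2 * be * v x * u x ≤ C0
  r1 : ∀ x, lam < 3 * mu1 * u x ^ 2 + be * v x ^ 2 + 2 * be * u x * v x → ‖x‖ < R0
  r2 : ∀ x, lam < 3 * mu2 * v x ^ 2 + be * u x ^ 2 + 2 * be * v x * u x → ‖x‖ < R0

omit [InnerProductSpace ℝ E] [FiniteDimensional ℝ E] in
theorem Consts.swap {lam mu1 mu2 be C0 M R0 : ℝ} {u v : E → ℝ}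
    (h : Consts lam mu1 mu2 be C0 M R0 u v) : Consts lam mu2 mu1 be C0 M R0 v u :=
  ⟨h.M0, h.hM, h.c2, h.c1, h.r2, h.r1⟩

theorem Sol.consts {lam mu1 mu2 be : ℝ} (hlam : 0 < lam) {u v : E → ℝ}
    (h : Sol lam mu1 mu2 be u v) : ∃ C0 M R0 : ℝ, Consts lam mu1 mu2 be C0 M R0 u v := by
  have key : ∀ (mu : ℝ) (u v : E → ℝ), Continuous u → Continuous v →
      Tendsto u (cocompact E) (𝓝 0) → Tendsto v (cocompact E) (𝓝 0) →
      ∃ C R : ℝ, 0 < C ∧ (∀ x, 3 * mu * u x ^ 2 + be * v x ^ 2 + 2 * be * u x * v x ≤ C) ∧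
        (∀ x, lam < 3 * mu * u x ^ 2 + be * v x ^ 2 + 2 * be * u x * v x → ‖x‖ < R) := by
    intro mu u v hu hv lu lv
    have hlim : Tendsto (fun x => 3 * mu * u x ^ 2 + be * v x ^ 2 + 2 * be * u x * v x)
        (cocompact E) (𝓝 0) := by
      have h1 := (((lu.pow 2).const_mul (3 * mu)).add ((lv.pow 2).const_mul be)).add
        ((lu.const_mul (2 * be)).mul lv)
      have e : 3 * mu * 0 ^ 2 + be * 0 ^ 2 + 2 * be * 0 * 0 = (0 : ℝ) := by ring
      rw [e] at h1
      exact h1
    have hcont : Continuous (fun x => 3 * mu * u x ^ 2 + be * v x ^ 2 + 2 * be * u x * v x) := by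
      fun_prop
    obtain ⟨C, hC, hC2⟩ := bdd_of_cocompact hcont hlim
    obtain ⟨R, hR, hR2⟩ := ev_cocompact (hlim.eventually (gt_mem_nhds hlam))
    refine ⟨C, R, hC, hC2, fun x hx => ?_⟩
    by_contra hcon
    push Not at hcon
    exact absurd (hR2 x hcon) (not_lt.mpr hx.le)
  obtain ⟨C1, R1, hC1, a1, b1⟩ := key mu1 u v h.cu.continuous h.cv.continuous h.lu h.lv
  obtain ⟨C2, R2, hC2, a2, b2⟩ := key mu2 v u h.cv.continuous h.cu.continuous h.lv h.lu
  refine ⟨max C1 C2, 2 * (max C1 C2 + 1) * Real.exp 1, max R1 R2, ?_⟩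
  have hmax : 0 < max C1 C2 := lt_max_of_lt_left hC1
  refine ⟨by positivity, ?_, fun x => (a1 x).trans (le_max_left _ _),
    fun x => (a2 x).trans (le_max_right _ _), fun x hx => lt_max_of_lt_left (b1 x hx),
    fun x hx => lt_max_of_lt_right (b2 x hx)⟩
  have e1 : (2 * (max C1 C2 + 1) * Real.exp 1) ^ 2 * Real.exp (-1)
      = 4 * (max C1 C2 + 1) ^ 2 * Real.exp 1 := by
    have : Real.exp 1 * Real.exp (-1) = 1 := by rw [← Real.exp_add]; simp
    calc (2 * (max C1 C2 + 1) * Real.exp 1) ^ 2 * Real.exp (-1)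
        = 4 * (max C1 C2 + 1) ^ 2 * Real.exp 1 * (Real.exp 1 * Real.exp (-1)) := by ring
      _ = _ := by rw [this]; ring
  rw [e1]
  have h2 : (1 : ℝ) ≤ Real.exp 1 := Real.one_le_exp (by norm_num)
  have h3 : 2 * max C1 C2 ≤ 4 * (max C1 C2 + 1) ^ 2 := by nlinarith
  have h4 : 4 * (max C1 C2 + 1) ^ 2 * 1 ≤ 4 * (max C1 C2 + 1) ^ 2 * Real.exp 1 := by
    apply mul_le_mul_of_nonneg_left h2 (by positivity)
  linarith

/-- the difference function -/
noncomputable def wf (u : E → ℝ) (e : E) (t : ℝ) (x : E) : ℝ := u (rf e t x) - u x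

omit [FiniteDimensional ℝ E] in
theorem contDiff_wf {u : E → ℝ} (hu : ContDiff ℝ 2 u) (e : E) (t : ℝ) :
    ContDiff ℝ 2 (wf u e t) := (hu.comp (contDiff_rf e t)).sub hu

omit [FiniteDimensional ℝ E] in
theorem continuous_wf2 {u : E → ℝ} (hu : Continuous u) (e : E) :
    Continuous (fun z : ℝ × E => wf u e z.1 z.2) := by
  unfold wf rf
  have h1 : Continuous (fun z : ℝ × E => (inner ℝ z.2 e : ℝ)) :=
    continuous_snd.inner continuous_const
  have h2 : Continuous (fun z : ℝ × E => z.2 - (2 * (inner ℝ z.2 e - z.1)) • e) := by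
    fun_prop
  exact (hu.comp h2).sub (hu.comp continuous_snd)

omit [FiniteDimensional ℝ E] in
theorem wf_small {u : E → ℝ} {e : E} (t : ℝ) (pu : ∀ x, 0 < u x)
    (hl : Tendsto u (cocompact E) (𝓝 0)) {ε : ℝ} (hε : 0 < ε) :
    ∃ R : ℝ, 0 < R ∧ ∀ x, R ≤ ‖x‖ → -ε < wf u e t x := by
  obtain ⟨R, hR, hR2⟩ := ev_cocompact (hl.eventually (gt_mem_nhds hε))
  refine ⟨R, by positivity, fun x hx => ?_⟩
  have h1 := pu (rf e t x)
  have h2 := hR2 x hx
  unfold wf
  linarith

/-- a negative value produces a negative value in a fixed compact region -/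
theorem neg_point {lam mu1 mu2 be C0 M R0 : ℝ} (hlam : 0 < lam) (hmu1 : 0 ≤ mu1) (hmu2 : 0 ≤ mu2)
    (hbe : 0 ≤ be) {u v : E → ℝ} (h : Sol lam mu1 mu2 be u v)
    (hc : Consts lam mu1 mu2 be C0 M R0 u v) {e : E} (he : ‖e‖ = 1) {t : ℝ}
    {xb : E} (hxb : t ≤ inner ℝ xb e) (hxb2 : min (wf u e t xb) (wf v e t xb) < 0) :
    ∃ x0 : E, t + 1 / M ≤ inner ℝ x0 e ∧ ‖x0‖ < R0 ∧
      min (wf u e t x0) (wf v e t x0) < 0 := by
  set S : Set E := {x | t ≤ inner ℝ x e} with hS
  have hic : Continuous fun x : E => (inner ℝ x e : ℝ) := continuous_id.inner continuous_const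
  have hSc : IsClosed S := isClosed_le continuous_const hic
  set H : E → ℝ := fun x => 2 - Real.exp (-(M * (inner ℝ x e - t))) with hH
  have hH1 : ∀ x ∈ S, 1 ≤ H x := by
    intro x hx
    have h1 : Real.exp (-(M * (inner ℝ x e - t))) ≤ 1 := by
      rw [← Real.exp_zero]
      apply Real.exp_le_exp.mpr
      have h2 : (0 : ℝ) ≤ inner ℝ x e - t := by
        have : t ≤ inner ℝ x e := hx
        linarith
      have := hc.M0
      have : 0 ≤ M * (inner ℝ x e - t) := by positivity
      linarith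
    simp only [hH]
    linarith
  have hHc : Continuous H := by
    simp only [hH]
    apply continuous_const.sub
    apply Real.continuous_exp.comp
    fun_prop
  set F : E → ℝ := fun x => min (wf u e t x) (wf v e t x) / H x with hF
  have hmc : Continuous fun x => min (wf u e t x) (wf v e t x) :=
    (contDiff_wf h.cu e t).continuous.min (contDiff_wf h.cv e t).continuous
  have hFc : ContinuousOn F S := by
    apply hmc.continuousOn.div hHc.continuousOn
    intro x hx
    have := hH1 x hx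
    linarith
  have hFxb : F xb < 0 := div_neg_of_neg_of_pos hxb2 (by linarith [hH1 xb hxb])
  have hev : ∀ᶠ x in cocompact E ⊓ 𝓟 S, F xb ≤ F x := by
    obtain ⟨Ru, hRu, hRu2⟩ := wf_small t h.pu h.lu (ε := - F xb) (by linarith)
    obtain ⟨Rv, hRv, hRv2⟩ := wf_small t h.pv h.lv (ε := - F xb) (by linarith)
    have h1 : ∀ᶠ x in cocompact E, max Ru Rv ≤ ‖x‖ := by
      have := (tendsto_norm_cocompact_atTop (E := E)).eventually (eventually_ge_atTop (max Ru Rv))
      exact this
    rw [eventually_inf_principal]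
    filter_upwards [h1] with x hx hxS
    have h2 := hRu2 x ((le_max_left _ _).trans hx)
    have h3 := hRv2 x ((le_max_right _ _).trans hx)
    have h4 : F xb < min (wf u e t x) (wf v e t x) := lt_min (by linarith) (by linarith)
    have h5 := hH1 x hxS
    simp only [hF]
    rw [le_div_iff₀ (by linarith)]
    have h6 : F xb * H x ≤ F xb := by nlinarith
    exact h6.trans h4.le
  obtain ⟨x0, hx0S, hx0min⟩ := hFc.exists_isMinOn' hSc hxb hev
  have hFx0 : F x0 < 0 := lt_of_le_of_lt (hx0min hxb) hFxb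
  have hHx0 : 0 < H x0 := by linarith [hH1 x0 hx0S]
  have hminx0 : min (wf u e t x0) (wf v e t x0) < 0 := by
    simp only [hF] at hFx0
    by_contra hcon
    push Not at hcon
    have := div_nonneg hcon hHx0.le
    linarith
  have hx0lt : t < inner ℝ x0 e := by
    rcases (show t ≤ inner ℝ x0 e from hx0S).lt_or_eq with h1 | h1
    · exact h1
    · exfalso
      have h2 : rf e t x0 = x0 := rf_of_eq h1.symm
      simp only [wf, h2, sub_self, min_self, lt_irrefl] at hminx0
  set m : ℝ := F x0 with hm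
  have heq : min (wf u e t x0) (wf v e t x0) = m * H x0 := by
    simp only [hm, hF]
    field_simp
  have hge : ∀ x : E, t < inner ℝ x e → m * H x ≤ min (wf u e t x) (wf v e t x) := by
    intro x hx
    have h1 := hx0min (show x ∈ S from hx.le)
    have h2 := hH1 x hx.le
    have h3 : m ≤ min (wf u e t x) (wf v e t x) / H x := h1
    rw [le_div_iff₀ (by linarith)] at h3
    exact h3
  rcases le_total (wf u e t x0) (wf v e t x0) with hle | hle
  · rw [min_eq_left hle] at heq
    obtain ⟨k1, k2⟩ := key_min hlam hmu1 hbe h.cu h.pu h.pv h.eu hc.c1 hc.M0 hc.hM he hFx0 hx0lt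
      (fun x hx => (hge x hx).trans (min_le_left _ _)) heq hle
    exact ⟨x0, k2, hc.r1 x0 k1, hminx0⟩
  · rw [min_eq_right hle] at heq
    obtain ⟨k1, k2⟩ := key_min hlam hmu2 hbe h.cv h.pv h.pu h.ev hc.c2 hc.M0 hc.hM he hFx0 hx0lt
      (fun x hx => (hge x hx).trans (min_le_right _ _)) heq hle
    exact ⟨x0, k2, hc.r2 x0 k1, hminx0⟩

/-- differential inequality for the difference -/
theorem lap_wf_le {lam mu be : ℝ} (hmu : 0 ≤ mu) (hbe : 0 ≤ be)
    {u v : E → ℝ} (cu : ContDiff ℝ 2 u) (pu : ∀ x, 0 < u x) (pv : ∀ x, 0 < v x)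
    (eu : ∀ x, Δ u x = lam * u x - (mu * u x ^ 3 + be * u x * v x ^ 2))
    {e : E} (he : ‖e‖ = 1) {t : ℝ} {x : E} (h1 : 0 ≤ wf u e t x) (h2 : 0 ≤ wf v e t x) :
    Δ (wf u e t) x ≤ lam * wf u e t x := by
  have hurC : ContDiff ℝ 2 (fun y : E => u (rf e t y)) := cu.comp (contDiff_rf e t)
  have e2 : Δ (wf u e t) x = Δ u (rf e t x) - Δ u x := by
    have : wf u e t = fun y => u (rf e t y) - u y := rfl
    rw [this, lap_sub hurC cu, lap_rf he t cu]
  rw [e2, eu, eu]
  unfold wf at *
  set a := u x with ha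
  set a' := u (rf e t x) with ha'
  set b := v x with hb
  set b' := v (rf e t x) with hb'
  have pa : 0 < a := pu x
  have pb : 0 < b := pv x
  have h3 : a ^ 3 ≤ a' ^ 3 := pow_le_pow_left₀ pa.le (by linarith) 3
  have h4 : a * b ^ 2 ≤ a' * b' ^ 2 := by
    apply mul_le_mul (by linarith) (pow_le_pow_left₀ pb.le (by linarith) 2) (by positivity)
    linarith
  have h5 := mul_le_mul_of_nonneg_left h3 hmu
  have h6 := mul_le_mul_of_nonneg_left h4 hbe
  nlinarith

/-- **Moving planes**: symmetry about some hyperplane orthogonal to a given direction. -/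
theorem moving_plane {lam mu1 mu2 be : ℝ} (hlam : 0 < lam) (hmu1 : 0 ≤ mu1) (hmu2 : 0 ≤ mu2)
    (hbe : 0 < be) {u v : E → ℝ} (h : Sol lam mu1 mu2 be u v) {e : E} (he : ‖e‖ = 1) :
    ∃ t : ℝ, ∀ x, u (rf e t x) = u x ∧ v (rf e t x) = v x := by
  obtain ⟨C0, M, R0, hc⟩ := h.consts hlam
  set P : ℝ → Prop := fun t => ∀ x : E, t ≤ inner ℝ x e → 0 ≤ min (wf u e t x) (wf v e t x)
    with hP
  have hM0 := hc.M0
  have hδ : 0 < 1 / M := by positivity
  have hnorm : ∀ x : E, (inner ℝ x e : ℝ) ≤ ‖x‖ := by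
    intro x
    calc (inner ℝ x e : ℝ) ≤ ‖x‖ * ‖e‖ := real_inner_le_norm _ _
      _ = ‖x‖ := by rw [he, mul_one]
  -- failure of P gives a point in the compact region
  have hfail : ∀ t, ¬ P t → ∃ x0 : E, t + 1 / M ≤ inner ℝ x0 e ∧ ‖x0‖ < R0 ∧
      min (wf u e t x0) (wf v e t x0) < 0 := by
    intro t ht
    simp only [hP] at ht
    push Not at ht
    obtain ⟨xb, hxb, hxb2⟩ := ht
    exact neg_point hlam hmu1 hmu2 hbe.le h hc he hxb hxb2
  have hlarge : ∀ t, R0 ≤ t → P t := by
    intro t ht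
    by_contra hcon
    obtain ⟨x0, h1, h2, -⟩ := hfail t hcon
    have := hnorm x0
    linarith
  set T : Set ℝ := {t | ∀ t', t ≤ t' → P t'} with hT
  have hTne : T.Nonempty := ⟨R0, fun t' ht' => hlarge t' ht'⟩
  -- bounded below
  have hTbdd : BddBelow T := by
    obtain ⟨R, hR, hR2⟩ := ev_cocompact (h.lu.eventually (gt_mem_nhds (h.pu 0)))
    refine ⟨-R, fun t ht => ?_⟩
    by_contra hcon
    push Not at hcon
    have h1 := ht (-R) hcon.le 0 (by simp; linarith)
    have h2 : 0 ≤ wf u e (-R) 0 := le_trans h1 (min_le_left _ _)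
    unfold wf at h2
    have h3 : u (rf e (-R) 0) < u 0 := by
      apply hR2
      unfold rf
      have : (0 : E) - (2 * (inner ℝ (0 : E) e - -R)) • e = -((2 * R) • e) := by
        rw [inner_zero_left]
        module
      rw [this, norm_neg, norm_smul, he, mul_one, Real.norm_of_nonneg (by positivity)]
      linarith
    linarith
  set t0 : ℝ := sInf T with ht0
  have hPgt : ∀ t, t0 < t → P t := by
    intro t ht
    obtain ⟨s, hsT, hst⟩ := exists_lt_of_csInf_lt hTne ht
    exact hsT t hst.le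
  have hwc : ∀ (f : E → ℝ), Continuous f → ∀ x : E, Continuous (fun t => wf f e t x) := by
    intro f hf x
    exact (continuous_wf2 hf e).comp (Continuous.prodMk_left x)
  have hopen0 : ∀ x : E, t0 < inner ℝ x e → 0 ≤ wf u e t0 x ∧ 0 ≤ wf v e t0 x := by
    intro x hx
    have hev : ∀ᶠ t in 𝓝[>] t0, 0 ≤ wf u e t x ∧ 0 ≤ wf v e t x := by
      filter_upwards [Ioo_mem_nhdsGT hx] with t ht
      have := hPgt t ht.1 x ht.2.le
      exact ⟨le_trans this (min_le_left _ _), le_trans this (min_le_right _ _)⟩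
    constructor
    · have h1 := ((hwc u h.cu.continuous x).tendsto t0).mono_left
        (nhdsWithin_le_nhds (s := Ioi t0))
      exact ge_of_tendsto h1 (hev.mono fun t ht => ht.1)
    · have h1 := ((hwc v h.cv.continuous x).tendsto t0).mono_left
        (nhdsWithin_le_nhds (s := Ioi t0))
      exact ge_of_tendsto h1 (hev.mono fun t ht => ht.2)
  have hPt0 : P t0 := by
    intro x hx
    rcases hx.lt_or_eq with h1 | h1
    · obtain ⟨h2, h3⟩ := hopen0 x h1
      exact le_min h2 h3
    · have h2 : rf e t0 x = x := rf_of_eq h1.symm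
      simp [wf, h2]
  -- the claim: the differences vanish
  have hclaim : ∀ x : E, t0 < inner ℝ x e → wf u e t0 x = 0 ∧ wf v e t0 x = 0 := by
    by_contra hcon
    -- differential inequalities
    have hlu : ∀ x : E, t0 < inner ℝ x e → Δ (wf u e t0) x ≤ lam * wf u e t0 x := fun x hx =>
      lap_wf_le hmu1 hbe.le h.cu h.pu h.pv h.eu he (hopen0 x hx).1 (hopen0 x hx).2
    have hlv : ∀ x : E, t0 < inner ℝ x e → Δ (wf v e t0) x ≤ lam * wf v e t0 x := fun x hx =>
      lap_wf_le hmu2 hbe.le h.cv h.pv h.pu h.ev he (hopen0 x hx).2 (hopen0 x hx).1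
    -- vanishing of one difference on the half space forces the other
    have hforce : ∀ (mu : ℝ) (f g : E → ℝ), ContDiff ℝ 2 f → (∀ x, 0 < f x) → (∀ x, 0 < g x) →
        (∀ x, Δ f x = lam * f x - (mu * f x ^ 3 + be * f x * g x ^ 2)) →
        (∀ x : E, t0 < inner ℝ x e → wf f e t0 x = 0) →
        ∀ x : E, t0 < inner ℝ x e → wf g e t0 x = 0 := by
      intro mu f g cf pf pg ef hz x hx
      have h1 : wf f e t0 =ᶠ[𝓝 x] fun _ => 0 := by
        have hopen : IsOpen {x : E | t0 < inner ℝ x e} :=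
          isOpen_lt continuous_const (continuous_id.inner continuous_const)
        filter_upwards [hopen.mem_nhds hx] with y hy
        exact hz y hy
      have h2 : Δ (wf f e t0) x = 0 := by
        have h3 := (laplacian_congr_nhds h1).self_of_nhds
        rw [h3, laplacian_const]
        rfl
      have hurC : ContDiff ℝ 2 (fun y : E => f (rf e t0 y)) := cf.comp (contDiff_rf e t0)
      have e2 : Δ (wf f e t0) x = Δ f (rf e t0 x) - Δ f x := by
        have : wf f e t0 = fun y => f (rf e t0 y) - f y := rfl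
        rw [this, lap_sub hurC cf, lap_rf he t0 cf]
      rw [e2, ef, ef] at h2
      have h4 : f (rf e t0 x) = f x := by
        have := hz x hx
        unfold wf at this
        linarith
      rw [h4] at h2
      have h5 : be * f x * (g (rf e t0 x) ^ 2 - g x ^ 2) = 0 := by linarith
      have h6 : be * f x ≠ 0 := (mul_pos hbe (pf x)).ne'
      have h7 : g (rf e t0 x) ^ 2 - g x ^ 2 = 0 := by
        rcases mul_eq_zero.mp h5 with h8 | h8
        · exact absurd h8 h6
        · exact h8
      have h8 : (g (rf e t0 x) - g x) * (g (rf e t0 x) + g x) = 0 := by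
        rw [← h7]; ring
      have h9 : g (rf e t0 x) + g x ≠ 0 := (add_pos (pg _) (pg x)).ne'
      rcases mul_eq_zero.mp h8 with h10 | h10
      · exact h10
      · exact absurd h10 h9
    have hposu : ∀ x : E, t0 < inner ℝ x e → 0 < wf u e t0 x := by
      intro x hx
      by_contra hx2
      push Not at hx2
      have hx3 : wf u e t0 x = 0 := le_antisymm hx2 (hopen0 x hx).1
      have hz := strong_max_half hlam (contDiff_wf h.cu e t0) he
        (fun y hy => (hopen0 y hy).1) hlu hx hx3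
      have hz2 := hforce mu1 u v h.cu h.pu h.pv h.eu hz
      exact hcon (fun y hy => ⟨hz y hy, hz2 y hy⟩)
    have hposv : ∀ x : E, t0 < inner ℝ x e → 0 < wf v e t0 x := by
      intro x hx
      by_contra hx2
      push Not at hx2
      have hx3 : wf v e t0 x = 0 := le_antisymm hx2 (hopen0 x hx).2
      have hz := strong_max_half hlam (contDiff_wf h.cv e t0) he
        (fun y hy => (hopen0 y hy).2) hlv hx hx3
      have hz2 := hforce mu2 v u h.cv h.pv h.pu h.ev hz
      exact hcon (fun y hy => ⟨hz2 y hy, hz y hy⟩)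
    -- compactness
    set K : Set E := {x | t0 + 1 / M / 2 ≤ inner ℝ x e ∧ ‖x‖ ≤ R0} with hK
    have hic : Continuous fun x : E => (inner ℝ x e : ℝ) := continuous_id.inner continuous_const
    have hKc : IsCompact K := by
      apply IsCompact.of_isClosed_subset (isCompact_closedBall (0 : E) R0)
      · exact (isClosed_le continuous_const hic).inter (isClosed_le continuous_norm continuous_const)
      · intro x hx
        rw [mem_closedBall_zero_iff]
        exact hx.2
    have hev := hKc.eventually_forall_of_forall_eventually (x₀ := t0)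
      (P := fun t x => 0 < wf u e t x ∧ 0 < wf v e t x) (by
        intro y hy
        have hy' : t0 < inner ℝ y e := by linarith [hy.1]
        have h1 := ((continuous_wf2 h.cu.continuous e).tendsto (t0, y)).eventually
          (lt_mem_nhds (hposu y hy'))
        have h2 := ((continuous_wf2 h.cv.continuous e).tendsto (t0, y)).eventually
          (lt_mem_nhds (hposv y hy'))
        exact h1.and h2)
    obtain ⟨η, hη, hη2⟩ := Metric.eventually_nhds_iff.mp hev
    set η' : ℝ := min η (1 / M / 2) / 2 with hη'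
    have hη'0 : 0 < η' := by
      have : 0 < min η (1 / M / 2) := lt_min hη (by positivity)
      linarith
    have hη'1 : η' < η := by
      have h1 := min_le_left η (1 / M / 2)
      have : 0 < min η (1 / M / 2) := lt_min hη (by positivity)
      linarith
    have hη'2 : η' < 1 / M / 2 := by
      have h1 := min_le_right η (1 / M / 2)
      have : 0 < min η (1 / M / 2) := lt_min hη (by positivity)
      linarith
    have hmem : t0 - η' ∈ T := by
      intro t' ht'
      rcases lt_trichotomy t' t0 with h1 | h1 | h1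
      · by_contra hbad
        obtain ⟨x0, k1, k2, k3⟩ := hfail t' hbad
        have hxK : x0 ∈ K := ⟨by linarith, k2.le⟩
        have hdist : dist t' t0 < η := by
          rw [Real.dist_eq, abs_lt]
          constructor <;> linarith
        have := hη2 hdist x0 hxK
        have h5 : 0 < min (wf u e t' x0) (wf v e t' x0) := lt_min this.1 this.2
        linarith
      · rw [h1]; exact hPt0
      · exact hPgt t' h1
    have := csInf_le hTbdd hmem
    linarith
  refine ⟨t0, fun x => ?_⟩
  rcases lt_trichotomy t0 (inner ℝ x e) with h1 | h1 | h1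
  · obtain ⟨h2, h3⟩ := hclaim x h1
    unfold wf at h2 h3
    constructor <;> linarith
  · have h2 : rf e t0 x = x := rf_of_eq h1.symm
    rw [h2]
    exact ⟨rfl, rfl⟩
  · have h4 : t0 < inner ℝ (rf e t0 x) e := by
      rw [inner_rf he]
      linarith
    obtain ⟨h2, h3⟩ := hclaim _ h4
    unfold wf at h2 h3
    rw [rf_rf he] at h2 h3
    constructor <;> linarith

end Pool.Agent.H307
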