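import Mathlib
import Pool.Agent.H307.MovingPlane

set_option autoImplicit false

/-!
# Radial symmetry and the radial equation
-/

open Filter Topology Set InnerProductSpace Laplacian Metric

namespace Pool.Agent.H307

variable {E : Type*} [NormedAddCommGroup E] [InnerProductSpace ℝ E] [FiniteDimensional ℝ E]

omit [FiniteDimensional ℝ E] in
theorem rf_affine {e : E} (he : ‖e‖ = 1) (t : ℝ) (a x : E) :
    rf e t ((2 : ℝ) • a - x) = (2 : ℝ) • rf e t a - rf e t x := by
  rw [rf_eq he, rf_eq he, rf_eq he, map_sub, map_smul]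
  module

/-- symmetry in every direction implies radial symmetry about one point -/
theorem radial_of_planes {u v : E → ℝ} (pu : 0 < u 0) (lu : Tendsto u (cocompact E) (𝓝 0))
    (hpl : ∀ e : E, ‖e‖ = 1 → ∃ t : ℝ, ∀ x, u (rf e t x) = u x ∧ v (rf e t x) = v x) :
    ∃ c : E, ∀ x y : E, ‖x - c‖ = ‖y - c‖ → u x = u y ∧ v x = v y := by
  classical
  set b := stdOrthonormalBasis ℝ E with hb
  have hbn : ∀ i, ‖b i‖ = 1 := fun i => b.norm_eq_one i
  choose t ht using fun i => hpl (b i) (hbn i)
  set c : E := ∑ i, t i • b i with hcdef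
  -- partial reflections
  have hpart : ∀ s : Finset _, ∀ x : E,
      u (x - ∑ i ∈ s, (2 * (inner ℝ x (b i) - t i)) • b i) = u x := by
    intro s
    induction s using Finset.induction_on with
    | empty => intro x; simp
    | insert j s hj ih =>
      intro x
      rw [Finset.sum_insert hj]
      have h1 : (inner ℝ (x - ∑ i ∈ s, (2 * (inner ℝ x (b i) - t i)) • b i) (b j) : ℝ)
          = inner ℝ x (b j) := by
        rw [inner_sub_left, sum_inner]
        have : ∑ i ∈ s, (inner ℝ ((2 * (inner ℝ x (b i) - t i)) • b i) (b j) : ℝ) = 0 := by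
          apply Finset.sum_eq_zero
          intro i hi
          have hij : i ≠ j := fun h => hj (h ▸ hi)
          rw [real_inner_smul_left, b.inner_eq_zero hij, mul_zero]
        rw [this, sub_zero]
      have h2 : x - ((2 * (inner ℝ x (b j) - t j)) • b j
            + ∑ i ∈ s, (2 * (inner ℝ x (b i) - t i)) • b i)
          = rf (b j) (t j) (x - ∑ i ∈ s, (2 * (inner ℝ x (b i) - t i)) • b i) := by
        unfold rf
        rw [h1]
        abel
      rw [h2, (ht j _).1, ih]
  have heven : ∀ x, u ((2 : ℝ) • c - x) = u x := by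
    intro x
    have h1 := hpart Finset.univ x
    have h2 : x - ∑ i, (2 * (inner ℝ x (b i) - t i)) • b i = (2 : ℝ) • c - x := by
      have h3 : ∑ i, (inner ℝ (b i) x : ℝ) • b i = x := b.sum_repr' x
      have h4 : ∑ i, (2 * (inner ℝ x (b i) - t i)) • b i
          = (2 : ℝ) • (∑ i, (inner ℝ (b i) x : ℝ) • b i) - (2 : ℝ) • c := by
        rw [hcdef, Finset.smul_sum, Finset.smul_sum, ← Finset.sum_sub_distrib]
        apply Finset.sum_congr rfl
        intro i _
        rw [real_inner_comm x (b i)]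
        module
      rw [h4, h3]
      module
    rw [h2] at h1
    exact h1
  -- every symmetry hyperplane contains c
  have hcon : ∀ e : E, ‖e‖ = 1 → ∀ s : ℝ, (∀ x, u (rf e s x) = u x) → inner ℝ c e = s := by
    intro e he s hs
    set c' : E := rf e s c with hc'
    have h1 : ∀ x, u ((2 : ℝ) • c' - x) = u x := by
      intro x
      rw [← hs ((2 : ℝ) • c' - x), rf_affine he, hc', rf_rf he, heven, hs]
    have h2 : ∀ x, u (x + (2 : ℝ) • (c' - c)) = u x := by
      intro x
      have h3 : x + (2 : ℝ) • (c' - c) = (2 : ℝ) • c' - ((2 : ℝ) • c - x) := by module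
      rw [h3, h1, heven]
    have h3 : ∀ n : ℕ, u ((n : ℝ) • ((2 : ℝ) • (c' - c))) = u 0 := by
      intro n
      induction n with
      | zero => simp
      | succ n ih =>
        have h4 : ((n + 1 : ℕ) : ℝ) • ((2 : ℝ) • (c' - c))
            = (n : ℝ) • ((2 : ℝ) • (c' - c)) + (2 : ℝ) • (c' - c) := by
          push_cast
          module
        rw [h4, h2, ih]
    have h4 : c' - c = 0 := by
      by_contra hne
      obtain ⟨R, hR, hR2⟩ := ev_cocompact (lu.eventually (gt_mem_nhds pu))
      have h5 : 0 < ‖(2 : ℝ) • (c' - c)‖ := by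
        rw [norm_pos_iff]
        simp [hne]
      obtain ⟨n, hn⟩ := exists_nat_gt (R / ‖(2 : ℝ) • (c' - c)‖)
      rw [div_lt_iff₀ h5] at hn
      have h6 := hR2 ((n : ℝ) • ((2 : ℝ) • (c' - c))) (by
        rw [norm_smul, Real.norm_of_nonneg (Nat.cast_nonneg n)]
        exact hn.le)
      rw [h3 n] at h6
      exact lt_irrefl _ h6
    have h5 : c' - c = -((2 * (inner ℝ c e - s)) • e) := by
      rw [hc']
      unfold rf
      abel
    rw [h5, neg_eq_zero, smul_eq_zero] at h4
    rcases h4 with h6 | h6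
    · linarith
    · rw [h6, norm_zero] at he
      norm_num at he
  refine ⟨c, fun x y hxy => ?_⟩
  by_cases hne : x = y
  · rw [hne]
    exact ⟨rfl, rfl⟩
  have hpos : 0 < ‖x - y‖ := norm_pos_iff.mpr (sub_ne_zero.mpr hne)
  set e : E := (‖x - y‖⁻¹ : ℝ) • (x - y) with he
  have he1 : ‖e‖ = 1 := by
    rw [he, norm_smul, norm_inv, norm_norm]
    field_simp
  obtain ⟨s, hs⟩ := hpl e he1
  have hcs := hcon e he1 s (fun x => (hs x).1)
  have hrf : rf e s x = y := by
    unfold rf
    rw [← hcs, ← inner_sub_left]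
    have h1 : (inner ℝ (x - c) (x - y) : ℝ) = ‖x - y‖ ^ 2 / 2 := by
      have h2 : y - c = (x - c) - (x - y) := by abel
      have h3 : ‖y - c‖ ^ 2 = ‖x - c‖ ^ 2 - 2 * inner ℝ (x - c) (x - y) + ‖x - y‖ ^ 2 := by
        rw [h2, norm_sub_sq_real]
      rw [← hxy] at h3
      linarith
    have h2 : (inner ℝ (x - c) e : ℝ) = ‖x - y‖ / 2 := by
      rw [he, real_inner_smul_right, h1]
      field_simp
    rw [h2, he, smul_smul]
    have h3 : 2 * (‖x - y‖ / 2) * ‖x - y‖⁻¹ = 1 := by
      field_simp
    rw [h3, one_smul]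
    abel
  have := hs x
  rw [hrf] at this
  exact ⟨this.1.symm, this.2.symm⟩

section profile

variable {ι : Type*} [Fintype ι] [DecidableEq ι]

/-- radial profile -/
noncomputable def prof (u : E → ℝ) (c e : E) (r : ℝ) : ℝ := u (c + r • e)

/-- derivative of the radial profile -/
noncomputable def prof1 (u : E → ℝ) (c e : E) (r : ℝ) : ℝ := fderiv ℝ u (c + r • e) e

omit [FiniteDimensional ℝ E] in
theorem hasDerivAt_prof {u : E → ℝ} (hu : ContDiff ℝ 2 u) (c e : E) (r : ℝ) :
    HasDerivAt (prof u c e) (prof1 u c e r) r := hasDerivAt_line hu c e r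

omit [FiniteDimensional ℝ E] in
theorem hasDerivAt_prof1' {u : E → ℝ} (hu : ContDiff ℝ 2 u) (c e : E) (r : ℝ) :
    HasDerivAt (prof1 u c e) (fderiv ℝ (fderiv ℝ u) (c + r • e) e e) r :=
  hasDerivAt_line2 hu c e e r

omit [FiniteDimensional ℝ E] in
theorem prof_radial {u : E → ℝ} {c e : E} (he : ‖e‖ = 1)
    (hrad : ∀ x y : E, ‖x - c‖ = ‖y - c‖ → u x = u y) (x : E) :
    u x = prof u c e ‖x - c‖ := by
  apply hrad
  rw [add_sub_cancel_left, norm_smul, he, mul_one, norm_norm]

omit [FiniteDimensional ℝ E] in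
theorem prof1_zero {u : E → ℝ} (hu : ContDiff ℝ 2 u) {c e : E}
    (hrad : ∀ x y : E, ‖x - c‖ = ‖y - c‖ → u x = u y) : prof1 u c e 0 = 0 := by
  have h1 : (fun r : ℝ => prof u c e (-r)) = prof u c e := by
    funext r
    apply hrad
    rw [add_sub_cancel_left, add_sub_cancel_left, norm_smul, norm_smul, norm_neg]
  have h2 : HasDerivAt (prof u c e) (prof1 u c e (-0)) (-0) := hasDerivAt_prof hu c e (-0)
  have h3 : HasDerivAt (fun r : ℝ => prof u c e (-r)) (prof1 u c e (-0) * (-1)) 0 :=
    h2.comp (0 : ℝ) (hasDerivAt_neg (0 : ℝ))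
  rw [h1] at h3
  have h4 := h3.unique (hasDerivAt_prof hu c e 0)
  rw [neg_zero] at h4
  linarith

/-- the radial Laplacian -/
theorem lap_radial (b : OrthonormalBasis ι ℝ E) (i0 : ι) {u : E → ℝ} (hu : ContDiff ℝ 2 u)
    {c : E} (hrad : ∀ x y : E, ‖x - c‖ = ‖y - c‖ → u x = u y) {r : ℝ} (hr : 0 < r) :
    Δ u (c + r • b i0) = fderiv ℝ (fderiv ℝ u) (c + r • b i0) (b i0) (b i0)
      + ((Fintype.card ι : ℝ) - 1) / r * prof1 u c (b i0) r := by
  have hb0 : ‖b i0‖ = 1 := b.norm_eq_one i0
  have hb : ∀ i, ‖b i‖ = 1 := fun i => b.norm_eq_one i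
  set D := fderiv ℝ (fderiv ℝ u) (c + r • b i0) (b i0) (b i0) with hD
  rw [lap_eq_sum b hu (c + r • b i0)
    (g1 := fun i s => if i = i0 then prof1 u c (b i0) (r + s)
      else prof1 u c (b i0) (Real.sqrt (r ^ 2 + s ^ 2)) * (s / Real.sqrt (r ^ 2 + s ^ 2)))
    (g2 := fun i => if i = i0 then D else prof1 u c (b i0) r / r)]
  · have h1 : ∀ i ∈ Finset.univ, (if i = i0 then D else prof1 u c (b i0) r / r)
        = (if i = i0 then (D - prof1 u c (b i0) r / r) else 0) + prof1 u c (b i0) r / r := by
      intro i _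
      split_ifs <;> ring
    rw [Finset.sum_congr rfl h1, Finset.sum_add_distrib, Finset.sum_ite_eq' Finset.univ i0]
    simp only [Finset.mem_univ, if_true, Finset.sum_const, Finset.card_univ, nsmul_eq_mul]
    ring
  · intro i s
    by_cases hi : i = i0
    · subst hi
      simp only [if_true]
      have h1 : (fun s : ℝ => u (c + r • b i + s • b i)) = fun s : ℝ => prof u c (b i) (r + s) := by
        funext s
        unfold prof
        congr 1
        module
      rw [h1]
      have h2 := (hasDerivAt_prof hu c (b i) (r + s)).comp s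
        ((hasDerivAt_id s).const_add r)
      rw [mul_one] at h2
      exact h2
    · simp only [hi, if_false]
      have hpos : ∀ s : ℝ, 0 < r ^ 2 + s ^ 2 := fun s => by positivity
      have h1 : (fun s : ℝ => u (c + r • b i0 + s • b i))
          = fun s : ℝ => prof u c (b i0) (Real.sqrt (r ^ 2 + s ^ 2)) := by
        funext s
        rw [prof_radial hb0 hrad (c + r • b i0 + s • b i)]
        congr 1
        have h2 : c + r • b i0 + s • b i - c = r • b i0 + s • b i := by abel
        rw [h2]
        have h3 : ‖r • b i0 + s • b i‖ ^ 2 = r ^ 2 + s ^ 2 := by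
          rw [norm_add_sq_real, real_inner_smul_left, real_inner_smul_right,
            b.inner_eq_zero (Ne.symm hi), norm_smul, norm_smul, hb, hb]
          simp
        rw [← h3, Real.sqrt_sq (norm_nonneg _)]
      rw [h1]
      have h2 : HasDerivAt (fun s : ℝ => Real.sqrt (r ^ 2 + s ^ 2))
          (s / Real.sqrt (r ^ 2 + s ^ 2)) s := by
        have h3 : HasDerivAt (fun s : ℝ => r ^ 2 + s ^ 2) (2 * s) s := by
          have := (hasDerivAt_pow 2 s).const_add (r ^ 2)
          simpa using this
        have h4 := h3.sqrt (hpos s).ne'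
        refine h4.congr_deriv ?_
        have : Real.sqrt (r ^ 2 + s ^ 2) ≠ 0 := (Real.sqrt_pos.mpr (hpos s)).ne'
        field_simp
      exact (hasDerivAt_prof hu c (b i0) _).comp s h2
  · intro i
    by_cases hi : i = i0
    · subst hi
      simp only [if_true]
      have h1 := (hasDerivAt_prof1' hu c (b i) (r + 0)).comp (0 : ℝ)
        ((hasDerivAt_id (0 : ℝ)).const_add r)
      simp only [add_zero, mul_one] at h1
      exact h1
    · simp only [hi, if_false]
      have hpos : ∀ s : ℝ, 0 < r ^ 2 + s ^ 2 := fun s => by positivity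
      have hsq : Real.sqrt (r ^ 2 + 0 ^ 2) = r := by
        rw [zero_pow two_ne_zero, add_zero, Real.sqrt_sq hr.le]
      have h2 : HasDerivAt (fun s : ℝ => Real.sqrt (r ^ 2 + s ^ 2)) 0 0 := by
        have h3 : HasDerivAt (fun s : ℝ => r ^ 2 + s ^ 2) (2 * 0) 0 := by
          have := (hasDerivAt_pow 2 (0 : ℝ)).const_add (r ^ 2)
          simpa using this
        have h4 := h3.sqrt (hpos 0).ne'
        refine h4.congr_deriv ?_
        simp
      have h3 : HasDerivAt (fun s : ℝ => s / Real.sqrt (r ^ 2 + s ^ 2)) (1 / r) 0 := by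
        have h4 := (hasDerivAt_id (0 : ℝ)).div h2 (by rw [hsq]; exact hr.ne')
        refine h4.congr_deriv ?_
        rw [hsq]
        simp only [id_eq]
        field_simp
        ring
      have h4 : HasDerivAt (fun s : ℝ => prof1 u c (b i0) (Real.sqrt (r ^ 2 + s ^ 2))) 0 0 := by
        have h5 := (hasDerivAt_prof1' hu c (b i0) (Real.sqrt (r ^ 2 + 0 ^ 2))).comp (0 : ℝ) h2
        rw [mul_zero] at h5
        exact h5
      have h5 := h4.mul h3
      refine h5.congr_deriv ?_
      rw [hsq]
      ring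

end profile

end Pool.Agent.H307
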