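import Mathlib
import Pool.Agent.H307.Radial
import Pool.Agent.H307.OdeC

set_option autoImplicit false

/-!
# Uniqueness of positive classical solutions
-/

open Filter Topology Set InnerProductSpace Laplacian Metric

namespace Pool.Agent.H307

section general

variable {E : Type*} [NormedAddCommGroup E] [InnerProductSpace ℝ E] [FiniteDimensional ℝ E]
variable {ι : Type*} [Fintype ι] [DecidableEq ι]

omit [FiniteDimensional ℝ E] in
theorem tendsto_ray {f : E → ℝ} {c e : E} (he : ‖e‖ = 1) (hl : Tendsto f (cocompact E) (𝓝 0)) :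
    Tendsto (prof f c e) atTop (𝓝 0) := by
  rw [Metric.tendsto_atTop]
  intro ε hε
  obtain ⟨R, hR, hR2⟩ := ev_cocompact (Metric.tendsto_nhds.mp hl ε hε)
  refine ⟨R + ‖c‖, fun r hr => hR2 _ ?_⟩
  have h1 : ‖r • e‖ ≤ ‖c + r • e‖ + ‖c‖ := by
    have := norm_sub_le (c + r • e) c
    rwa [add_sub_cancel_left] at this
  have hc0 := norm_nonneg c
  rw [norm_smul, he, mul_one, Real.norm_of_nonneg (by linarith)] at h1
  linarith

/-- two positive radial functions with the same centre solving the coupled equations coincide -/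
theorem pair_unique (b : OrthonormalBasis ι ℝ E) (i0 : ι) {k : ℝ}
    (hcard : (Fintype.card ι : ℝ) - 1 = 3 * k) (hk : 1 / 4 < k) (hk1 : k < 1)
    {lam al be s : ℝ} (hlam : 0 < lam) (hal : 0 < al) (hbe : 0 < be) (hs : 0 ≤ s)
    {f g : E → ℝ} (cf : ContDiff ℝ 2 f) (cg : ContDiff ℝ 2 g)
    (pf : ∀ x, 0 < f x) (pg : ∀ x, 0 < g x)
    (lf : Tendsto f (cocompact E) (𝓝 0)) (lg : Tendsto g (cocompact E) (𝓝 0))
    {c : E} (rf' : ∀ x y : E, ‖x - c‖ = ‖y - c‖ → f x = f y)
    (rg' : ∀ x y : E, ‖x - c‖ = ‖y - c‖ → g x = g y)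
    (ef : ∀ x, Δ f x = lam * f x - f x * (f x ^ 2 + Gf al be s (f x) (g x)))
    (eg : ∀ x, Δ g x = lam * g x - g x * (g x ^ 2 + Gf al be s (f x) (g x))) :
    ∀ x, f x = g x := by
  set e : E := b i0 with he'
  have he : ‖e‖ = 1 := b.norm_eq_one i0
  have hlim0 : ∀ (h : ℝ → ℝ), Continuous h → Tendsto h (𝓝[>] 0) (𝓝 (h 0)) := fun h hh =>
    (hh.tendsto 0).mono_left nhdsWithin_le_nhds
  have cpf : Continuous (prof f c e) := by
    unfold prof
    exact cf.continuous.comp (by fun_prop)
  have cpg : Continuous (prof g c e) := by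
    unfold prof
    exact cg.continuous.comp (by fun_prop)
  have cpf1 : Continuous (prof1 f c e) := continuous_iff_continuousAt.mpr fun r =>
    (hasDerivAt_prof1' cf c e r).continuousAt
  have cpg1 : Continuous (prof1 g c e) := continuous_iff_continuousAt.mpr fun r =>
    (hasDerivAt_prof1' cg c e r).continuousAt
  have hrad : RadPair k lam al be s (prof f c e 0) (prof g c e 0)
      (prof f c e) (prof1 f c e) (prof g c e) (prof1 g c e) := by
    refine ⟨fun r _ => hasDerivAt_prof cf c e r, fun r hr => ?_,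
      fun r _ => hasDerivAt_prof cg c e r, fun r hr => ?_,
      fun r _ => pf _, fun r _ => pg _, pf _, pg _, hlim0 _ cpf, ?_, hlim0 _ cpg, ?_,
      tendsto_ray he lf, tendsto_ray he lg⟩
    · refine (hasDerivAt_prof1' cf c e r).congr_deriv ?_
      have h1 := lap_radial b i0 cf rf' hr
      rw [ef, hcard] at h1
      unfold prof
      rw [← he'] at h1
      linarith
    · refine (hasDerivAt_prof1' cg c e r).congr_deriv ?_
      have h1 := lap_radial b i0 cg rg' hr
      rw [eg, hcard] at h1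
      unfold prof
      rw [← he'] at h1
      linarith
    · have h1 := hlim0 _ cpf1
      rwa [prof1_zero cf rf'] at h1
    · have h1 := hlim0 _ cpg1
      rwa [prof1_zero cg rg'] at h1
  obtain ⟨M1, hM1, hM1'⟩ := bdd_of_cocompact cf.continuous lf
  obtain ⟨M2, hM2, hM2'⟩ := bdd_of_cocompact cg.continuous lg
  have heq := hrad.eq hk hk1 hlam hal hbe hs (M := max M1 M2)
    (fun r _ => (hM1' _).trans (le_max_left _ _)) (fun r _ => (hM2' _).trans (le_max_right _ _))
  have h0 := hrad.init_eq hk hk1 hlam hal hbe hs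
  intro x
  rw [prof_radial he rf' x, prof_radial he rg' x]
  rcases (norm_nonneg (x - c)).lt_or_eq with h1 | h1
  · exact heq _ h1
  · rw [← h1]
    exact h0

end general

/-- ground state profile of the scalar equation -/
structure Ground {N : ℕ} (lam : ℝ) (w : EuclideanSpace ℝ (Fin N) → ℝ) : Prop where
  cw : ContDiff ℝ 2 w
  pw : ∀ x, 0 < w x
  lw : Tendsto w (cocompact (EuclideanSpace ℝ (Fin N))) (𝓝 0)
  rw' : ∀ x y, ‖x‖ = ‖y‖ → w x = w y
  ew : ∀ x, Δ w x = lam * w x - w x ^ 3

theorem exists_k {N : ℕ} (hN : N = 2 ∨ N = 3) :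
    ∃ k : ℝ, (Fintype.card (Fin N) : ℝ) - 1 = 3 * k ∧ 1 / 4 < k ∧ k < 1 := by
  refine ⟨((N : ℝ) - 1) / 3, ?_, ?_, ?_⟩
  · rw [Fintype.card_fin]; ring
  · rcases hN with h | h <;> subst h <;> norm_num
  · rcases hN with h | h <;> subst h <;> norm_num

theorem ground_unique {N : ℕ} (hN : N = 2 ∨ N = 3) {lam : ℝ} (hlam : 0 < lam)
    {w w' : EuclideanSpace ℝ (Fin N) → ℝ} (h : Ground lam w) (h' : Ground lam w') : w = w' := by
  obtain ⟨k, hk0, hk, hk1⟩ := exists_k hN
  have hN0 : 0 < N := by rcases hN with h | h <;> omega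
  funext x
  exact pair_unique (EuclideanSpace.basisFun (Fin N) ℝ) ⟨0, hN0⟩ hk0 hk hk1 hlam
    (al := 1) (be := 1) (s := 0) one_pos one_pos le_rfl h.cw h'.cw h.pw h'.pw h.lw h'.lw
    (c := 0) (fun x y hxy => h.rw' x y (by simpa using hxy))
    (fun x y hxy => h'.rw' x y (by simpa using hxy))
    (fun x => by rw [h.ew]; unfold Gf; ring) (fun x => by rw [h'.ew]; unfold Gf; ring) x

/-- classical version of the main theorem -/
theorem classical_main {N : ℕ} (hN : N = 2 ∨ N = 3) {lam mu1 mu2 be : ℝ} (hlam : 0 < lam)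
    (hbe : 0 < be) (h1 : be < mu1) (h2 : be < mu2)
    {u v : EuclideanSpace ℝ (Fin N) → ℝ} (h : Sol lam mu1 mu2 be u v) :
    ∃ w : EuclideanSpace ℝ (Fin N) → ℝ, Ground lam w ∧ ∃ c, ∀ x,
      u x = Real.sqrt ((mu2 - be) / (mu1 * mu2 - be ^ 2)) * w (x - c) ∧
      v x = Real.sqrt ((mu1 - be) / (mu1 * mu2 - be ^ 2)) * w (x - c) := by
  obtain ⟨k, hk0, hk, hk1⟩ := exists_k hN
  have hN0 : 0 < N := by rcases hN with h | h <;> omega
  set a : ℝ := mu1 - be with ha
  set b : ℝ := mu2 - be with hb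
  have ha0 : 0 < a := by linarith
  have hb0 : 0 < b := by linarith
  have hmu1 : 0 < mu1 := by linarith
  have hmu2 : 0 < mu2 := by linarith
  set d : ℝ := mu1 * mu2 - be ^ 2 with hd
  have hd0 : 0 < d := by nlinarith
  -- radial symmetry
  obtain ⟨c, hc⟩ := radial_of_planes (h.pu 0) h.lu
    (fun e he => moving_plane hlam hmu1.le hmu2.le hbe h he)
  have hsa : 0 < Real.sqrt a := Real.sqrt_pos.mpr ha0
  have hsb : 0 < Real.sqrt b := Real.sqrt_pos.mpr hb0
  have hsa2 : Real.sqrt a ^ 2 = a := Real.sq_sqrt ha0.le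
  have hsb2 : Real.sqrt b ^ 2 = b := Real.sq_sqrt hb0.le
  have heq : ∀ x, Real.sqrt a * u x = Real.sqrt b * v x := by
    apply pair_unique (EuclideanSpace.basisFun (Fin N) ℝ) ⟨0, hN0⟩ hk0 hk hk1 hlam
      (al := be / a) (be := be / b) (s := 1) (by positivity) (by positivity) zero_le_one
      (f := fun x => Real.sqrt a * u x) (g := fun x => Real.sqrt b * v x)
      (contDiff_const.mul h.cu) (contDiff_const.mul h.cv)
      (fun x => mul_pos hsa (h.pu x)) (fun x => mul_pos hsb (h.pv x))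
      (by simpa using h.lu.const_mul (Real.sqrt a)) (by simpa using h.lv.const_mul (Real.sqrt b))
      (c := c)
    · intro x y hxy
      simp only [(hc x y hxy).1]
    · intro x y hxy
      simp only [(hc x y hxy).2]
    · intro x
      rw [lap_const_mul h.cu, h.eu]
      unfold Gf
      have e1 : (Real.sqrt a * u x) ^ 2 = a * u x ^ 2 := by rw [mul_pow, hsa2]
      have e2 : (Real.sqrt b * v x) ^ 2 = b * v x ^ 2 := by rw [mul_pow, hsb2]
      rw [e1, e2]
      have e3 : be / a * (a * u x ^ 2) = be * u x ^ 2 := by field_simp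
      have e4 : be / b * (b * v x ^ 2) = be * v x ^ 2 := by field_simp
      rw [e3, e4, ha]
      ring
    · intro x
      rw [lap_const_mul h.cv, h.ev]
      unfold Gf
      have e1 : (Real.sqrt a * u x) ^ 2 = a * u x ^ 2 := by rw [mul_pow, hsa2]
      have e2 : (Real.sqrt b * v x) ^ 2 = b * v x ^ 2 := by rw [mul_pow, hsb2]
      rw [e1, e2]
      have e3 : be / a * (a * u x ^ 2) = be * u x ^ 2 := by field_simp
      have e4 : be / b * (b * v x ^ 2) = be * v x ^ 2 := by field_simp
      rw [e3, e4, hb]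
      ring
  -- v² = (a/b) u²
  have hv2 : ∀ x, v x ^ 2 = a / b * u x ^ 2 := by
    intro x
    have e1 : (Real.sqrt a * u x) ^ 2 = a * u x ^ 2 := by rw [mul_pow, hsa2]
    have e2 : (Real.sqrt b * v x) ^ 2 = b * v x ^ 2 := by rw [mul_pow, hsb2]
    have e3 : a * u x ^ 2 = b * v x ^ 2 := by rw [← e1, ← e2, heq x]
    field_simp
    linarith
  set K : ℝ := Real.sqrt (b / d) with hK
  have hK0 : 0 < K := Real.sqrt_pos.mpr (by positivity)
  have hK2 : K ^ 2 = b / d := Real.sq_sqrt (by positivity)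
  have hul : ∀ x, Δ u x = lam * u x - u x ^ 3 / K ^ 2 := by
    intro x
    rw [h.eu]
    have e1 : be * u x * v x ^ 2 = be * u x * (a / b * u x ^ 2) := by rw [hv2]
    rw [e1, hK2]
    have e2 : mu1 * u x ^ 3 + be * u x * (a / b * u x ^ 2) = u x ^ 3 / (b / d) := by
      field_simp
      rw [ha, hb, hd]
      ring
    rw [e2]
  have hvu : ∀ x, v x = Real.sqrt (a / d) / K * u x := by
    intro x
    have e1 : 0 < Real.sqrt (a / d) := Real.sqrt_pos.mpr (by positivity)
    have e2 : 0 < Real.sqrt (a / d) / K * u x := mul_pos (div_pos e1 hK0) (h.pu x)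
    have e3 : v x ^ 2 = (Real.sqrt (a / d) / K * u x) ^ 2 := by
      rw [hv2, mul_pow, div_pow, hK2, Real.sq_sqrt (by positivity)]
      field_simp
    exact (pow_left_inj₀ (h.pv x).le e2.le two_ne_zero).mp e3
  refine ⟨fun x => K⁻¹ * u (x + c), ⟨?_, ?_, ?_, ?_, ?_⟩, c, fun x => ⟨?_, ?_⟩⟩
  · exact contDiff_const.mul (h.cu.comp (contDiff_id.add contDiff_const))
  · intro x
    exact mul_pos (inv_pos.mpr hK0) (h.pu _)
  · have h3 : Tendsto (fun x : EuclideanSpace ℝ (Fin N) => x + c)
        (cocompact _) (cocompact _) :=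
      (Homeomorph.addRight c).isClosedEmbedding.tendsto_cocompact
    simpa using (h.lu.comp h3).const_mul K⁻¹
  · intro x y hxy
    have := (hc (x + c) (y + c) (by simpa using hxy)).1
    simp only [this]
  · intro x
    have e1 : Δ (fun x => K⁻¹ * u (x + c)) x = K⁻¹ * Δ (fun x => u (x + c)) x :=
      lap_const_mul (h.cu.comp (contDiff_id.add contDiff_const)) _ x
    have e2 : Δ (fun x => u (x + c)) x = Δ u (x + c) := by
      rw [lap_eq (EuclideanSpace.basisFun (Fin N) ℝ), lap_eq (EuclideanSpace.basisFun (Fin N) ℝ)]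
      have e3 : fderiv ℝ (fun x => u (x + c)) = fun x => fderiv ℝ u (x + c) := by
        funext y
        exact fderiv_comp_add_right c
      rw [e3, fderiv_comp_add_right]
    rw [e1, e2, hul]
    field_simp
  · simp only [sub_add_cancel]
    field_simp
  · simp only [sub_add_cancel]
    rw [hvu x]
    field_simp

end Pool.Agent.H307
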