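import Pool.Agent.H979.DE.Stm
import Pool.Graph.R_pool_sql_team_ae5b0c61.H41.Derrw3

/-!
# `S_KEY`: lower bound of the probability that all the steps before the exit from a finite set
are regular
-/

set_option autoImplicit false
set_option linter.all false

open MeasureTheory Finset Filter Pool.Agent.H41.Derrw Pool.Agent.H979.DE
open scoped ENNReal

namespace Pool.Agent.H307.DEKey

section Basic

variable {V : Type} [DecidableEq V]

lemma cross_congr {w w' : ℕ → V} {n : ℕ} (h : ∀ k ≤ n, w k = w' k) :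
    cross w n = cross w' n := by
  funext x y
  exact sum_congr rfl fun k hk => by
    rw [h k (mem_range.1 hk).le, h (k + 1) (mem_range.1 hk)]

lemma out_congr (G : SimpleGraph V) [G.LocallyFinite] {w w' : ℕ → V} {n : ℕ}
    (h : ∀ k ≤ n, w k = w' k) : out G w n = out G w' n := by
  funext x
  unfold out
  rw [cross_congr h]

lemma reg_congr {w w' : ℕ → V} {j : ℕ} (h : ∀ k ≤ j + 1, w k = w' k) (hr : Reg w j) :
    Reg w' j := by
  unfold Reg at hr ⊢
  rw [← cross_congr (fun k hk => h k (by omega)), ← h j (by omega), ← h (j + 1) le_rfl]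
  exact hr

lemma good_congr {G : SimpleGraph V} {w w' : ℕ → V} {n : ℕ} (h : ∀ k ≤ n, w k = w' k)
    (hg : Good G w n) : Good G w' n := by
  obtain ⟨y, h1, h2⟩ := hg
  refine ⟨y, ?_, ?_⟩
  · rw [← h n le_rfl]
    exact h1
  · rw [← cross_congr h, ← h n le_rfl]
    exact h2

/-- the path is in `B` at the times in `[n, k]` -/
def alive (B : Finset V) (n : ℕ) (w : ℕ → V) (k : ℕ) : Prop := ∀ j, n ≤ j → j ≤ k → w j ∈ B

/-- the steps at the times in `[n, k)` before the exit are regular -/
def ok (B : Finset V) (n : ℕ) (w : ℕ → V) (k : ℕ) : Prop :=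
  ∀ j, n ≤ j → j < k → alive B n w j → Reg w j

lemma alive_congr {B : Finset V} {n k : ℕ} {w w' : ℕ → V} (h : ∀ j ≤ k, w j = w' j)
    (ha : alive B n w k) : alive B n w' k := fun j h1 h2 => by
  rw [← h j h2]
  exact ha j h1 h2

lemma ok_congr {B : Finset V} {n k : ℕ} {w w' : ℕ → V} (h : ∀ j ≤ k, w j = w' j)
    (ha : ok B n w k) : ok B n w' k := fun j h1 h2 h3 =>
  reg_congr (fun i hi => h i (by omega))
    (ha j h1 h2 (alive_congr (fun i hi => (h i (by omega)).symm) h3))

lemma ok_anti {B : Finset V} {n k l : ℕ} {w : ℕ → V} (hkl : k ≤ l) (ha : ok B n w l) :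
    ok B n w k := fun j h1 h2 h3 => ha j h1 (by omega) h3

open Classical in
/-- the process -/
noncomputable def Z (G : SimpleGraph V) [G.LocallyFinite] (B : Finset V) (H : ℕ → ℝ) (n k : ℕ)
    (w : ℕ → V) : ℝ≥0∞ :=
  if ok B n w k then (if alive B n w k then ENNReal.ofReal (∏ b ∈ B, H (out G w k b)) else 1)
  else 0

lemma Z_congr (G : SimpleGraph V) [G.LocallyFinite] {B : Finset V} {H : ℕ → ℝ} {n k : ℕ}
    {w w' : ℕ → V} (h : ∀ j ≤ k, w j = w' j) : Z G B H n k w = Z G B H n k w' := by
  unfold Z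
  have e1 : ok B n w k ↔ ok B n w' k := ⟨ok_congr h, ok_congr fun j hj => (h j hj).symm⟩
  have e2 : alive B n w k ↔ alive B n w' k :=
    ⟨alive_congr h, alive_congr fun j hj => (h j hj).symm⟩
  rw [out_congr G h]
  by_cases a1 : ok B n w k
  · by_cases a2 : alive B n w k
    · rw [if_pos a1, if_pos a2, if_pos (e1.1 a1), if_pos (e2.1 a2)]
    · rw [if_pos a1, if_neg a2, if_pos (e1.1 a1), if_neg fun h' => a2 (e2.2 h')]
  · rw [if_neg a1, if_neg fun h' => a1 (e1.2 h')]

lemma upd {w : ℕ → V} {k : ℕ} {y : V} : ∀ j ≤ k, w j = Function.update w (k + 1) y j :=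
  fun j hj => (Function.update_of_ne (by omega) _ _).symm

lemma out_pos {G : SimpleGraph V} [G.LocallyFinite] {w : ℕ → V} {k : ℕ} (h : Good G w k) :
    1 ≤ out G w k (w k) := by
  obtain ⟨y, h1, h2⟩ := h
  unfold out
  have h3 := Finset.single_le_sum (f := fun y => (cross w k (w k) y).toNat)
    (fun _ _ => Nat.zero_le _) ((G.mem_neighborFinset (w k) y).2 h1)
  have h4 : 1 ≤ (cross w k (w k) y).toNat := by omega
  exact h4.trans h3

lemma irr_compl {G : SimpleGraph V} [G.LocallyFinite] {γ : ℝ} (hG : ∀ x, ∃ y, G.Adj x y)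
    (w : ℕ → V) (k : ℕ) :
    ∑ y ∈ (G.neighborFinset (w k)).filter (fun y => 0 < cross w k (w k) y), trans G γ w k y =
      1 - irr G γ w k := by
  have h1 := Finset.sum_filter_add_sum_filter_not (G.neighborFinset (w k))
    (fun y => cross w k (w k) y ≤ 0) (fun y => trans G γ w k y)
  rw [trans_sum hG] at h1
  have h2 : (G.neighborFinset (w k)).filter (fun y => ¬ cross w k (w k) y ≤ 0) =
      (G.neighborFinset (w k)).filter (fun y => 0 < cross w k (w k) y) :=
    Finset.filter_congr fun y _ => not_le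
  rw [h2] at h1
  unfold irr
  linarith

end Basic

lemma key_step (h2 : S_GNEXT) (h3 : S_OUT) {V : Type} [DecidableEq V] {G : SimpleGraph V}
    [G.LocallyFinite] {γ : ℝ} (hG : ∀ x, ∃ y, G.Adj x y) {B : Finset V} {p H : ℕ → ℝ}
    (hp : ∀ m, 1 ≤ m → 0 ≤ p m ∧ p m < 1) (H1 : ∀ m, 0 < H m ∧ H m ≤ 1)
    (Hr : ∀ m, 1 ≤ m → H m ≤ (1 - p m) * H (m + 1))
    (hirr : ∀ w n, Val G w n → w n ∈ B → Good G w n → irr G γ w n ≤ p (out G w n (w n)))
    {n k : ℕ} (hk : n ≤ k) {w : ℕ → V} (hval : Val G w k) (hgood : Good G w n) :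
    Z G B H n k w ≤ ∑ y ∈ G.neighborFinset (w k),
      ENNReal.ofReal (trans G γ w k y) * Z G B H n (k + 1) (Function.update w (k + 1) y) := by
  by_cases hok : ok B n w k
  swap
  · rw [Z, if_neg hok]
    exact zero_le'
  by_cases hal : alive B n w k
  swap
  · -- the path has left `B`
    have e1 : ∀ y ∈ G.neighborFinset (w k),
        ENNReal.ofReal (trans G γ w k y) * Z G B H n (k + 1) (Function.update w (k + 1) y) =
        ENNReal.ofReal (trans G γ w k y) := by
      intro y _
      have hna : ¬ alive B n (Function.update w (k + 1) y) k := fun ha =>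
        hal (alive_congr (fun j hj => (upd (w := w) (y := y) j hj).symm) ha)
      have hna2 : ¬ alive B n (Function.update w (k + 1) y) (k + 1) := fun ha =>
        hna fun j h1 h2 => ha j h1 (by omega)
      have hok2 : ok B n (Function.update w (k + 1) y) (k + 1) := by
        intro j h1 h2 h3
        rcases Nat.lt_succ_iff_lt_or_eq.1 h2 with h4 | h4
        · exact ok_congr (upd (w := w) (y := y)) hok j h1 h4 h3
        · rw [h4] at h3
          exact absurd h3 hna
      rw [Z, if_pos hok2, if_neg hna2, mul_one]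
    rw [Finset.sum_congr rfl e1, ← ENNReal.ofReal_sum_of_nonneg fun _ _ => trans_nn _ _ _,
      trans_sum hG, Z, if_pos hok, if_neg hal, ENNReal.ofReal_one]
  -- a regular step is possible
  have hgk : Good G w k := by
    rcases hk.eq_or_lt with h | h
    · rw [← h]
      exact hgood
    · obtain ⟨k', rfl⟩ : ∃ k', k = k' + 1 := ⟨k - 1, by omega⟩
      exact h2 V G w k' hval (hok k' (by omega) (by omega) fun j h4 h5 => hal j h4 (by omega))
  have hkB : w k ∈ B := hal k hk le_rfl
  obtain ⟨o, ho⟩ : ∃ o, o = out G w k (w k) := ⟨_, rfl⟩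
  have ho1 : 1 ≤ o := by rw [ho]; exact out_pos hgk
  have hirr1 : irr G γ w k ≤ p o := by rw [ho]; exact hirr w k hval hkB hgk
  obtain ⟨hp0, hp1⟩ := hp o ho1
  obtain ⟨h, hh⟩ : ∃ h, h = ∏ b ∈ B, H (out G w k b) := ⟨_, rfl⟩
  have hh0 : 0 ≤ h := by
    rw [hh]
    exact Finset.prod_nonneg fun b _ => (H1 _).1.le
  have hq : 0 < 1 - p o := by linarith
  -- the value after a regular step
  have hreg : ∀ y ∈ (G.neighborFinset (w k)).filter (fun y => 0 < cross w k (w k) y),
      ENNReal.ofReal (h / (1 - p o)) ≤ Z G B H n (k + 1) (Function.update w (k + 1) y) := by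
    intro y hy
    rw [Finset.mem_filter, SimpleGraph.mem_neighborFinset] at hy
    obtain ⟨w', hw'⟩ : ∃ w', w' = Function.update w (k + 1) y := ⟨_, rfl⟩
    have hww : ∀ j ≤ k, w j = w' j := by rw [hw']; exact upd
    have hwy : w' (k + 1) = y := by rw [hw']; exact Function.update_self _ _ _
    rw [← hw']
    have hR : Reg w' k := by
      unfold Reg
      rw [← cross_congr hww, ← hww k le_rfl, hwy]
      exact hy.2
    have hV : Val G w' (k + 1) := by
      intro j hj
      rcases Nat.lt_succ_iff_lt_or_eq.1 hj with h4 | h4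
      · rw [← hww j (by omega), ← hww (j + 1) (by omega)]
        exact hval j h4
      · rw [h4, ← hww k le_rfl, hwy]
        exact hy.1
    have hout := h3 V G w' k hV hR
    have hok2 : ok B n w' (k + 1) := by
      intro j h1 h2 h3
      rcases Nat.lt_succ_iff_lt_or_eq.1 h2 with h4 | h4
      · exact ok_congr hww hok j h1 h4 h3
      · rw [h4]
        exact hR
    have hprod : h ≤ (1 - p o) * ∏ b ∈ B, H (out G w' (k + 1) b) := by
      rw [hh, ← Finset.mul_prod_erase B _ hkB, ← Finset.mul_prod_erase B _ hkB]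
      have e1 : out G w' (k + 1) (w k) = o + 1 := by
        rw [hout, ← hww k le_rfl, if_pos rfl, ← out_congr G hww, ← ho]
      have e2 : ∏ b ∈ B.erase (w k), H (out G w' (k + 1) b) =
          ∏ b ∈ B.erase (w k), H (out G w k b) := by
        refine Finset.prod_congr rfl fun b hb => ?_
        rw [hout, ← hww k le_rfl, if_neg (Finset.ne_of_mem_erase hb), ← out_congr G hww, add_zero]
      rw [e1, e2, ← ho, ← mul_assoc]
      exact mul_le_mul_of_nonneg_right (Hr o ho1) (Finset.prod_nonneg fun b _ => (H1 _).1.le)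
    have hle : h / (1 - p o) ≤ ∏ b ∈ B, H (out G w' (k + 1) b) := by
      rw [div_le_iff₀ hq, mul_comm]
      exact hprod
    rw [Z, if_pos hok2]
    split_ifs
    · exact ENNReal.ofReal_le_ofReal hle
    · rw [← ENNReal.ofReal_one]
      refine ENNReal.ofReal_le_ofReal (hle.trans ?_)
      exact Finset.prod_le_one (fun b _ => (H1 _).1.le) fun b _ => (H1 _).2
  calc Z G B H n k w = ENNReal.ofReal h := by rw [Z, if_pos hok, if_pos hal, hh]
    _ ≤ ENNReal.ofReal ((1 - irr G γ w k) * (h / (1 - p o))) := by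
        apply ENNReal.ofReal_le_ofReal
        have h5 : h = (1 - p o) * (h / (1 - p o)) := by field_simp
        calc h = (1 - p o) * (h / (1 - p o)) := h5
          _ ≤ (1 - irr G γ w k) * (h / (1 - p o)) :=
            mul_le_mul_of_nonneg_right (by linarith) (div_nonneg hh0 hq.le)
    _ = ∑ y ∈ (G.neighborFinset (w k)).filter (fun y => 0 < cross w k (w k) y),
          ENNReal.ofReal (trans G γ w k y) * ENNReal.ofReal (h / (1 - p o)) := by
        rw [← irr_compl hG, ENNReal.ofReal_mul (Finset.sum_nonneg fun _ _ => trans_nn _ _ _),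
          ENNReal.ofReal_sum_of_nonneg fun _ _ => trans_nn _ _ _, Finset.sum_mul]
    _ ≤ ∑ y ∈ (G.neighborFinset (w k)).filter (fun y => 0 < cross w k (w k) y),
          ENNReal.ofReal (trans G γ w k y) *
            Z G B H n (k + 1) (Function.update w (k + 1) y) :=
        Finset.sum_le_sum fun y hy => by gcongr; exact hreg y hy
    _ ≤ _ := Finset.sum_le_sum_of_subset (Finset.filter_subset _ _)

/-- sets which depend on finitely many coordinates are measurable -/
lemma meas_local {V : Type} [Countable V] [MeasurableSpace V] [DiscreteMeasurableSpace V]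
    {S : Set (ℕ → V)} (k : ℕ) (h : ∀ w w' : ℕ → V, (∀ j ≤ k, w j = w' j) → w ∈ S → w' ∈ S) :
    MeasurableSet S := by
  rcases isEmpty_or_nonempty V with hV | ⟨⟨v⟩⟩
  · exact Set.Subsingleton.measurableSet (Set.subsingleton_of_subsingleton)
  let r : (ℕ → V) → (Fin (k + 1) → V) := fun w i => w i
  let e : (Fin (k + 1) → V) → ℕ → V := fun a j => if h : j < k + 1 then a ⟨j, h⟩ else v
  have mr : Measurable r := by fun_prop
  have er : ∀ w, ∀ j ≤ k, e (r w) j = w j := fun w j hj => dif_pos (Nat.lt_succ_of_le hj)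
  have hS : S = r ⁻¹' {a | e a ∈ S} := by
    ext w
    exact ⟨fun hw => h w _ (fun j hj => (er w j hj).symm) hw, fun hw => h _ w (er w) hw⟩
  rw [hS]
  exact mr (MeasurableSet.of_discrete)

theorem key (h1 : S_ONE) (h2 : S_GNEXT) (h3 : S_OUT) (h4 : S_VAL) : S_KEY := by
  classical
  intro V _ _ _ _ G _ γ v P hG hP B p H hp Hm H1 Hr hirr x n hval hgood
  have := hP.1
  have mc : MeasurableSet (cyl x n) := meas_local n fun w w' h hw k hk => by
    rw [← h k hk]
    exact hw k hk
  -- monotonicity
  obtain ⟨I, hI⟩ : ∃ I : ℕ → ℝ≥0∞, ∀ k, I k = ∫⁻ w, (cyl x n).indicator (Z G B H n k) w ∂P :=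
    ⟨_, fun _ => rfl⟩
  have hmono : ∀ k, n ≤ k → I k ≤ I (k + 1) := by
    intro k hk
    have hF : ∀ w w' : ℕ → V, (∀ j ≤ k + 1, w j = w' j) →
        (cyl x n).indicator (Z G B H n (k + 1)) w = (cyl x n).indicator (Z G B H n (k + 1)) w' := by
      intro w w' h
      by_cases hw : w ∈ cyl x n
      · have hw' : w' ∈ cyl x n := fun j hj => by
          rw [← h j (by omega)]
          exact hw j hj
        rw [Set.indicator_of_mem hw, Set.indicator_of_mem hw', Z_congr G h]
      · have hw' : w' ∉ cyl x n := fun hc => hw fun j hj => by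
          rw [h j (by omega)]
          exact hc j hj
        rw [Set.indicator_of_notMem hw, Set.indicator_of_notMem hw']
    rw [hI, hI, h1 V G γ v P hP k _ hF]
    refine lintegral_mono_ae ?_
    filter_upwards [h4 V G γ v P hP] with w hw
    by_cases hwc : w ∈ cyl x n
    · rw [Set.indicator_of_mem hwc]
      have hg : Good G w n := good_congr (fun j hj => (hwc j hj).symm) hgood
      refine (key_step h2 h3 hG hp H1 Hr hirr hk (hw.2 k) hg).trans (le_of_eq ?_)
      refine Finset.sum_congr rfl fun y _ => ?_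
      have hwc' : Function.update w (k + 1) y ∈ cyl x n := fun j hj => by
        rw [Function.update_of_ne (by omega)]
        exact hwc j hj
      rw [Set.indicator_of_mem hwc']
    · rw [Set.indicator_of_notMem hwc]
      exact zero_le'
  have hI0 : ENNReal.ofReal (H 0 ^ B.card) * P (cyl x n) ≤ I n := by
    rw [hI, ← lintegral_indicator_const mc]
    refine lintegral_mono fun w => ?_
    refine Set.indicator_le_indicator ?_
    have hokn : ok B n w n := fun j h5 h6 => absurd h6 (by omega)
    rw [Z, if_pos hokn]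
    split_ifs
    · apply ENNReal.ofReal_le_ofReal
      rw [← Finset.prod_const]
      exact Finset.prod_le_prod (fun b _ => (H1 0).1.le) fun b _ => Hm (Nat.zero_le _)
    · rw [← ENNReal.ofReal_one]
      exact ENNReal.ofReal_le_ofReal (pow_le_one₀ (H1 0).1.le (H1 0).2)
  have hIk : ∀ k, n ≤ k → I n ≤ I k := by
    intro k hk
    induction k, hk using Nat.le_induction with
    | base => exact le_rfl
    | succ k hk ih => exact ih.trans (hmono k hk)
  have hIS : ∀ k, I k ≤ P (cyl x n ∩ {w | ok B n w k}) := by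
    intro k
    rw [hI]
    have h5 : ∀ w, (cyl x n).indicator (Z G B H n k) w ≤
        (cyl x n ∩ {w | ok B n w k}).indicator (fun _ => 1) w := by
      intro w
      by_cases hw : w ∈ cyl x n
      · rw [Set.indicator_of_mem hw]
        by_cases ho : ok B n w k
        · have hwo : w ∈ cyl x n ∩ {w | ok B n w k} := ⟨hw, ho⟩
          rw [Set.indicator_of_mem hwo, Z, if_pos ho]
          split_ifs
          · rw [← ENNReal.ofReal_one]
            apply ENNReal.ofReal_le_ofReal
            exact Finset.prod_le_one (fun b _ => (H1 _).1.le) fun b _ => (H1 _).2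
          · exact le_rfl
        · rw [Z, if_neg ho]
          exact zero_le'
      · rw [Set.indicator_of_notMem hw]
        exact zero_le'
    refine (lintegral_mono h5).trans ?_
    refine (lintegral_indicator_const_le _ _).trans ?_
    rw [one_mul]
  -- the limit
  have hmeas : ∀ k, MeasurableSet (cyl x n ∩ {w : ℕ → V | ok B n w k}) := fun k =>
    mc.inter (meas_local k fun w w' h hw => ok_congr h hw)
  have hanti : Antitone fun k => cyl x n ∩ {w : ℕ → V | ok B n w k} := fun k l hkl w hw =>
    ⟨hw.1, ok_anti hkl hw.2⟩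
  have hlim := tendsto_measure_iInter_atTop (μ := P) (fun k => (hmeas k).nullMeasurableSet) hanti
    ⟨0, measure_ne_top _ _⟩
  have hset : ⋂ k, cyl x n ∩ {w : ℕ → V | ok B n w k} = cyl x n ∩ Ev B n := by
    ext w
    simp only [Set.mem_iInter, Set.mem_inter_iff]
    constructor
    · intro h
      exact ⟨(h 0).1, fun k hk ha => (h (k + 1)).2 k hk (Nat.lt_succ_self k) ha⟩
    · rintro ⟨h5, h6⟩ k
      exact ⟨h5, fun j hj _ ha => h6 j hj ha⟩
  rw [hset] at hlim
  refine ge_of_tendsto hlim ?_
  filter_upwards [eventually_ge_atTop n] with k hk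
  exact (hI0.trans (hIk k hk)).trans (hIS k)

end Pool.Agent.H307.DEKey

/-- **S_KEY** -/
theorem Pool.Agent.H307.de_key (h1 : S_ONE) (h2 : S_GNEXT) (h3 : S_OUT) (h4 : S_VAL) : S_KEY :=
  Pool.Agent.H307.DEKey.key h1 h2 h3 h4
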