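import Pool.Agent.H468.QF.Stm
import Pool.Agent.H468.RQ.Val

/-!
# QF: NG (good unramified places)
-/

set_option autoImplicit false
set_option linter.all false

open WithZero

namespace Pool.Agent.H307.QFNG

open Pool.Agent.H468.RQ (add_lt add_le add_eq add_eq' not_sq_exp)

section val

variable {K : Type} [Field K] (v : Valuation K (WithZero (Multiplicative ℤ)))

theorem v_int (n : ℤ) : v (n : K) ≤ 1 := by
  have i1 : ∀ n : ℕ, v (n : K) ≤ 1 := fun n => by
    induction n with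
    | zero => rw [Nat.cast_zero, map_zero]; exact zero_le'
    | succ n ih => rw [Nat.cast_succ]; exact add_le v ih (by rw [map_one])
  rcases Int.natAbs_eq n with h | h
  · rw [h, Int.cast_natCast]; exact i1 _
  · rw [h, Int.cast_neg, Valuation.map_neg, Int.cast_natCast]; exact i1 _

theorem v_unit {ℓ : ℕ} (hℓ : ℓ.Prime) (h : v (ℓ : K) < 1) {n : ℤ} (hn : ¬ (ℓ : ℤ) ∣ n) : v (n : K) = 1 := by
  have h1 : IsCoprime (ℓ : ℤ) n := (Nat.prime_iff_prime_int.1 hℓ).coprime_iff_not_dvd.2 hn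
  obtain ⟨x, y, hxy⟩ := h1
  refine le_antisymm (v_int v n) ?_
  by_contra hc
  rw [not_le] at hc
  have h2 : (1 : K) = (x : K) * (ℓ : K) + (y : K) * (n : K) := by
    have := congrArg (Int.cast : ℤ → K) hxy.symm
    push_cast at this
    exact this
  have h3 : v (1 : K) < 1 := by
    rw [h2]
    refine add_lt v ?_ ?_
    · rw [map_mul]; exact lt_of_le_of_lt (mul_le_of_le_one_left' (v_int v x)) h
    · rw [map_mul]; exact lt_of_le_of_lt (mul_le_of_le_one_left' (v_int v y)) hc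
  rw [map_one] at h3
  exact lt_irrefl _ h3

theorem nd_of_sq {ℓ : ℕ} (hℓ : ℓ.Prime) (h : v (ℓ : K) = exp (-1 : ℤ)) {n : ℤ} (hn : Squarefree n)
    (hs : IsSquare (v (n : K))) : ¬ (ℓ : ℤ) ∣ n := by
  rintro ⟨k, hk⟩
  have hlt : v (ℓ : K) < 1 := by rw [h, ← exp_zero, exp_lt_exp]; norm_num
  have hk' : ¬ (ℓ : ℤ) ∣ k := by
    rintro ⟨q, hq⟩
    have : (ℓ : ℤ) * ℓ ∣ n := ⟨q, by rw [hk, hq]; ring⟩
    exact (Nat.prime_iff_prime_int.1 hℓ).not_isUnit (hn _ this)
  rw [hk] at hs
  push_cast at hs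
  rw [map_mul, h, v_unit v hℓ hlt hk', mul_one] at hs
  exact not_sq_exp hs

theorem sq_cancel {x : K} {n : ℤ} (hx : x ≠ 0) (h1 : IsSquare (v x)) (h2 : IsSquare (x * n)) :
    IsSquare (v (n : K)) := by
  obtain ⟨α, hα⟩ := h1
  obtain ⟨β, hβ⟩ := h2
  have hx0 : v x ≠ 0 := (Valuation.ne_zero_iff v).2 hx
  have hα0 : α ≠ 0 := by
    rintro rfl
    rw [mul_zero] at hα
    exact hx0 hα
  refine ⟨v β / α, ?_⟩
  have h3 := congrArg v hβ
  rw [map_mul, map_mul, hα] at h3
  rw [div_mul_div_comm, ← h3, mul_comm, mul_div_assoc, div_self (mul_ne_zero hα0 hα0), mul_one]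

/-- the places prime to `34` -/
theorem ev_good {x y : K} (hy : y ≠ 0) (h : y ^ 2 = x * (x + 1) * (x + -16)) (h16 : v (-16) = 1)
    (h17 : v (-17) = 1) : IsSquare (v x) ∧ IsSquare (v (x + 1)) := by
  have hx : x ≠ 0 := by
    rintro rfl
    apply hy
    have : y ^ 2 = 0 := by rw [h]; ring
    exact pow_eq_zero_iff two_ne_zero |>.1 this
  have h1' : v 1 = 1 := map_one v
  have hv := congrArg v h
  rw [map_pow, map_mul, map_mul] at hv
  rcases lt_trichotomy (v x) 1 with h1 | h1 | h1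
  · have e1 : v (x + 1) = 1 := by rw [add_eq v (by rw [h1']; exact h1), h1']
    have e2 : v (x + -16) = 1 := by rw [add_eq v (by rw [h16]; exact h1), h16]
    rw [e1, e2, mul_one, mul_one, sq] at hv
    exact ⟨⟨_, hv.symm⟩, by rw [e1]; exact ⟨1, (mul_one 1).symm⟩⟩
  · refine ⟨by rw [h1]; exact ⟨1, (mul_one 1).symm⟩, ?_⟩
    rcases lt_or_eq_of_le (add_le v h1.le h1'.le) with h3 | h3
    · have e2 : v (x + -16) = 1 := by
        have : x + -16 = (x + 1) + -17 := by ring
        rw [this, add_eq v (by rw [h17]; exact h3), h17]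
      rw [h1, e2, mul_one, one_mul, sq] at hv
      exact ⟨_, hv.symm⟩
    · rw [h3]; exact ⟨1, (mul_one 1).symm⟩
  · have e1 : v (x + 1) = v x := add_eq' v (by rw [h1']; exact h1)
    have e2 : v (x + -16) = v x := add_eq' v (by rw [h16]; exact h1)
    rw [e1, e2] at hv
    have hx0 : v x ≠ 0 := (Valuation.ne_zero_iff v).2 hx
    have key : v x = (v y / v x) * (v y / v x) := by
      rw [div_mul_div_comm, ← sq, hv, eq_div_iff (mul_ne_zero hx0 hx0), mul_assoc]
    rw [e1]
    exact ⟨⟨_, key⟩, ⟨_, key⟩⟩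

end val

theorem t_NG : Pool.Agent.H468.QF.S_NG := by
  intro K _ w p hp hp2 hp17 hw u v hu hv hLS
  obtain ⟨x, y, hy, hxy, s1, s2⟩ := hLS
  have hlt : w (p : K) < 1 := by rw [hw, ← exp_zero, exp_lt_exp]; norm_num
  have i2 : ¬ (p : ℤ) ∣ -16 := by
    intro h
    have h' : p ∣ 16 := by
      have := Int.natAbs_dvd_natAbs.2 h
      simpa using this
    have h2 : p ∣ 2 ^ 4 := by norm_num; exact h'
    exact hp2 ((Nat.prime_dvd_prime_iff_eq hp Nat.prime_two).1 (hp.dvd_of_dvd_pow h2))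
  have i17 : ¬ (p : ℤ) ∣ -17 := by
    intro h
    have h' : p ∣ 17 := by
      have := Int.natAbs_dvd_natAbs.2 h
      simpa using this
    exact hp17 ((Nat.prime_dvd_prime_iff_eq hp (by norm_num)).1 h')
  have v16 : w (-16 : K) = 1 := by
    have := v_unit w hp hlt i2
    push_cast at this
    exact this
  have v17 : w (-17 : K) = 1 := by
    have := v_unit w hp hlt i17
    push_cast at this
    exact this
  have hxy' : y ^ 2 = x * (x + 1) * (x + -16) := by
    rw [hxy]; push_cast; ring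
  obtain ⟨o1, o2⟩ := ev_good w hy hxy' v16 v17
  have hx : x ≠ 0 := by
    rintro rfl
    apply hy
    have : y ^ 2 = 0 := by rw [hxy']; ring
    exact pow_eq_zero_iff two_ne_zero |>.1 this
  have hx1 : x + 1 ≠ 0 := by
    intro h0
    apply hy
    have : y ^ 2 = 0 := by rw [hxy', h0]; ring
    exact pow_eq_zero_iff two_ne_zero |>.1 this
  have s2' : IsSquare ((x + 1) * (v : K)) := by
    have : (x + 1) * (v : K) = (x + ((1 : ℤ) : K)) * (v : K) := by push_cast; ring
    rw [this]; exact s2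
  exact ⟨nd_of_sq w hp hw hu (sq_cancel w hx o1 s1), nd_of_sq w hp hw hv (sq_cancel w hx1 o2 s2')⟩

end Pool.Agent.H307.QFNG
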