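import Pool.Agent.H812.SF.Stm2

/-!
Project SF (helper812), problem MP_83fd13_an: part CLO, the conformal map is close to `ρ z`.
-/

set_option autoImplicit false

open Set Filter Topology

namespace Pool.Agent.H307.SfCLO

open Pool.Agent.N229.SC Pool.Agent.H812.SF

theorem rF_pow (P : Par) (hn : P.n ≠ 0) : rF P ^ P.n = Rad :=
  Real.rpow_inv_natCast_pow (by norm_num [Rad]) hn

theorem pow_lt_Rad (P : Par) (hn : P.n ≠ 0) {z : ℂ} (hz : z ∈ Metric.ball (0 : ℂ) (rF P)) :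
    ‖z ^ P.n‖ < Rad := by
  rw [mem_ball_zero_iff] at hz
  rw [norm_pow, ← rF_pow P hn]
  exact pow_lt_pow_left₀ hz (norm_nonneg z) hn

theorem fF_deriv (hEH : S_EH) (P : Par) (hn : P.n ≠ 0) (h : W) {z : ℂ}
    (hz : z ∈ Metric.ball (0 : ℂ) (rF P)) :
    HasDerivAt (fF P h) (P.ρ * Complex.exp (evh (Phi P h) (z ^ P.n) / P.n) *
      (1 + evh (beta P h) (z ^ P.n))) z := by
  have hw : ∀ j, Rad ^ j.natAbs ≤ wW j := wA_le_wW
  obtain ⟨e1, -, -, -, -, -, e7, -⟩ := hEH wW hw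
  have h1 := pow_lt_Rad P hn hz
  have h1' : z ^ P.n ∈ Metric.ball (0 : ℂ) Rad := by
    rw [mem_ball_zero_iff]
    exact h1
  have h2 : HasDerivAt (evh (Phi P h)) (deriv (evh (Phi P h)) (z ^ P.n)) (z ^ P.n) :=
    ((e1 (Phi P h)).differentiableAt (Metric.isOpen_ball.mem_nhds h1')).hasDerivAt
  have h3 : HasDerivAt (fun w : ℂ => evh (Phi P h) (w ^ P.n))
      (deriv (evh (Phi P h)) (z ^ P.n) * ((P.n : ℂ) * z ^ (P.n - 1))) z :=
    HasDerivAt.comp (h₂ := evh (Phi P h)) (h := fun w : ℂ => w ^ P.n) z h2 (hasDerivAt_pow P.n z)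
  have h4 := (h3.div_const (P.n : ℂ)).cexp
  have h5 : HasDerivAt (fF P h) _ z := ((hasDerivAt_id z).const_mul (P.ρ : ℂ)).mul h4
  have h6 := e7 (Phi P h) (z ^ P.n) h1
  have hn' : (P.n : ℂ) ≠ 0 := by exact_mod_cast hn
  refine h5.congr_deriv ?_
  simp only [id_eq]
  unfold beta
  rw [h6]
  have h7 : z * z ^ (P.n - 1) = z ^ P.n := by
    rw [← pow_succ']
    congr 1
    omega
  rw [← h7]
  field_simp

/-- Part CLO: the conformal map is close to `ρ z`, with its derivative. -/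
theorem proof_CLO (hB1 : Pool.Agent.H812.SF.S_B1) (hEH : S_EH) : S_CLO := by
  intro P h s hG hs hs1 z hz
  have hρ : 0 < P.ρ := lt_of_lt_of_le (by norm_num) hG.rho
  have hnu1 := hG.nu1
  have hnu2 := hG.nu2
  have hn : (8000 : ℝ) ≤ P.n := by
    unfold Par.nu at hnu1
    rw [le_div_iff₀ hρ] at hnu1
    have := hG.rho
    linarith
  have hn0 : P.n ≠ 0 := by
    rintro h0
    rw [h0] at hn
    norm_num at hn
  have hnp : (0 : ℝ) < P.n := by linarith
  have hs0 : 0 ≤ s := (norm_nonneg h).trans hs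
  obtain ⟨⟨b1, b2, -, -, -, -⟩, -, -, -⟩ := hB1 P hG h (hs.trans hs1)
  have hnu0 : 0 ≤ P.nu := by linarith
  have hPhi : ‖Phi P h‖ ≤ P.nu * s := b1.trans (by gcongr)
  have hbeta : ‖beta P h‖ ≤ 8 * P.nu * s := b2.trans (by gcongr)
  have hw : ∀ j, Rad ^ j.natAbs ≤ wW j := wA_le_wW
  have hw' : ∀ j, Rad ^ j.natAbs ≤ wA j := fun j => le_rfl
  obtain ⟨-, e2, -, -, -, -, -, -⟩ := hEH wW hw
  obtain ⟨-, e2', -, -, -, -, -, -⟩ := hEH wA hw'
  have h1 := pow_lt_Rad P hn0 hz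
  have h2 := (e2' (beta P h) (z ^ P.n) h1.le).trans hbeta
  have h3 := (e2 (Phi P h) (z ^ P.n) h1.le).trans hPhi
  have hder := (fF_deriv hEH P hn0 h hz).deriv
  obtain ⟨b, hb⟩ : ∃ b, b = evh (beta P h) (z ^ P.n) := ⟨_, rfl⟩
  obtain ⟨u, hu⟩ : ∃ u, u = evh (Phi P h) (z ^ P.n) / (P.n : ℂ) := ⟨_, rfl⟩
  have hun : ‖u‖ ≤ s / P.ρ := by
    rw [hu, norm_div, Complex.norm_natCast, div_le_iff₀ hnp]
    refine h3.trans (le_of_eq ?_)
    unfold Par.nu
    field_simp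
  have hsr : s / P.ρ ≤ 1 / 10 ^ 7 := by
    rw [div_le_iff₀ hρ]
    have := hG.rho
    linarith
  have hsr0 : 0 ≤ s / P.ρ := by positivity
  rw [← hb, ← hu] at hder
  rw [← hb] at h2
  have hexp : ‖Complex.exp u - 1‖ ≤ 101 / 100 * (s / P.ρ) := by
    have k1 : ‖Complex.exp u - 1 - u‖ ≤ ‖u‖ ^ 2 :=
      Complex.norm_exp_sub_one_sub_id_le (by linarith)
    have k2 : ‖Complex.exp u - 1‖ ≤ ‖Complex.exp u - 1 - u‖ + ‖u‖ := by
      have := norm_add_le (Complex.exp u - 1 - u) u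
      rwa [sub_add_cancel] at this
    have k3 : ‖u‖ ^ 2 ≤ 1 / 10 ^ 7 * ‖u‖ := by
      rw [pow_two]
      exact mul_le_mul_of_nonneg_right (hun.trans hsr) (norm_nonneg u)
    linarith
  have hzn : ‖z‖ ≤ 3 / 2 := by
    by_contra hc
    rw [not_le] at hc
    have k1 : ‖z‖ ≤ ‖z‖ ^ P.n := le_self_pow₀ (by linarith) hn0
    rw [← norm_pow] at k1
    have k2 : Rad ≤ 3 / 2 := by norm_num [Rad]
    linarith
  have hf : fF P h z - P.ρ * z = P.ρ * z * (Complex.exp u - 1) := by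
    unfold fF
    rw [← hu]
    ring
  constructor
  · rw [hf, norm_mul, norm_mul, Complex.norm_real, Real.norm_eq_abs, abs_of_pos hρ]
    calc P.ρ * ‖z‖ * ‖Complex.exp u - 1‖ ≤ P.ρ * (3 / 2) * (101 / 100 * (s / P.ρ)) := by gcongr
      _ = 303 / 200 * s := by field_simp; ring
      _ ≤ 2 * s := by linarith
  · rw [hder]
    have h4 : (P.ρ : ℂ) * Complex.exp u * (1 + b) - P.ρ =
        P.ρ * ((Complex.exp u - 1) * (1 + b) + b) := by ring
    rw [h4, norm_mul, Complex.norm_real, Real.norm_eq_abs, abs_of_pos hρ]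
    have hb1 : ‖b‖ ≤ 7 * s := h2.trans (by nlinarith)
    have h5 : ‖(Complex.exp u - 1) * (1 + b) + b‖ ≤ 10 * s := by
      refine (norm_add_le _ _).trans ?_
      rw [norm_mul]
      have h6 : ‖1 + b‖ ≤ 2 := by
        refine (norm_add_le _ _).trans ?_
        rw [norm_one]
        linarith
      have h8 : s / P.ρ ≤ s := by
        rw [div_le_iff₀ hρ]
        have := hG.rho
        nlinarith
      have h7 : ‖Complex.exp u - 1‖ * ‖1 + b‖ ≤ (101 / 100 * (s / P.ρ)) * 2 :=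
        mul_le_mul hexp h6 (norm_nonneg _) (by positivity)
      linarith
    calc P.ρ * ‖(Complex.exp u - 1) * (1 + b) + b‖ ≤ P.ρ * (10 * s) := by gcongr
      _ = 10 * s * P.ρ := by ring

end Pool.Agent.H307.SfCLO
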