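import Mathlib
import Pool.Agent.H307.Weak1

set_option autoImplicit false

/-!
# `H^1` embeds into `L^6` in dimensions 2 and 3
-/

open MeasureTheory Filter Topology Set
open scoped ENNReal NNReal Convolution ContDiff

namespace Pool.Agent.H307

section
variable {E : Type*} [NormedAddCommGroup E] [InnerProductSpace ℝ E] [FiniteDimensional ℝ E]
  [MeasurableSpace E] [BorelSpace E]

/-- Cauchy-Schwarz for `lintegral`, squared. -/
theorem lintegral_mul_sq_le (f g : E → ℝ≥0∞) (hf : Measurable f) (hg : Measurable g) :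
    (∫⁻ x, f x * g x) ^ (2 : ℝ) ≤ (∫⁻ x, f x ^ (2 : ℝ)) * ∫⁻ x, g x ^ (2 : ℝ) := by
  have hpq : (2 : ℝ).HolderConjugate 2 := by constructor <;> norm_num
  have h1 := ENNReal.lintegral_mul_le_Lp_mul_Lq (volume : Measure E) hpq
    hf.aemeasurable hg.aemeasurable
  have h2 := ENNReal.rpow_le_rpow h1 (show (0 : ℝ) ≤ 2 by norm_num)
  rw [ENNReal.mul_rpow_of_nonneg _ _ (by norm_num : (0 : ℝ) ≤ 2), ← ENNReal.rpow_mul,
    ← ENNReal.rpow_mul] at h2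
  norm_num at h2
  simpa using h2

theorem sob_cpt_two (hN : Module.finrank ℝ E = 2) :
    ∃ K : ℝ≥0, ∀ w : E → ℝ, ContDiff ℝ 1 w → HasCompactSupport w →
      ∫⁻ x, ‖w x‖ₑ ^ (6 : ℝ) ≤
        K * ((∫⁻ x, ‖w x‖ₑ ^ (2 : ℝ)) + (∫⁻ x, ‖fderiv ℝ w x‖ₑ ^ (2 : ℝ))) ^ (3 : ℝ) := by
  set C : ℝ≥0 := lintegralPowLePowLIntegralFDerivConst (volume : Measure E) 2 with hC
  refine ⟨36 * C ^ 2, fun w hw hs => ?_⟩
  have hp : Real.HolderConjugate (Module.finrank ℝ E) (2 : ℝ) := by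
    rw [hN]
    constructor <;> norm_num
  have hmw : Measurable fun x => ‖w x‖ₑ := hw.continuous.measurable.enorm
  have hmd : Measurable fun x => ‖fderiv ℝ w x‖ₑ :=
    (hw.continuous_fderiv (by norm_num)).measurable.enorm
  set a : ℝ≥0∞ := ∫⁻ x, ‖w x‖ₑ ^ (2 : ℝ) with ha
  set b : ℝ≥0∞ := ∫⁻ x, ‖fderiv ℝ w x‖ₑ ^ (2 : ℝ) with hb
  -- fourth power
  have h4 : ∫⁻ x, ‖w x‖ₑ ^ (4 : ℝ) ≤ C * (4 * (a * b)) := by
    have h1 := lintegral_pow_le_pow_lintegral_fderiv (volume : Measure E)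
      (u := fun x => w x ^ 2) (hw.pow 2) (by
        exact hs.comp_left (g := fun t : ℝ => t ^ 2) (by norm_num)) hp
    have h2 : ∀ x, ‖w x ^ 2‖ₑ ^ (2 : ℝ) = ‖w x‖ₑ ^ (4 : ℝ) := by
      intro x
      rw [enorm_pow, ← ENNReal.rpow_natCast, ← ENNReal.rpow_mul]
      norm_num
    have h3 : ∀ x, ‖fderiv ℝ (fun x => w x ^ 2) x‖ₑ = 2 * (‖w x‖ₑ * ‖fderiv ℝ w x‖ₑ) := by
      intro x
      have h5 : HasFDerivAt (fun x => w x ^ 2) ((2 • w x ^ (2 - 1)) • fderiv ℝ w x) x :=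
        ((hw.differentiable (by norm_num)) x).hasFDerivAt.pow 2
      rw [h5.fderiv, nsmul_eq_mul, Nat.cast_ofNat, enorm_smul, enorm_mul]
      have : ‖(2 : ℝ)‖ₑ = 2 := by
        rw [Real.enorm_of_nonneg (by norm_num)]; norm_num
      rw [this]
      simp
      ring
    simp only [h2, h3] at h1
    refine h1.trans ?_
    gcongr
    rw [lintegral_const_mul _ (show Measurable (fun x => ‖w x‖ₑ * ‖fderiv ℝ w x‖ₑ) from
      hmw.mul hmd), ENNReal.mul_rpow_of_nonneg _ _ (by norm_num)]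
    have h6 := lintegral_mul_sq_le _ _ hmw hmd
    calc (2 : ℝ≥0∞) ^ (2 : ℝ) * (∫⁻ x, ‖w x‖ₑ * ‖fderiv ℝ w x‖ₑ) ^ (2 : ℝ)
        ≤ (2 : ℝ≥0∞) ^ (2 : ℝ) * (a * b) := by gcongr
      _ = 4 * (a * b) := by
        congr 1
        norm_num
  -- sixth power
  have h6 : ∫⁻ x, ‖w x‖ₑ ^ (6 : ℝ) ≤ C * (9 * ((C * (4 * (a * b))) * b)) := by
    have h1 := lintegral_pow_le_pow_lintegral_fderiv (volume : Measure E)
      (u := fun x => w x ^ 3) (hw.pow 3) (by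
        exact hs.comp_left (g := fun t : ℝ => t ^ 3) (by norm_num)) hp
    have h2 : ∀ x, ‖w x ^ 3‖ₑ ^ (2 : ℝ) = ‖w x‖ₑ ^ (6 : ℝ) := by
      intro x
      rw [enorm_pow, ← ENNReal.rpow_natCast, ← ENNReal.rpow_mul]
      norm_num
    have h3 : ∀ x, ‖fderiv ℝ (fun x => w x ^ 3) x‖ₑ
        = 3 * (‖w x‖ₑ ^ (2 : ℝ) * ‖fderiv ℝ w x‖ₑ) := by
      intro x
      have h5 : HasFDerivAt (fun x => w x ^ 3) ((3 • w x ^ (3 - 1)) • fderiv ℝ w x) x :=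
        ((hw.differentiable (by norm_num)) x).hasFDerivAt.pow 3
      rw [h5.fderiv, nsmul_eq_mul, Nat.cast_ofNat, enorm_smul, enorm_mul]
      have : ‖(3 : ℝ)‖ₑ = 3 := by
        rw [Real.enorm_of_nonneg (by norm_num)]; norm_num
      rw [this, enorm_pow]
      norm_num
      ring
    simp only [h2, h3] at h1
    refine h1.trans ?_
    gcongr
    rw [lintegral_const_mul _ (show Measurable (fun x => ‖w x‖ₑ ^ (2 : ℝ) * ‖fderiv ℝ w x‖ₑ) from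
      (hmw.pow_const _).mul hmd), ENNReal.mul_rpow_of_nonneg _ _ (by norm_num)]
    have h7 := lintegral_mul_sq_le _ _ (hmw.pow_const (2 : ℝ)) hmd
    have h8 : ∀ x, (‖w x‖ₑ ^ (2 : ℝ)) ^ (2 : ℝ) = ‖w x‖ₑ ^ (4 : ℝ) := by
      intro x
      rw [← ENNReal.rpow_mul]
      norm_num
    simp only [h8] at h7
    calc (3 : ℝ≥0∞) ^ (2 : ℝ) * (∫⁻ x, ‖w x‖ₑ ^ (2 : ℝ) * ‖fderiv ℝ w x‖ₑ) ^ (2 : ℝ)
        ≤ (3 : ℝ≥0∞) ^ (2 : ℝ) * ((∫⁻ x, ‖w x‖ₑ ^ (4 : ℝ)) * b) := by gcongr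
      _ ≤ (3 : ℝ≥0∞) ^ (2 : ℝ) * ((C * (4 * (a * b))) * b) := by gcongr
      _ = 9 * ((C * (4 * (a * b))) * b) := by
        congr 1
        norm_num
  refine h6.trans ?_
  have e1 : (C : ℝ≥0∞) * (9 * ((C * (4 * (a * b))) * b)) = (36 * (C : ℝ≥0∞) ^ 2) * (a * b * b) := by
    ring
  rw [e1]
  push_cast
  have e2 : a * b * b ≤ (a + b) ^ (3 : ℝ) := by
    have : (a + b) ^ (3 : ℝ) = (a + b) * (a + b) * (a + b) := by
      have : (3 : ℝ) = ((3 : ℕ) : ℝ) := by norm_num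
      rw [this, ENNReal.rpow_natCast]
      ring
    rw [this]
    have h1 : a ≤ a + b := le_self_add
    have h2 : b ≤ a + b := le_add_self
    gcongr
  gcongr

theorem sob_cpt_three (hN : Module.finrank ℝ E = 3) :
    ∃ K : ℝ≥0, ∀ w : E → ℝ, ContDiff ℝ 1 w → HasCompactSupport w →
      ∫⁻ x, ‖w x‖ₑ ^ (6 : ℝ) ≤
        K * ((∫⁻ x, ‖w x‖ₑ ^ (2 : ℝ)) + (∫⁻ x, ‖fderiv ℝ w x‖ₑ ^ (2 : ℝ))) ^ (3 : ℝ) := by
  set C : ℝ≥0 := SNormLESNormFDerivOfEqConst ℝ (volume : Measure E) 2 with hC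
  refine ⟨C ^ 6, fun w hw hs => ?_⟩
  have h1 := eLpNorm_le_eLpNorm_fderiv_of_eq (μ := (volume : Measure E)) (u := w) hw hs
    (p := 2) (p' := 6) (by norm_num) (by rw [hN]; norm_num) (by rw [hN]; norm_num)
  have h2 := ENNReal.rpow_le_rpow h1 (show (0 : ℝ) ≤ 6 by norm_num)
  have e1 : eLpNorm w ((6 : ℝ≥0) : ℝ≥0∞) volume ^ (6 : ℝ) = ∫⁻ x, ‖w x‖ₑ ^ (6 : ℝ) := by
    have := eLpNorm_nnreal_pow_eq_lintegral (f := w) (μ := (volume : Measure E))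
      (p := (6 : ℝ≥0)) (by norm_num)
    simpa using this
  have e2 : eLpNorm (fderiv ℝ w) ((2 : ℝ≥0) : ℝ≥0∞) volume ^ (6 : ℝ)
      = (∫⁻ x, ‖fderiv ℝ w x‖ₑ ^ (2 : ℝ)) ^ (3 : ℝ) := by
    have := eLpNorm_nnreal_pow_eq_lintegral (f := fderiv ℝ w) (μ := (volume : Measure E))
      (p := (2 : ℝ≥0)) (by norm_num)
    have h3 : ((2 : ℝ≥0) : ℝ) = 2 := by norm_num
    rw [h3] at this
    rw [← this, ← ENNReal.rpow_mul]
    norm_num
  rw [e1, ENNReal.mul_rpow_of_nonneg _ _ (by norm_num), e2] at h2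
  refine h2.trans ?_
  have e3 : (C : ℝ≥0∞) ^ (6 : ℝ) = ((C ^ 6 : ℝ≥0) : ℝ≥0∞) := by
    have : (6 : ℝ) = ((6 : ℕ) : ℝ) := by norm_num
    rw [this, ENNReal.rpow_natCast]
    push_cast
    rfl
  have hC' : (SNormLESNormFDerivOfEqConst ℝ (volume : Measure E) ((2 : ℝ≥0) : ℝ)) = C := rfl
  rw [hC', e3]
  gcongr
  exact le_add_self

/-- `H^1 ⊂ L^6` -/
theorem memLp_six (hN : Module.finrank ℝ E = 2 ∨ Module.finrank ℝ E = 3) {u : E → ℝ} {g : E → E}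
    (hu : MemLp u 2) (hg : MemLp g 2) (hug : HasWeakGrad u g) : MemLp u 6 := by
  obtain ⟨K, hK⟩ : ∃ K : ℝ≥0, ∀ w : E → ℝ, ContDiff ℝ 1 w → HasCompactSupport w →
      ∫⁻ x, ‖w x‖ₑ ^ (6 : ℝ) ≤
        K * ((∫⁻ x, ‖w x‖ₑ ^ (2 : ℝ)) + (∫⁻ x, ‖fderiv ℝ w x‖ₑ ^ (2 : ℝ))) ^ (3 : ℝ) := by
    rcases hN with h | h
    · exact sob_cpt_two h
    · exact sob_cpt_three h
  have hul := hu.locallyIntegrable (by norm_num)
  have hgl := hg.locallyIntegrable (by norm_num)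
  obtain ⟨w, hw1, hw2, hw3, hw4⟩ := exists_mollify u g hul hgl hug
  obtain ⟨χ, C, hC0, hχd, hχs, hχ0, hχ1, hχlim, hχg⟩ := exists_cutoff (E := E)
  set a : ℝ≥0∞ := ∫⁻ x, ‖u x‖ₑ ^ (2 : ℝ) with ha
  set b : ℝ≥0∞ := ∫⁻ x, ‖g x‖ₑ ^ (2 : ℝ) with hb
  have hafin : a < ⊤ := by
    have := lintegral_rpow_enorm_lt_top_of_eLpNorm_lt_top (f := u) (μ := (volume : Measure E))
      (p := 2) (by norm_num) (by norm_num) hu.2
    rw [show (2 : ℝ≥0∞).toReal = 2 by norm_num] at this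
    exact this
  have hbfin : b < ⊤ := by
    have := lintegral_rpow_enorm_lt_top_of_eLpNorm_lt_top (f := g) (μ := (volume : Measure E))
      (p := 2) (by norm_num) (by norm_num) hg.2
    rw [show (2 : ℝ≥0∞).toReal = 2 by norm_num] at this
    exact this
  set D : ℝ≥0∞ := ENNReal.ofReal C with hD
  -- bounds for the cut off mollifications
  set z : ℕ → E → ℝ := fun n x => χ n x * w n x with hz
  have hzC : ∀ n, ContDiff ℝ 1 (z n) := fun n =>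
    ((hχd n).of_le (by exact_mod_cast le_top)).mul ((hw1 n).of_le (by exact_mod_cast le_top))
  have hzs : ∀ n, HasCompactSupport (z n) := fun n => (hχs n).mul_right
  have hχe : ∀ n x, ‖χ n x‖ₑ ≤ 1 := by
    intro n x
    rw [Real.enorm_of_nonneg (hχ0 n x)]
    exact ENNReal.ofReal_le_one.mpr (hχ1 n x)
  have hz2 : ∀ n, ∫⁻ x, ‖z n x‖ₑ ^ (2 : ℝ) ≤ a := by
    intro n
    refine le_trans (lintegral_mono fun x => ?_) (hw3 n 2 (by norm_num))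
    refine ENNReal.rpow_le_rpow ?_ (by norm_num)
    simp only [hz, enorm_mul]
    calc ‖χ n x‖ₑ * ‖w n x‖ₑ ≤ 1 * ‖w n x‖ₑ := by gcongr; exact hχe n x
      _ = ‖w n x‖ₑ := one_mul _
  have hzd : ∀ n, ∫⁻ x, ‖fderiv ℝ (z n) x‖ₑ ^ (2 : ℝ) ≤ 2 * b + 2 * D ^ (2 : ℝ) * a := by
    intro n
    have h1 : ∀ x, ‖fderiv ℝ (z n) x‖ₑ ≤ ‖fderiv ℝ (w n) x‖ₑ + D * ‖w n x‖ₑ := by
      intro x
      have h1 : fderiv ℝ (z n) x = χ n x • fderiv ℝ (w n) x + w n x • fderiv ℝ (χ n) x :=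
        fderiv_mul (((hχd n).differentiable (by simp)) x) (((hw1 n).differentiable (by simp)) x)
      rw [h1]
      have h2 : ‖χ n x • fderiv ℝ (w n) x + w n x • fderiv ℝ (χ n) x‖
          ≤ ‖fderiv ℝ (w n) x‖ + C * ‖w n x‖ := by
        refine (norm_add_le _ _).trans (add_le_add ?_ ?_)
        · rw [norm_smul, Real.norm_of_nonneg (hχ0 n x)]
          exact mul_le_of_le_one_left (norm_nonneg _) (hχ1 n x)
        · rw [norm_smul, mul_comm]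
          apply mul_le_mul_of_nonneg_right _ (norm_nonneg _)
          refine (hχg n x).trans ?_
          apply div_le_self hC0
          have : (0 : ℝ) ≤ n := Nat.cast_nonneg n
          linarith
      rw [← ofReal_norm, ← ofReal_norm, ← ofReal_norm, hD, ← ENNReal.ofReal_mul hC0,
        ← ENNReal.ofReal_add (norm_nonneg _) (by positivity)]
      exact ENNReal.ofReal_le_ofReal h2
    have h2 : ∀ x, ‖fderiv ℝ (z n) x‖ₑ ^ (2 : ℝ)
        ≤ 2 * ‖fderiv ℝ (w n) x‖ₑ ^ (2 : ℝ) + 2 * D ^ (2 : ℝ) * ‖w n x‖ₑ ^ (2 : ℝ) := by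
      intro x
      refine (ENNReal.rpow_le_rpow (h1 x) (by norm_num)).trans ?_
      refine (ENNReal.rpow_add_le_mul_rpow_add_rpow _ _ (by norm_num)).trans ?_
      rw [ENNReal.mul_rpow_of_nonneg _ _ (by norm_num)]
      norm_num
      rw [mul_add, mul_assoc]
    have hm1 : Measurable fun x => ‖fderiv ℝ (w n) x‖ₑ :=
      ((hw1 n).continuous_fderiv (by simp)).measurable.enorm
    have hm2 : Measurable fun x => ‖w n x‖ₑ := (hw1 n).continuous.measurable.enorm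
    refine (lintegral_mono h2).trans ?_
    rw [lintegral_add_left ((hm1.pow_const _).const_mul _), lintegral_const_mul _ (hm1.pow_const _),
      lintegral_const_mul _ (hm2.pow_const _)]
    have h3 := hw4 n 2 (by norm_num)
    have h4 := hw3 n 2 (by norm_num)
    gcongr
  set B : ℝ≥0∞ := K * (a + (2 * b + 2 * D ^ (2 : ℝ) * a)) ^ (3 : ℝ) with hB
  have hDfin : D ^ (2 : ℝ) < ⊤ := ENNReal.rpow_lt_top_of_nonneg (by norm_num) ENNReal.ofReal_ne_top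
  have hBfin : B < ⊤ := by
    refine ENNReal.mul_lt_top ENNReal.coe_lt_top ?_
    apply ENNReal.rpow_lt_top_of_nonneg (by norm_num)
    refine (ENNReal.add_lt_top.mpr ⟨hafin, ENNReal.add_lt_top.mpr ⟨?_, ?_⟩⟩).ne
    · exact ENNReal.mul_lt_top (by norm_num) hbfin
    · exact ENNReal.mul_lt_top (ENNReal.mul_lt_top (by norm_num) hDfin) hafin
  have hz6 : ∀ n, ∫⁻ x, ‖z n x‖ₑ ^ (6 : ℝ) ≤ B := by
    intro n
    refine (hK (z n) (hzC n) (hzs n)).trans ?_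
    rw [hB]
    gcongr
    · exact hz2 n
    · exact hzd n
  have hlim : ∀ᵐ x : E, Tendsto (fun n => ‖z n x‖ₑ ^ (6 : ℝ)) atTop (𝓝 (‖u x‖ₑ ^ (6 : ℝ))) := by
    filter_upwards [hw2] with x hx
    have h1 : Tendsto (fun n => z n x) atTop (𝓝 (u x)) := by
      refine hx.congr' ?_
      filter_upwards [hχlim x] with n hn
      simp only [hz, hn, one_mul]
    exact ((ENNReal.continuous_rpow_const (y := (6 : ℝ))).tendsto _).comp (h1.enorm)
  have hfatou : ∫⁻ x, ‖u x‖ₑ ^ (6 : ℝ) ≤ B := by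
    have h1 : ∫⁻ x, ‖u x‖ₑ ^ (6 : ℝ) = ∫⁻ x, liminf (fun n => ‖z n x‖ₑ ^ (6 : ℝ)) atTop := by
      refine lintegral_congr_ae ?_
      filter_upwards [hlim] with x hx
      exact hx.liminf_eq.symm
    rw [h1]
    refine (lintegral_liminf_le fun n => ((hzC n).continuous.measurable.enorm.pow_const _)).trans ?_
    refine liminf_le_of_frequently_le' (Frequently.of_forall fun n => hz6 n)
  refine ⟨hu.1, ?_⟩
  have h6 : (6 : ℝ≥0∞).toReal = 6 := by norm_num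
  rw [eLpNorm_lt_top_iff_lintegral_rpow_enorm_lt_top (by norm_num) (by norm_num), h6]
  exact lt_of_le_of_lt hfatou hBfin

end

end Pool.Agent.H307
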