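import Mathlib
import Pool.Agent.H307.Weak2

set_option autoImplicit false

/-!
# Extension of weak identities from smooth compactly supported to Schwartz test functions
-/

open MeasureTheory Filter Topology Set
open scoped ENNReal NNReal ContDiff SchwartzMap

namespace Pool.Agent.H307

section
variable {E : Type*} [NormedAddCommGroup E] [InnerProductSpace ℝ E] [FiniteDimensional ℝ E]
  [MeasurableSpace E] [BorelSpace E]

/-- product of two square integrable functions -/
theorem integrable_mul_norm {F G : Type*} [NormedAddCommGroup F] [NormedAddCommGroup G]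
    {a : E → F} {b : E → G} (ha : MemLp a 2) (hb : MemLp b 2) :
    Integrable (fun x => ‖a x‖ * ‖b x‖) := by
  have h1 := ha.norm
  have h2 := hb.norm
  exact MemLp.integrable_mul h1 h2

theorem integrable_pair {F : Type*} [NormedAddCommGroup F] [NormedSpace ℝ F]
    {D : E → E →L[ℝ] F} {B : E → E} {a : E → ℝ} {φ : E → F}
    (hD : MemLp D 2) (hB : MemLp B 2) (ha : MemLp a 2) (hφ : MemLp φ 2) :
    Integrable (fun x => D x (B x) + a x • φ x) := by
  apply Integrable.add
  · refine (integrable_mul_norm hD hB).mono' ?_ (ae_of_all _ fun x => (D x).le_opNorm (B x))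
    exact (ContinuousLinearMap.apply ℝ F).flip.aestronglyMeasurable_comp₂ hD.1 hB.1
  · refine (integrable_mul_norm ha hφ).mono' (ha.1.smul hφ.1) (ae_of_all _ fun x => ?_)
    rw [norm_smul]

/-- extension to smooth functions in `H^1` -/
theorem ext_real {a : E → ℝ} {B : E → E} (ha : MemLp a 2) (hB : MemLp B 2)
    (h : ∀ φ : E → ℝ, ContDiff ℝ ∞ φ → HasCompactSupport φ →
      ∫ x, (fderiv ℝ φ x (B x) + a x * φ x) = 0)
    {φ : E → ℝ} (hφ : ContDiff ℝ ∞ φ) (hφ2 : MemLp φ 2) (hφ3 : MemLp (fderiv ℝ φ) 2) :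
    ∫ x, (fderiv ℝ φ x (B x) + a x * φ x) = 0 := by
  obtain ⟨χ, C, hC0, hχd, hχs, hχ0, hχ1, hχlim, hχg⟩ := exists_cutoff (E := E)
  have hder : ∀ n x, fderiv ℝ (fun y => χ n y * φ y) x
      = χ n x • fderiv ℝ φ x + φ x • fderiv ℝ (χ n) x := fun n x =>
    fderiv_mul (((hχd n).differentiable (by simp)) x) ((hφ.differentiable (by simp)) x)
  have hn : ∀ n, ∫ x, (fderiv ℝ (fun y => χ n y * φ y) x (B x) + a x * (χ n x * φ x)) = 0 :=
    fun n => h _ ((hχd n).mul hφ) ((hχs n).mul_right)
  have hlim : Tendsto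
      (fun n => ∫ x, (fderiv ℝ (fun y => χ n y * φ y) x (B x) + a x * (χ n x * φ x)))
      atTop (𝓝 (∫ x, (fderiv ℝ φ x (B x) + a x * φ x))) := by
    apply tendsto_integral_of_dominated_convergence
      (fun x => ‖fderiv ℝ φ x‖ * ‖B x‖ + C * (‖φ x‖ * ‖B x‖) + ‖a x‖ * ‖φ x‖)
    · intro n
      have h1 : AEStronglyMeasurable (fderiv ℝ (fun y => χ n y * φ y)) volume :=
        (((hχd n).mul hφ).continuous_fderiv (by simp)).aestronglyMeasurable
      have h2 : AEStronglyMeasurable (fun x => fderiv ℝ (fun y => χ n y * φ y) x (B x)) volume :=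
        (ContinuousLinearMap.apply ℝ ℝ).flip.aestronglyMeasurable_comp₂ h1 hB.1
      exact h2.add (ha.1.mul ((hχd n).mul hφ).continuous.aestronglyMeasurable)
    · exact ((integrable_mul_norm hφ3 hB).add ((integrable_mul_norm hφ2 hB).const_mul C)).add
        (integrable_mul_norm ha hφ2)
    · intro n
      refine ae_of_all _ fun x => ?_
      rw [hder]
      have h1 : ‖(χ n x • fderiv ℝ φ x + φ x • fderiv ℝ (χ n) x) (B x)‖
          ≤ ‖fderiv ℝ φ x‖ * ‖B x‖ + C * (‖φ x‖ * ‖B x‖) := by
        simp only [_root_.add_apply, _root_.smul_apply]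
        refine (norm_add_le _ _).trans (add_le_add ?_ ?_)
        · rw [norm_smul, Real.norm_of_nonneg (hχ0 n x)]
          calc χ n x * ‖fderiv ℝ φ x (B x)‖ ≤ 1 * ‖fderiv ℝ φ x (B x)‖ :=
                mul_le_mul_of_nonneg_right (hχ1 n x) (norm_nonneg _)
            _ = ‖fderiv ℝ φ x (B x)‖ := one_mul _
            _ ≤ _ := (fderiv ℝ φ x).le_opNorm (B x)
        · rw [norm_smul]
          have h2 : ‖fderiv ℝ (χ n) x (B x)‖ ≤ C * ‖B x‖ := by
            refine ((fderiv ℝ (χ n) x).le_opNorm (B x)).trans ?_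
            apply mul_le_mul_of_nonneg_right _ (norm_nonneg _)
            refine (hχg n x).trans ?_
            apply div_le_self hC0
            have : (0 : ℝ) ≤ n := Nat.cast_nonneg n
            linarith
          calc ‖φ x‖ * ‖fderiv ℝ (χ n) x (B x)‖ ≤ ‖φ x‖ * (C * ‖B x‖) :=
                mul_le_mul_of_nonneg_left h2 (norm_nonneg _)
            _ = C * (‖φ x‖ * ‖B x‖) := by ring
      refine (norm_add_le _ _).trans (add_le_add h1 ?_)
      rw [norm_mul, norm_mul, Real.norm_of_nonneg (hχ0 n x)]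
      calc ‖a x‖ * (χ n x * ‖φ x‖) ≤ ‖a x‖ * (1 * ‖φ x‖) := by
            gcongr
            exact hχ1 n x
        _ = _ := by rw [one_mul]
    · refine ae_of_all _ fun x => ?_
      have h1 : Tendsto (fun n => fderiv ℝ (χ n) x) atTop (𝓝 0) := by
        refine squeeze_zero_norm (fun n => hχg n x) ?_
        have := (tendsto_one_div_add_atTop_nhds_zero_nat (𝕜 := ℝ)).const_mul C
        simpa [div_eq_mul_inv] using this
      have h2 : Tendsto (fun n => χ n x) atTop (𝓝 1) := by
        refine tendsto_const_nhds.congr' ?_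
        filter_upwards [hχlim x] with n hn
        rw [hn]
      have h3 : Tendsto (fun n => χ n x • fderiv ℝ φ x + φ x • fderiv ℝ (χ n) x) atTop
          (𝓝 ((1 : ℝ) • fderiv ℝ φ x + φ x • (0 : E →L[ℝ] ℝ))) :=
        (h2.smul_const _).add (h1.const_smul _)
      rw [one_smul, smul_zero, add_zero] at h3
      have h4 : Tendsto (fun n => fderiv ℝ (fun y => χ n y * φ y) x (B x)) atTop
          (𝓝 (fderiv ℝ φ x (B x))) := by
        simp only [hder]
        exact ((ContinuousLinearMap.apply ℝ ℝ (B x)).continuous.tendsto _).comp h3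
      have h5 : Tendsto (fun n => a x * (χ n x * φ x)) atTop (𝓝 (a x * φ x)) := by
        have := (h2.mul_const (φ x)).const_mul (a x)
        rwa [one_mul] at this
      exact h4.add h5
  have h0 : Tendsto (fun _ : ℕ => (0 : ℝ)) atTop (𝓝 (∫ x, (fderiv ℝ φ x (B x) + a x * φ x))) := by
    refine hlim.congr fun n => ?_
    exact hn n
  exact (tendsto_nhds_unique h0 tendsto_const_nhds)

/-- extension to Schwartz functions -/
theorem ext_schwartz {a : E → ℝ} {B : E → E} (ha : MemLp a 2) (hB : MemLp B 2)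
    (h : ∀ φ : E → ℝ, ContDiff ℝ ∞ φ → HasCompactSupport φ →
      ∫ x, (fderiv ℝ φ x (B x) + a x * φ x) = 0)
    (φ : 𝓢(E, ℂ)) :
    ∫ x, (fderiv ℝ φ x (B x) + a x • φ x) = 0 := by
  have hφ2 : MemLp (φ : E → ℂ) 2 := φ.memLp 2
  have hφ3 : MemLp (fderiv ℝ (φ : E → ℂ)) 2 := by
    have := (SchwartzMap.fderivCLM ℝ E ℂ φ).memLp 2
    exact this
  have hd : ContDiff ℝ ∞ (φ : E → ℂ) := φ.smooth'
  have hdiff : ∀ x, HasFDerivAt (φ : E → ℂ) (fderiv ℝ φ x) x := fun x =>
    ((hd.differentiable (by simp)) x).hasFDerivAt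
  have hint : Integrable (fun x => fderiv ℝ φ x (B x) + a x • φ x) :=
    integrable_pair hφ3 hB ha hφ2
  have key : ∀ (L : ℂ →L[ℝ] ℝ), L (∫ x, (fderiv ℝ φ x (B x) + a x • φ x)) = 0 := by
    intro L
    rw [← L.integral_comp_comm hint]
    have h1 : ∀ x, fderiv ℝ (fun y => L (φ y)) x = L.comp (fderiv ℝ φ x) := fun x =>
      (L.hasFDerivAt.comp x (hdiff x)).fderiv
    have h2 := ext_real ha hB h (φ := fun y => L (φ y)) (L.contDiff.comp hd)
      (L.comp_memLp' hφ2) (by
        have : fderiv ℝ (fun y => L (φ y)) = fun x =>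
          (ContinuousLinearMap.compL ℝ E ℂ ℝ L) (fderiv ℝ φ x) := by
          funext x
          rw [h1]
          rfl
        rw [this]
        exact (ContinuousLinearMap.compL ℝ E ℂ ℝ L).comp_memLp' hφ3)
    rw [← h2]
    congr 1
    funext x
    rw [h1, map_add, map_smul]
    rfl
  apply Complex.ext
  · exact key Complex.reCLM
  · exact key Complex.imCLM

end

end Pool.Agent.H307
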