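import Mathlib
import Pool.Agent.H307.Weak3

set_option autoImplicit false

/-!
# Fourier regularity for `-Δu + λ u = f`
-/

open MeasureTheory Filter Topology Set FourierTransform
open scoped ENNReal NNReal ContDiff SchwartzMap Laplacian

namespace Pool.Agent.H307

section
variable {E : Type*} [NormedAddCommGroup E] [InnerProductSpace ℝ E] [FiniteDimensional ℝ E]
  [MeasurableSpace E] [BorelSpace E]

/-- self adjointness of the Fourier transform for integrable functions -/
theorem fourier_flip {f g : E → ℂ} (hf : Integrable f) (hg : Integrable g) :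
    ∫ ξ, 𝓕 f ξ * g ξ = ∫ x, f x * 𝓕 g x := by
  have h := VectorFourier.integral_fourierIntegral_smul_eq_flip (μ := (volume : Measure E))
    (ν := (volume : Measure E)) (L := innerₗ E) Real.continuous_fourierChar continuous_inner hf hg
  simp only [flip_innerₗ, smul_eq_mul] at h
  exact h

/-- two locally integrable functions agreeing as distributions on Schwartz functions agree a.e. -/
theorem ae_eq_of_schwartz {f g : E → ℂ} (hf : LocallyIntegrable f) (hg : LocallyIntegrable g)
    (h : ∀ φ : 𝓢(E, ℂ), ∫ x, φ x * f x = ∫ x, φ x * g x) : f =ᵐ[volume] g := by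
  apply ae_eq_of_integral_contDiff_smul_eq hf hg
  intro φ hφ hφs
  have hs : HasCompactSupport (fun x => (φ x : ℂ)) :=
    hφs.comp_left (g := fun t : ℝ => (t : ℂ)) Complex.ofReal_zero
  have hd : ContDiff ℝ ∞ (fun x => (φ x : ℂ)) := Complex.ofRealCLM.contDiff.comp hφ
  have h1 := h (hs.toSchwartzMap hd)
  simpa using h1

/-- The equation `Δ u = λ u - f` in the sense of tempered distributions, with `u, f ∈ L^2` and
dimension at most three, forces `u` to be the Fourier transform of an integrable function. -/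
theorem exists_L1 (hN : Module.finrank ℝ E < 4) {u f : E → ℝ} {lam : ℝ}
    (hu : MemLp u 2) (hf : MemLp f 2)
    (h : ∀ φ : 𝓢(E, ℂ), ∫ x, (Δ φ : 𝓢(E, ℂ)) x * u x = ∫ x, φ x * (lam * u x - f x)) :
    ∃ w : E → ℂ, Integrable w ∧ (fun x => (u x : ℂ)) =ᵐ[volume] 𝓕 w := by
  have huc : MemLp (fun x => (u x : ℂ)) 2 := hu.ofReal
  have hfc : MemLp (fun x => (f x : ℂ)) 2 := hf.ofReal
  set U : Lp ℂ 2 (volume : Measure E) := huc.toLp _ with hU
  set F : Lp ℂ 2 (volume : Measure E) := hfc.toLp _ with hF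
  have hUae : (U : E → ℂ) =ᵐ[volume] fun x => (u x : ℂ) := huc.coeFn_toLp
  have hFae : (F : E → ℂ) =ᵐ[volume] fun x => (f x : ℂ) := hfc.coeFn_toLp
  set V : Lp ℂ 2 (volume : Measure E) := (lam : ℂ) • U - F with hV
  have hVae : (V : E → ℂ) =ᵐ[volume] fun x => ((lam * u x - f x : ℝ) : ℂ) := by
    have h1 := Lp.coeFn_sub ((lam : ℂ) • U) F
    have h2 := Lp.coeFn_smul (lam : ℂ) U
    filter_upwards [h1, h2, hUae, hFae] with x a1 a2 a3 a4
    rw [hV, a1, Pi.sub_apply, a2, Pi.smul_apply, a3, a4]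
    push_cast
    rw [smul_eq_mul]
  have hlap : Δ (U : 𝓢'(E, ℂ)) = (V : 𝓢'(E, ℂ)) := by
    ext φ
    rw [TemperedDistribution.laplacian_apply_apply, Lp.toTemperedDistribution_apply,
      Lp.toTemperedDistribution_apply]
    have h1 : ∫ x, (Δ φ : 𝓢(E, ℂ)) x • (U : E → ℂ) x = ∫ x, (Δ φ : 𝓢(E, ℂ)) x * u x := by
      refine integral_congr_ae ?_
      filter_upwards [hUae] with x hx
      rw [hx, smul_eq_mul]
    have h2 : ∫ x, φ x • (V : E → ℂ) x = ∫ x, φ x * (lam * u x - f x) := by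
      refine integral_congr_ae ?_
      filter_upwards [hVae] with x hx
      rw [hx, smul_eq_mul]
      push_cast
      rfl
    rw [h1, h2]
    exact h φ
  have hbes : TemperedDistribution.besselPotential E ℂ 2 (U : 𝓢'(E, ℂ))
      = (U : 𝓢'(E, ℂ)) - (((2 * Real.pi) ^ 2)⁻¹ : ℝ) • Δ (U : 𝓢'(E, ℂ)) := by
    have hg1 : (fun _ : E => (1 : ℂ)).HasTemperateGrowth := by fun_prop
    have hg2 : (fun x : E => Complex.ofReal (‖x‖ ^ 2)).HasTemperateGrowth := by fun_prop
    have e1 : (fun x : E => (((1 + ‖x‖ ^ 2) ^ ((2 : ℝ) / 2) : ℝ) : ℂ))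
        = (fun _ : E => (1 : ℂ)) + (fun x : E => Complex.ofReal (‖x‖ ^ 2)) := by
      funext x
      simp
    have e2 : TemperedDistribution.besselPotential E ℂ 2 (U : 𝓢'(E, ℂ))
        = TemperedDistribution.fourierMultiplierCLM ℂ (fun _ : E => (1 : ℂ)) (U : 𝓢'(E, ℂ))
          + TemperedDistribution.fourierMultiplierCLM ℂ
            (fun x : E => Complex.ofReal (‖x‖ ^ 2)) (U : 𝓢'(E, ℂ)) := by
      unfold TemperedDistribution.besselPotential
      rw [e1]
      rw [TemperedDistribution.fourierMultiplierCLM_apply,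
        TemperedDistribution.fourierMultiplierCLM_apply,
        TemperedDistribution.fourierMultiplierCLM_apply,
        TemperedDistribution.smulLeftCLM_add hg1 hg2]
      rw [_root_.add_apply, FourierTransform.fourierInv_add]
    rw [e2, TemperedDistribution.laplacian_eq_fourierMultiplierCLM,
      TemperedDistribution.fourierMultiplierCLM_const, smul_smul]
    have e3 : ((2 * Real.pi) ^ 2)⁻¹ * -(2 * Real.pi) ^ 2 = -1 := by
      have : (2 * Real.pi) ^ 2 ≠ 0 := by positivity
      field_simp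
    rw [e3]
    simp
  have hmem : TemperedDistribution.MemSobolev 2 2 (U : 𝓢'(E, ℂ)) := by
    refine ⟨U - ((((2 * Real.pi) ^ 2)⁻¹ : ℝ) : ℂ) • V, ?_⟩
    rw [hbes, hlap]
    have hh : Lp.toTemperedDistributionCLM ℂ (volume : Measure E) 2
        (U - ((((2 * Real.pi) ^ 2)⁻¹ : ℝ) : ℂ) • V)
        = Lp.toTemperedDistributionCLM ℂ (volume : Measure E) 2 U
          - ((((2 * Real.pi) ^ 2)⁻¹ : ℝ) : ℂ) •
            Lp.toTemperedDistributionCLM ℂ (volume : Measure E) 2 V := by
      rw [map_sub, map_smul]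
    rw [← Lp.toTemperedDistributionCLM_apply (U - ((((2 * Real.pi) ^ 2)⁻¹ : ℝ) : ℂ) • V), hh,
      Complex.coe_smul]
    rfl
  obtain ⟨v, hv⟩ := hmem.fourier_memL1 (by
    have : (Module.finrank ℝ E : ℝ) < 4 := by exact_mod_cast hN
    linarith)
  have hvint : Integrable (v : E → ℂ) := L1.integrable_coeFn v
  refine ⟨fun x => (v : E → ℂ) (-x), hvint.comp_neg, ?_⟩
  have hwint : Integrable (fun x => (v : E → ℂ) (-x)) := hvint.comp_neg
  have hcont : Continuous (𝓕 (fun x => (v : E → ℂ) (-x))) := by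
    have := VectorFourier.fourierIntegral_continuous (L := innerₗ E)
      Real.continuous_fourierChar continuous_inner hwint
    exact this
  apply ae_eq_of_schwartz (huc.locallyIntegrable (by norm_num)) hcont.locallyIntegrable
  intro φ
  have h1 : ∫ x, φ x * (u x : ℂ) = (U : 𝓢'(E, ℂ)) φ := by
    rw [Lp.toTemperedDistribution_apply]
    refine integral_congr_ae ?_
    filter_upwards [hUae] with x hx
    rw [hx, smul_eq_mul]
  have h2 : (U : 𝓢'(E, ℂ)) φ = (𝓕 (U : 𝓢'(E, ℂ))) (𝓕⁻ φ) := by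
    rw [TemperedDistribution.fourier_apply, FourierTransform.fourier_fourierInv_eq]
  rw [h1, h2, hv, Lp.toTemperedDistribution_apply]
  have h3 : ∫ x, (𝓕⁻ φ : 𝓢(E, ℂ)) x • (v : E → ℂ) x
      = ∫ x, 𝓕 (φ : E → ℂ) x * (v : E → ℂ) (-x) := by
    have h4 : ∫ x, 𝓕 (φ : E → ℂ) x * (v : E → ℂ) (-x)
        = ∫ x, 𝓕 (φ : E → ℂ) (-x) * (v : E → ℂ) (- -x) :=
      (integral_neg_eq_self (fun x => 𝓕 (φ : E → ℂ) x * (v : E → ℂ) (-x)) volume).symm
    rw [h4]
    congr 1
    funext x
    rw [neg_neg, smul_eq_mul, SchwartzMap.fourierInv_coe, Real.fourierInv_eq_fourier_neg]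
  rw [h3]
  exact fourier_flip φ.integrable hwint

end

end Pool.Agent.H307
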