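import Mathlib
import Pool.Agent.H307.Weak4

set_option autoImplicit false

/-!
# From integrable Fourier data to classical regularity
-/

open MeasureTheory Filter Topology Set FourierTransform
open scoped ENNReal NNReal ContDiff SchwartzMap Laplacian

namespace Pool.Agent.H307

section
variable {E : Type*} [NormedAddCommGroup E] [InnerProductSpace ℝ E] [FiniteDimensional ℝ E]
  [MeasurableSpace E] [BorelSpace E]

theorem continuous_fourier_of_integrable {w : E → ℂ} (hw : Integrable w) : Continuous (𝓕 w) := by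
  have := VectorFourier.fourierIntegral_continuous (L := innerₗ E)
      Real.continuous_fourierChar continuous_inner hw
  exact this

theorem fourier_linear {a b : E → ℂ} (ha : Integrable a) (hb : Integrable b) (c : ℂ) (x : E) :
    𝓕 (fun ξ => c * a ξ - b ξ) x = c * 𝓕 a x - 𝓕 b x := by
  simp only [Real.fourier_eq]
  have h1 : Integrable (fun v => 𝐞 (-inner ℝ v x) • a v) :=
    (Real.fourierIntegral_convergent_iff x).2 ha
  have h2 : Integrable (fun v => 𝐞 (-inner ℝ v x) • b v) :=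
    (Real.fourierIntegral_convergent_iff x).2 hb
  rw [← integral_const_mul, ← integral_sub (h1.const_mul c) h2]
  congr 1
  funext v
  simp only [Circle.smul_def, smul_eq_mul]
  ring

/-- Laplacian of the Fourier transform -/
theorem lap_fourier {w : E → ℂ} (h0 : Integrable w)
    (h2 : Integrable (fun ξ => ‖ξ‖ ^ 2 * ‖w ξ‖)) :
    ContDiff ℝ 2 (𝓕 w) ∧
      ∀ x, Δ (𝓕 w) x = 𝓕 (fun ξ => ((-((2 * Real.pi) ^ 2 * ‖ξ‖ ^ 2) : ℝ) : ℂ) * w ξ) x := by
  have hm : AEStronglyMeasurable w volume := h0.1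
  have hall : ∀ n : ℕ, (n : ℕ∞) ≤ 2 → Integrable (fun v => ‖v‖ ^ n * ‖w v‖) := by
    intro n hn
    have hn2 : n ≤ 2 := by exact_mod_cast hn
    refine (h0.norm.add h2).mono' ?_ (ae_of_all _ fun v => ?_)
    · exact (continuous_norm.pow n).aestronglyMeasurable.mul hm.norm
    · rw [Real.norm_of_nonneg (by positivity)]
      have h3 : ‖v‖ ^ n ≤ 1 + ‖v‖ ^ 2 := by
        rcases le_or_gt ‖v‖ 1 with h | h
        · have : ‖v‖ ^ n ≤ 1 := pow_le_one₀ (norm_nonneg _) h
          have : 0 ≤ ‖v‖ ^ 2 := by positivity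
          linarith
        · have : ‖v‖ ^ n ≤ ‖v‖ ^ 2 := pow_le_pow_right₀ h.le hn2
          linarith
      calc ‖v‖ ^ n * ‖w v‖ ≤ (1 + ‖v‖ ^ 2) * ‖w v‖ :=
            mul_le_mul_of_nonneg_right h3 (norm_nonneg _)
        _ = ‖w v‖ + ‖v‖ ^ 2 * ‖w v‖ := by ring
  have hC := Real.contDiff_fourier (N := 2) hall
  refine ⟨by exact_mod_cast hC, fun x => ?_⟩
  set b := stdOrthonormalBasis ℝ E with hb
  rw [InnerProductSpace.laplacian_eq_iteratedFDeriv_orthonormalBasis _ b]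
  have hit := Real.iteratedFDeriv_fourier (N := 2) hall hm (n := 2) (by norm_num)
  have hint2 : Integrable (fun v => VectorFourier.fourierPowSMulRight (innerSL ℝ) w v 2) :=
    VectorFourier.integrable_fourierPowSMulRight (innerSL ℝ) h2 hm
  simp only [hit]
  have h3 : ∀ i, 𝓕 (fun v => VectorFourier.fourierPowSMulRight (innerSL ℝ) w v 2) x ![b i, b i]
      = ∫ v, 𝐞 (-inner ℝ v x) •
        (((-((2 * Real.pi) ^ 2) * (inner ℝ v (b i)) ^ 2 : ℝ) : ℂ) * w v) := by
    intro i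
    rw [Real.fourier_continuousMultilinearMap_apply hint2, Real.fourier_eq]
    congr 1
    funext v
    congr 1
    rw [VectorFourier.fourierPowSMulRight_apply]
    simp only [Fin.prod_univ_two, Matrix.cons_val_zero, Matrix.cons_val_one,
      Complex.real_smul, smul_eq_mul]
    have hin : ((innerSL ℝ) v) (b i) = inner ℝ v (b i) := rfl
    rw [hin]
    push_cast
    have : (-(2 * (Real.pi : ℂ) * Complex.I)) ^ 2 = -((2 * (Real.pi : ℂ)) ^ 2) := by
      rw [neg_sq, mul_pow, Complex.I_sq]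
      ring
    rw [this]
    ring
  simp only [h3]
  rw [← integral_finsetSum]
  · rw [Real.fourier_eq]
    congr 1
    funext v
    rw [← Finset.smul_sum, ← Finset.sum_mul]
    congr 2
    have h4 : ∑ i, (inner ℝ v (b i) : ℝ) ^ 2 = ‖v‖ ^ 2 := by
      have h5 : ∑ i, ‖(inner ℝ v (b i) : ℝ)‖ ^ 2 = ‖v‖ ^ 2 :=
        OrthonormalBasis.sum_sq_norm_inner_left b v
      simpa using h5
    rw [← Complex.ofReal_sum, ← Finset.mul_sum, h4]
    push_cast
    ring
  · intro i _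
    refine (Real.fourierIntegral_convergent_iff x).2 ?_
    refine ((h2.const_mul ((2 * Real.pi) ^ 2))).mono' ?_ (ae_of_all _ fun v => ?_)
    · refine AEStronglyMeasurable.mul ?_ hm
      refine (Continuous.aestronglyMeasurable ?_)
      apply Complex.continuous_ofReal.comp
      exact continuous_const.mul ((continuous_id.inner continuous_const).pow 2)
    · rw [norm_mul, Complex.norm_real, norm_mul, norm_neg, Real.norm_of_nonneg (by positivity),
        norm_pow]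
      have h6 : ‖(inner ℝ v (b i) : ℝ)‖ ≤ ‖v‖ := by
        have := norm_inner_le_norm (𝕜 := ℝ) v (b i)
        rwa [b.norm_eq_one i, mul_one] at this
      have h7 : ‖(inner ℝ v (b i) : ℝ)‖ ^ 2 ≤ ‖v‖ ^ 2 := pow_le_pow_left₀ (norm_nonneg _) h6 2
      calc (2 * Real.pi) ^ 2 * ‖(inner ℝ v (b i) : ℝ)‖ ^ 2 * ‖w v‖
          ≤ (2 * Real.pi) ^ 2 * ‖v‖ ^ 2 * ‖w v‖ := by gcongr
        _ = (2 * Real.pi) ^ 2 * (‖v‖ ^ 2 * ‖w v‖) := by ring

/-- the equation on the Fourier side -/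
theorem fourier_side {a b : E → ℂ} (ha : Integrable a) (hb : Integrable b) {lam : ℝ}
    (h : ∀ φ : 𝓢(E, ℂ), ∫ x, (Δ φ : 𝓢(E, ℂ)) x * 𝓕 a x = ∫ x, φ x * (lam * 𝓕 a x - 𝓕 b x)) :
    (fun ξ => (((lam + (2 * Real.pi) ^ 2 * ‖ξ‖ ^ 2 : ℝ)) : ℂ) * a ξ) =ᵐ[volume] b := by
  have hcont : Continuous (fun ξ : E => ((lam + (2 * Real.pi) ^ 2 * ‖ξ‖ ^ 2 : ℝ) : ℂ)) := by
    apply Complex.continuous_ofReal.comp
    fun_prop
  apply ae_eq_of_schwartz
  · have := LocallyIntegrable.continuous_smul (μ := (volume : Measure E)) hcont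
      ha.locallyIntegrable
    exact this
  · exact hb.locallyIntegrable
  intro ψ
  set φ : 𝓢(E, ℂ) := 𝓕⁻ ψ with hφ
  have h1 := h φ
  have hFφ : 𝓕 (φ : E → ℂ) = ψ := by
    rw [← SchwartzMap.fourier_coe, hφ, FourierTransform.fourier_fourierInv_eq]
  have hFlap : ∀ x, 𝓕 ((Δ φ : 𝓢(E, ℂ)) : E → ℂ) x
      = ((-((2 * Real.pi) ^ 2 * ‖x‖ ^ 2) : ℝ) : ℂ) * ψ x := by
    intro x
    rw [← SchwartzMap.fourier_coe, SchwartzMap.laplacian_eq_fourierMultiplierCLM,
      SchwartzMap.fourierMultiplierCLM_apply, FourierTransform.fourier_smul,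
      FourierTransform.fourier_fourierInv_eq, hφ, FourierTransform.fourier_fourierInv_eq]
    rw [_root_.smul_apply, SchwartzMap.smulLeftCLM_apply_apply (by fun_prop)]
    simp only [Complex.real_smul]
    push_cast
    ring
  have hlapint : Integrable ((Δ φ : 𝓢(E, ℂ)) : E → ℂ) := (Δ φ : 𝓢(E, ℂ)).integrable
  have hFa := continuous_fourier_of_integrable ha
  have hFb := continuous_fourier_of_integrable hb
  have h2 : ∫ x, (Δ φ : 𝓢(E, ℂ)) x * 𝓕 a x
      = ∫ x, ((-((2 * Real.pi) ^ 2 * ‖x‖ ^ 2) : ℝ) : ℂ) * ψ x * a x := by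
    rw [← fourier_flip hlapint ha]
    congr 1
    funext x
    rw [hFlap]
  have hbd : ∀ {c : E → ℂ}, Integrable c → ∀ x, ‖𝓕 c x‖ ≤ ∫ v, ‖c v‖ := fun {c} hc x =>
    VectorFourier.norm_fourierIntegral_le_integral_norm _ _ _ _ _
  have hprodint : ∀ {c : E → ℂ}, Integrable c → Integrable (fun x => φ x * 𝓕 c x) := by
    intro c hc
    refine (φ.integrable.norm.mul_const (∫ v, ‖c v‖)).mono'
      (φ.continuous.aestronglyMeasurable.mul
        (continuous_fourier_of_integrable hc).aestronglyMeasurable) (ae_of_all _ fun x => ?_)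
    rw [norm_mul]
    exact mul_le_mul_of_nonneg_left (hbd hc x) (norm_nonneg _)
  have h3 : ∫ x, φ x * (lam * 𝓕 a x - 𝓕 b x)
      = (lam : ℂ) * (∫ x, ψ x * a x) - ∫ x, ψ x * b x := by
    have e1 : ∀ x, φ x * (lam * 𝓕 a x - 𝓕 b x)
        = (lam : ℂ) * (φ x * 𝓕 a x) - φ x * 𝓕 b x := fun x => by ring
    simp only [e1]
    rw [integral_sub ((hprodint ha).const_mul _) (hprodint hb), integral_const_mul,
      ← fourier_flip φ.integrable ha, ← fourier_flip φ.integrable hb, hFφ]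
  rw [h2, h3] at h1
  -- rearrange
  have hψa : Integrable (fun x => ψ x * a x) := by
    obtain ⟨C, hC⟩ := ψ.toBoundedContinuousFunction.isBounded_range.exists_norm_le
    refine (ha.norm.const_mul C).mono' (ψ.continuous.aestronglyMeasurable.mul ha.1)
      (ae_of_all _ fun x => ?_)
    rw [norm_mul]
    exact mul_le_mul_of_nonneg_right (hC _ ⟨x, rfl⟩) (norm_nonneg _)
  have hψ2 : Integrable (fun x => ((-((2 * Real.pi) ^ 2 * ‖x‖ ^ 2) : ℝ) : ℂ) * ψ x * a x) := by
    -- the factor is the Schwartz function `𝓕 (Δ φ)`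
    set η : 𝓢(E, ℂ) := 𝓕 (Δ φ : 𝓢(E, ℂ)) with hη
    obtain ⟨C, hC⟩ := η.toBoundedContinuousFunction.isBounded_range.exists_norm_le
    have he : ∀ x, ((-((2 * Real.pi) ^ 2 * ‖x‖ ^ 2) : ℝ) : ℂ) * ψ x = η x := by
      intro x
      rw [← hFlap x, hη, SchwartzMap.fourier_coe]
    simp only [he]
    refine (ha.norm.const_mul C).mono' (η.continuous.aestronglyMeasurable.mul ha.1)
      (ae_of_all _ fun x => ?_)
    rw [norm_mul]
    exact mul_le_mul_of_nonneg_right (hC _ ⟨x, rfl⟩) (norm_nonneg _)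
  have h4 : ∫ x, ψ x * ((((lam + (2 * Real.pi) ^ 2 * ‖x‖ ^ 2 : ℝ)) : ℂ) * a x)
      = (lam : ℂ) * (∫ x, ψ x * a x)
        - ∫ x, ((-((2 * Real.pi) ^ 2 * ‖x‖ ^ 2) : ℝ) : ℂ) * ψ x * a x := by
    rw [← integral_const_mul, ← integral_sub (hψa.const_mul _) hψ2]
    congr 1
    funext x
    push_cast
    ring
  rw [h4, h1]
  ring

/-- classical regularity and the pointwise equation -/
theorem classical_of_fourier {a b : E → ℂ} (ha : Integrable a) (hb : Integrable b) {lam : ℝ}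
    (hlam : 0 < lam)
    (h : ∀ φ : 𝓢(E, ℂ), ∫ x, (Δ φ : 𝓢(E, ℂ)) x * 𝓕 a x = ∫ x, φ x * (lam * 𝓕 a x - 𝓕 b x)) :
    ContDiff ℝ 2 (𝓕 a) ∧ ∀ x, Δ (𝓕 a) x = lam * 𝓕 a x - 𝓕 b x := by
  have hs := fourier_side ha hb h
  have h2 : Integrable (fun ξ => ‖ξ‖ ^ 2 * ‖a ξ‖) := by
    refine (hb.norm.const_mul (((2 * Real.pi) ^ 2)⁻¹)).mono' ?_ ?_
    · exact (continuous_norm.pow 2).aestronglyMeasurable.mul ha.1.norm
    · filter_upwards [hs] with ξ hξ
      rw [Real.norm_of_nonneg (by positivity), ← hξ, norm_mul, Complex.norm_real,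
        Real.norm_of_nonneg (by positivity)]
      have hp : 0 < (2 * Real.pi) ^ 2 := by positivity
      rw [← div_eq_inv_mul, le_div_iff₀ hp]
      have : 0 ≤ lam * ‖a ξ‖ := by positivity
      nlinarith
  obtain ⟨h3, h4⟩ := lap_fourier ha h2
  refine ⟨h3, fun x => ?_⟩
  rw [h4]
  have h5 : 𝓕 (fun ξ => ((-((2 * Real.pi) ^ 2 * ‖ξ‖ ^ 2) : ℝ) : ℂ) * a ξ) x
      = 𝓕 (fun ξ => (lam : ℂ) * a ξ - b ξ) x := by
    apply Real.fourier_congr_ae
    filter_upwards [hs] with ξ hξ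
    rw [← hξ]
    push_cast
    ring
  rw [h5, fourier_linear ha hb]

end

end Pool.Agent.H307
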