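import Mathlib
import Pool.Agent.H307.Weak5
import Pool.Agent.H307.Classical

set_option autoImplicit false

/-!
# Weak `H^1` solutions are classical
-/

open MeasureTheory Filter Topology Set FourierTransform
open scoped ENNReal NNReal ContDiff SchwartzMap Laplacian Convolution

namespace Pool.Agent.H307

section
variable {E : Type*} [NormedAddCommGroup E] [InnerProductSpace ℝ E] [FiniteDimensional ℝ E]
  [MeasurableSpace E] [BorelSpace E]

/-- `u ∈ H^1` with weak gradient `g` is a weak solution of `-Δu + λ u = f` -/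
structure WeakSol (lam : ℝ) (u : E → ℝ) (g : E → E) (f : E → ℝ) : Prop where
  memLp_u : MemLp u 2
  memLp_g : MemLp g 2
  grad : HasWeakGrad u g
  eq : ∀ φ : E → ℝ, ContDiff ℝ ∞ φ → HasCompactSupport φ →
    (∫ x, fderiv ℝ φ x (g x)) + lam * (∫ x, u x * φ x) = ∫ x, f x * φ x

theorem integrable_mul_L2 {a b : E → ℝ} (ha : MemLp a 2) (hb : MemLp b 2) :
    Integrable (fun x => a x * b x) := MemLp.integrable_mul ha hb

theorem integrable_app {F : Type*} [NormedAddCommGroup F] [NormedSpace ℝ F]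
    {D : E → E →L[ℝ] F} {B : E → E} (hD : MemLp D 2) (hB : MemLp B 2) :
    Integrable (fun x => D x (B x)) := by
  refine (integrable_mul_norm hD hB).mono' ?_ (ae_of_all _ fun x => (D x).le_opNorm (B x))
  exact (ContinuousLinearMap.apply ℝ F).flip.aestronglyMeasurable_comp₂ hD.1 hB.1

theorem memLp_test {φ : E → ℝ} (hφ : ContDiff ℝ ∞ φ) (hs : HasCompactSupport φ) :
    MemLp φ 2 ∧ MemLp (fderiv ℝ φ) 2 :=
  ⟨hφ.continuous.memLp_of_hasCompactSupport hs,
    (hφ.continuous_fderiv (by simp)).memLp_of_hasCompactSupport (hs.fderiv ℝ)⟩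

theorem memLp_fderiv_schwartz (φ : 𝓢(E, ℂ)) : MemLp (fderiv ℝ (φ : E → ℂ)) 2 := by
  have := (SchwartzMap.fderivCLM ℝ E ℂ φ).memLp 2
  exact this

/-- the equation tested with Schwartz functions -/
theorem WeakSol.schwartz {lam : ℝ} {u : E → ℝ} {g : E → E} {f : E → ℝ}
    (h : WeakSol lam u g f) (hf : MemLp f 2) (φ : 𝓢(E, ℂ)) :
    ∫ x, (Δ φ : 𝓢(E, ℂ)) x * u x = ∫ x, φ x * (lam * u x - f x) := by
  set b := stdOrthonormalBasis ℝ E with hb
  have hu := h.memLp_u
  have hg := h.memLp_g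
  -- weak gradient
  have hgv : ∀ v : E, MemLp (fun x => (inner ℝ (g x) v : ℝ)) 2 := fun v =>
    (hg.inner_const v)
  have huv : ∀ v : E, MemLp (fun x => u x • v) 2 := fun v =>
    ((ContinuousLinearMap.id ℝ ℝ).smulRight v).comp_memLp' hu
  have hA : ∀ (v : E) (ψ : 𝓢(E, ℂ)),
      ∫ x, (fderiv ℝ ψ x (u x • v) + (inner ℝ (g x) v : ℝ) • ψ x) = 0 := by
    intro v ψ
    apply ext_schwartz (hgv v) (huv v)
    intro η hη hηs
    obtain ⟨m1, m2⟩ := memLp_test hη hηs
    rw [integral_add (integrable_app m2 (huv v)) (integrable_mul_L2 (hgv v) m1)]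
    have h1 := h.grad η hη hηs v
    have h2 : ∫ x, fderiv ℝ η x (u x • v) = ∫ x, u x * fderiv ℝ η x v := by
      congr 1
      funext x
      rw [map_smul, smul_eq_mul]
    rw [h2, h1]
    ring
  -- weak equation
  have haf : MemLp (fun x => lam * u x - f x) 2 := (hu.const_mul lam).sub hf
  have hB : ∫ x, (fderiv ℝ φ x (g x) + (lam * u x - f x) • φ x) = 0 := by
    apply ext_schwartz haf hg
    intro η hη hηs
    obtain ⟨m1, m2⟩ := memLp_test hη hηs
    rw [integral_add (integrable_app m2 hg) (integrable_mul_L2 haf m1)]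
    have h1 := h.eq η hη hηs
    have h2 : ∫ x, (lam * u x - f x) * η x = lam * (∫ x, u x * η x) - ∫ x, f x * η x := by
      rw [← integral_const_mul, ← integral_sub ((integrable_mul_L2 hu m1).const_mul lam)
        (integrable_mul_L2 hf m1)]
      congr 1
      funext x
      ring
    rw [h2]
    linarith
  -- integrability
  have hφ2 : MemLp (φ : E → ℂ) 2 := φ.memLp 2
  have hφ3 : MemLp (fderiv ℝ (φ : E → ℂ)) 2 := memLp_fderiv_schwartz φ
  have hC : ∫ x, fderiv ℝ φ x (g x) = - ∫ x, φ x * (lam * u x - f x) := by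
    have i1 : Integrable (fun x => fderiv ℝ φ x (g x)) := integrable_app hφ3 hg
    have i2 : Integrable (fun x => (lam * u x - f x) • φ x) := by
      refine (integrable_mul_norm haf hφ2).mono' (haf.1.smul hφ2.1) (ae_of_all _ fun x => ?_)
      rw [norm_smul]
    rw [integral_add i1 i2] at hB
    have e1 : ∫ x, (lam * u x - f x) • φ x = ∫ x, φ x * (lam * u x - f x) := by
      congr 1
      funext x
      rw [Complex.real_smul]
      push_cast
      ring
    rw [e1] at hB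
    exact eq_neg_of_add_eq_zero_left hB
  -- the Laplacian as a sum
  have hlap : ∀ x, (Δ φ : 𝓢(E, ℂ)) x
      = ∑ i, fderiv ℝ (LineDeriv.lineDerivOp (b i) φ : 𝓢(E, ℂ)) x (b i) := by
    intro x
    rw [SchwartzMap.laplacian_eq_sum b]
    rw [_root_.sum_apply]
    rfl
  have hd : ∀ i, ∫ x, fderiv ℝ (LineDeriv.lineDerivOp (b i) φ : 𝓢(E, ℂ)) x (b i) * u x
      = - ∫ x, (inner ℝ (g x) (b i) : ℝ) • fderiv ℝ φ x (b i) := by
    intro i
    have h1 := hA (b i) (LineDeriv.lineDerivOp (b i) φ)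
    have m1 : MemLp (fderiv ℝ ((LineDeriv.lineDerivOp (b i) φ : 𝓢(E, ℂ)) : E → ℂ)) 2 :=
      memLp_fderiv_schwartz _
    have m2 : MemLp ((LineDeriv.lineDerivOp (b i) φ : 𝓢(E, ℂ)) : E → ℂ) 2 :=
      (LineDeriv.lineDerivOp (b i) φ : 𝓢(E, ℂ)).memLp 2
    have i2 : Integrable (fun x => (inner ℝ (g x) (b i) : ℝ) •
        (LineDeriv.lineDerivOp (b i) φ : 𝓢(E, ℂ)) x) := by
      refine (integrable_mul_norm (hgv (b i)) m2).mono' ((hgv (b i)).1.smul m2.1)
        (ae_of_all _ fun x => ?_)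
      rw [norm_smul]
    rw [integral_add (integrable_app m1 (huv (b i))) i2] at h1
    have e1 : ∫ x, fderiv ℝ (LineDeriv.lineDerivOp (b i) φ : 𝓢(E, ℂ)) x (b i) * u x
        = ∫ x, fderiv ℝ (LineDeriv.lineDerivOp (b i) φ : 𝓢(E, ℂ)) x (u x • b i) := by
      congr 1
      funext x
      rw [map_smul, Complex.real_smul]
      ring
    rw [e1]
    exact eq_neg_of_add_eq_zero_left h1
  have hint : ∀ i, Integrable
      (fun x => fderiv ℝ (LineDeriv.lineDerivOp (b i) φ : 𝓢(E, ℂ)) x (b i) * u x) := by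
    intro i
    have m1 : MemLp (fderiv ℝ ((LineDeriv.lineDerivOp (b i) φ : 𝓢(E, ℂ)) : E → ℂ)) 2 :=
      memLp_fderiv_schwartz _
    refine (integrable_app m1 (huv (b i))).congr (ae_of_all _ fun x => ?_)
    simp only
    rw [map_smul, Complex.real_smul]
    ring
  have hint2 : ∀ i, Integrable (fun x => (inner ℝ (g x) (b i) : ℝ) • fderiv ℝ φ x (b i)) := by
    intro i
    have m2 : MemLp (fun x => fderiv ℝ φ x (b i)) 2 :=
      (ContinuousLinearMap.apply ℝ ℂ (b i)).comp_memLp' hφ3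
    refine (integrable_mul_norm (hgv (b i)) m2).mono' ((hgv (b i)).1.smul m2.1)
      (ae_of_all _ fun x => ?_)
    rw [norm_smul]
  have h1 : ∫ x, (Δ φ : 𝓢(E, ℂ)) x * u x
      = ∑ i, ∫ x, fderiv ℝ (LineDeriv.lineDerivOp (b i) φ : 𝓢(E, ℂ)) x (b i) * u x := by
    rw [← integral_finsetSum _ (fun i _ => hint i)]
    congr 1
    funext x
    rw [hlap, Finset.sum_mul]
  rw [h1]
  simp only [hd]
  rw [Finset.sum_neg_distrib, ← integral_finsetSum _ (fun i _ => hint2 i)]
  have h2 : ∀ x, ∑ i, (inner ℝ (g x) (b i) : ℝ) • fderiv ℝ φ x (b i) = fderiv ℝ φ x (g x) := by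
    intro x
    have h3 : ∑ i, (inner ℝ (b i) (g x) : ℝ) • b i = g x := b.sum_repr' (g x)
    conv_rhs => rw [← h3]
    rw [map_sum]
    apply Finset.sum_congr rfl
    intro i _
    rw [map_smul, real_inner_comm]
  simp only [h2]
  rw [hC, neg_neg]

theorem memLp_cube {u v : E → ℝ} (hu : MemLp u 6) (hv : MemLp v 6) :
    MemLp (fun x => u x * v x ^ 2) 2 := by
  have h1 : MemLp (fun x => v x ^ 2) 3 := by
    have h2 := hv.norm_rpow_div (q := 2)
    have h3 : MemLp (fun x => ‖v x‖ ^ (2 : ℝ≥0∞).toReal) 3 := by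
      convert h2 using 1
      rw [ENNReal.div_eq_inv_mul]
      rw [show (6 : ℝ≥0∞) = 2 * 3 by norm_num, ← mul_assoc, ENNReal.inv_mul_cancel (by norm_num)
        (by norm_num), one_mul]
    refine h3.congr_norm ?_ (ae_of_all _ fun x => ?_)
    · exact hv.1.pow 2
    · have : (2 : ℝ≥0∞).toReal = ((2 : ℕ) : ℝ) := by norm_num
      rw [this, Real.rpow_natCast]
      simp
  have hp : ENNReal.HolderTriple 6 3 2 := by
    constructor
    have h6 : (6 : ℝ≥0∞)⁻¹ + (3 : ℝ≥0∞)⁻¹ = (2 : ℝ≥0∞)⁻¹ := by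
      have e6 : (6 : ℝ≥0∞)⁻¹ = ENNReal.ofReal (1 / 6) := by
        rw [one_div, ENNReal.ofReal_inv_of_pos (by norm_num)]
        norm_num
      have e3 : (3 : ℝ≥0∞)⁻¹ = ENNReal.ofReal (1 / 3) := by
        rw [one_div, ENNReal.ofReal_inv_of_pos (by norm_num)]
        norm_num
      have e2 : (2 : ℝ≥0∞)⁻¹ = ENNReal.ofReal (1 / 2) := by
        rw [one_div, ENNReal.ofReal_inv_of_pos (by norm_num)]
        norm_num
      rw [e6, e3, e2, ← ENNReal.ofReal_add (by norm_num) (by norm_num)]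
      norm_num
    exact h6
  exact MemLp.mul' (p := 6) (q := 3) (r := 2) h1 hu

/-- **Regularity**: weak solutions of the system have classical representatives. -/
theorem weak_regular (hN : Module.finrank ℝ E = 2 ∨ Module.finrank ℝ E = 3)
    {lam mu1 mu2 be : ℝ} (hlam : 0 < lam) {u v : E → ℝ} {gu gv : E → E}
    (hu : WeakSol lam u gu (fun x => mu1 * u x ^ 3 + be * u x * v x ^ 2))
    (hv : WeakSol lam v gv (fun x => mu2 * v x ^ 3 + be * v x * u x ^ 2)) :
    ∃ uc vc : E → ℝ, ContDiff ℝ 2 uc ∧ ContDiff ℝ 2 vc ∧ u =ᵐ[volume] uc ∧ v =ᵐ[volume] vc ∧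
      Tendsto uc (cocompact E) (𝓝 0) ∧ Tendsto vc (cocompact E) (𝓝 0) ∧
      (∀ x, Δ uc x = lam * uc x - (mu1 * uc x ^ 3 + be * uc x * vc x ^ 2)) ∧
      (∀ x, Δ vc x = lam * vc x - (mu2 * vc x ^ 3 + be * vc x * uc x ^ 2)) := by
  have hN4 : Module.finrank ℝ E < 4 := by rcases hN with h | h <;> omega
  have hu6 := memLp_six hN hu.memLp_u hu.memLp_g hu.grad
  have hv6 := memLp_six hN hv.memLp_u hv.memLp_g hv.grad
  have key0 : ∀ (mu : ℝ) (u v : E → ℝ), MemLp u 6 → MemLp v 6 →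
      MemLp (fun x => mu * u x ^ 3 + be * u x * v x ^ 2) 2 := by
    intro mu u v hu6 hv6
    have h1 := (memLp_cube hu6 hu6).const_mul mu
    have h2 := (memLp_cube hu6 hv6).const_mul be
    refine (h1.add h2).ae_eq (ae_of_all _ fun x => ?_)
    simp only [Pi.add_apply]
    ring
  have hf1 := key0 mu1 u v hu6 hv6
  have hf2 := key0 mu2 v u hv6 hu6
  obtain ⟨a, ha, hau⟩ := exists_L1 hN4 hu.memLp_u hf1 (by
    intro φ
    have := hu.schwartz hf1 φ
    simpa using this)
  obtain ⟨c, hc, hcv⟩ := exists_L1 hN4 hv.memLp_u hf2 (by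
    intro φ
    have := hv.schwartz hf2 φ
    simpa using this)
  -- convolution powers
  have key : ∀ (mu : ℝ) (a c : E → ℂ), Integrable a → Integrable c →
      ∃ b : E → ℂ, Integrable b ∧ ∀ x, 𝓕 b x = mu * 𝓕 a x ^ 3 + be * 𝓕 a x * 𝓕 c x ^ 2 := by
    intro mu a c ha hc
    set L := ContinuousLinearMap.mul ℂ ℂ with hL
    have i1 : Integrable (a ⋆[L, volume] a) := ha.integrable_convolution L ha
    have i2 : Integrable (a ⋆[L, volume] (a ⋆[L, volume] a)) := ha.integrable_convolution L i1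
    have i3 : Integrable (c ⋆[L, volume] c) := hc.integrable_convolution L hc
    have i4 : Integrable (a ⋆[L, volume] (c ⋆[L, volume] c)) := ha.integrable_convolution L i3
    refine ⟨fun ξ => (mu : ℂ) * (a ⋆[L, volume] (a ⋆[L, volume] a)) ξ
      - (-(be : ℂ) * (a ⋆[L, volume] (c ⋆[L, volume] c)) ξ),
      (i2.const_mul _).sub (i4.const_mul _), fun x => ?_⟩
    rw [fourier_linear i2 (i4.const_mul _)]
    have e1 : 𝓕 (fun ξ => -(be : ℂ) * (a ⋆[L, volume] (c ⋆[L, volume] c)) ξ) x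
        = -(be : ℂ) * 𝓕 (a ⋆[L, volume] (c ⋆[L, volume] c)) x := by
      have e0 : 𝓕 (fun _ : E => (0 : ℂ)) x = 0 := by
        rw [Real.fourier_eq]
        simp
      have e2 : (fun ξ => -(be : ℂ) * (a ⋆[L, volume] (c ⋆[L, volume] c)) ξ)
          = fun ξ => -(be : ℂ) * (a ⋆[L, volume] (c ⋆[L, volume] c)) ξ
            - (fun _ : E => (0 : ℂ)) ξ := by
        funext ξ
        simp
      rw [e2, fourier_linear (b := fun _ : E => (0 : ℂ)) i4 (integrable_zero E ℂ volume), e0,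
        sub_zero]
    rw [e1, Real.fourier_mul_convolution_eq ha i1, Real.fourier_mul_convolution_eq ha ha,
      Real.fourier_mul_convolution_eq ha i3, Real.fourier_mul_convolution_eq hc hc]
    ring
  obtain ⟨b1, hb1, hb1F⟩ := key mu1 a c ha hc
  obtain ⟨b2, hb2, hb2F⟩ := key mu2 c a hc ha
  have r1 := classical_of_fourier ha hb1 hlam (by
    intro φ
    have h1 := hu.schwartz hf1 φ
    have e1 : ∫ x, (Δ φ : 𝓢(E, ℂ)) x * 𝓕 a x = ∫ x, (Δ φ : 𝓢(E, ℂ)) x * u x := by
      refine integral_congr_ae ?_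
      filter_upwards [hau] with x hx
      rw [← hx]
    rw [e1, h1]
    refine integral_congr_ae ?_
    filter_upwards [hau, hcv] with x hx hx2
    rw [hb1F, ← hx, ← hx2]
    push_cast
    ring)
  have r2 := classical_of_fourier hc hb2 hlam (by
    intro φ
    have h1 := hv.schwartz hf2 φ
    have e1 : ∫ x, (Δ φ : 𝓢(E, ℂ)) x * 𝓕 c x = ∫ x, (Δ φ : 𝓢(E, ℂ)) x * v x := by
      refine integral_congr_ae ?_
      filter_upwards [hcv] with x hx
      rw [← hx]
    rw [e1, h1]
    refine integral_congr_ae ?_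
    filter_upwards [hau, hcv] with x hx hx2
    rw [hb2F, ← hx, ← hx2]
    push_cast
    ring)
  -- real parts
  have hreal : ∀ (w : E → ℂ) (z : E → ℝ), Integrable w → (fun x => (z x : ℂ)) =ᵐ[volume] 𝓕 w →
      ∀ x, 𝓕 w x = (((𝓕 w x).re : ℝ) : ℂ) := by
    intro w z hw hz
    have hcw := continuous_fourier_of_integrable hw
    have him : (fun x => (𝓕 w x).im) = fun _ => (0 : ℝ) := by
      apply (Continuous.ae_eq_iff_eq (volume : Measure E) (Complex.continuous_im.comp hcw)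
        continuous_const).mp
      filter_upwards [hz] with x hx
      show (𝓕 w x).im = 0
      rw [← hx, Complex.ofReal_im]
    intro x
    apply Complex.ext
    · simp
    · rw [Complex.ofReal_im]
      exact congrFun him x
  have ha_re := hreal a u ha hau
  have hc_re := hreal c v hc hcv
  have hlapre : ∀ (w : E → ℂ), ContDiff ℝ 2 (𝓕 w) → ∀ x,
      Δ (fun x => (𝓕 w x).re) x = (Δ (𝓕 w) x).re := by
    intro w hw x
    exact ContDiffAt.laplacian_CLM_comp_left (l := Complex.reCLM) hw.contDiffAt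
  have htend : ∀ (w : E → ℂ), Tendsto (fun x => (𝓕 w x).re) (cocompact E) (𝓝 0) := by
    intro w
    have h1 : Tendsto (𝓕 w) (cocompact E) (𝓝 0) := tendsto_integral_exp_inner_smul_cocompact w
    have h2 := (Complex.continuous_re.tendsto (0 : ℂ)).comp h1
    rw [Complex.zero_re] at h2
    exact h2
  refine ⟨fun x => (𝓕 a x).re, fun x => (𝓕 c x).re, Complex.reCLM.contDiff.comp r1.1,
    Complex.reCLM.contDiff.comp r2.1, ?_, ?_, htend a, htend c, ?_, ?_⟩
  · filter_upwards [hau] with x hx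
    rw [← hx, Complex.ofReal_re]
  · filter_upwards [hcv] with x hx
    rw [← hx, Complex.ofReal_re]
  · intro x
    rw [hlapre a r1.1, r1.2, hb1F]
    set p := (𝓕 a x).re with hp
    set q := (𝓕 c x).re with hq
    rw [ha_re x, hc_re x, ← hp, ← hq]
    have : (lam : ℂ) * (p : ℂ) - ((mu1 : ℂ) * (p : ℂ) ^ 3 + (be : ℂ) * (p : ℂ) * (q : ℂ) ^ 2)
        = ((lam * p - (mu1 * p ^ 3 + be * p * q ^ 2) : ℝ) : ℂ) := by
      push_cast
      ring
    rw [this, Complex.ofReal_re]
  · intro x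
    rw [hlapre c r2.1, r2.2, hb2F]
    set p := (𝓕 a x).re with hp
    set q := (𝓕 c x).re with hq
    rw [ha_re x, hc_re x, ← hp, ← hq]
    have : (lam : ℂ) * (q : ℂ) - ((mu2 : ℂ) * (q : ℂ) ^ 3 + (be : ℂ) * (q : ℂ) * (p : ℂ) ^ 2)
        = ((lam * q - (mu2 * q ^ 3 + be * q * p ^ 2) : ℝ) : ℂ) := by
      push_cast
      ring
    rw [this, Complex.ofReal_re]

end

end Pool.Agent.H307
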