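import Mathlib
import Pool.Agent.H307.Weak6

set_option autoImplicit false

/-!
# The uniqueness theorem for weak `H^1` solutions
-/

open MeasureTheory Filter Topology Set
open scoped ENNReal NNReal ContDiff Laplacian

namespace Pool.Agent.H307

section
variable {E : Type*} [NormedAddCommGroup E] [InnerProductSpace ℝ E] [FiniteDimensional ℝ E]
  [MeasurableSpace E] [BorelSpace E]

/-- nonnegative solutions of `Δw ≤ λ w` which are not a.e. zero are positive -/
theorem pos_everywhere {e : E} (he : ‖e‖ = 1) {lam : ℝ} (hlam : 0 < lam) {w : E → ℝ}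
    (hw : ContDiff ℝ 2 w) (hnn : ∀ x, 0 ≤ w x) (hlap : ∀ x, Δ w x ≤ lam * w x)
    (hpos : ¬ w =ᵐ[volume] 0) : ∀ x, 0 < w x := by
  have hex : ∃ x, 0 < w x := by
    by_contra hcon
    push Not at hcon
    exact hpos (ae_of_all _ fun x => le_antisymm (hcon x) (hnn x))
  obtain ⟨x2, hx2⟩ := hex
  intro x1
  by_contra hcon
  push Not at hcon
  have hz : w x1 = 0 := le_antisymm hcon (hnn x1)
  set t : ℝ := min (inner ℝ x1 e) (inner ℝ x2 e) - 1 with ht
  have h1 : t < inner ℝ x1 e := by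
    have := min_le_left (inner ℝ x1 e : ℝ) (inner ℝ x2 e)
    linarith
  have h2 : t < inner ℝ x2 e := by
    have := min_le_right (inner ℝ x1 e : ℝ) (inner ℝ x2 e)
    linarith
  have h3 := strong_max_half hlam hw he (t := t) (fun x _ => hnn x) (fun x _ => hlap x) h1 hz x2 h2
  linarith

theorem nonneg_of_ae {w : E → ℝ} (hw : Continuous w) (h : ∀ᵐ x, 0 ≤ w x) : ∀ x, 0 ≤ w x := by
  have h1 : (fun x => max (w x) 0) = w := by
    apply (Continuous.ae_eq_iff_eq (volume : Measure E) (hw.max continuous_const) hw).mp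
    filter_upwards [h] with x hx
    exact max_eq_left hx
  intro x
  rw [← congrFun h1 x]
  exact le_max_right _ _

end

section
variable {N : ℕ}

/-- positive weak solutions are classical solutions -/
theorem weak_to_classical (hN : N = 2 ∨ N = 3) {lam mu1 mu2 be : ℝ} (hlam : 0 < lam)
    (hmu1 : 0 ≤ mu1) (hmu2 : 0 ≤ mu2) (hbe : 0 ≤ be)
    {u v : EuclideanSpace ℝ (Fin N) → ℝ}
    {gu gv : EuclideanSpace ℝ (Fin N) → EuclideanSpace ℝ (Fin N)}
    (hu : WeakSol lam u gu (fun x => mu1 * u x ^ 3 + be * u x * v x ^ 2))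
    (hv : WeakSol lam v gv (fun x => mu2 * v x ^ 3 + be * v x * u x ^ 2))
    (pu : ∀ᵐ x, 0 ≤ u x) (pv : ∀ᵐ x, 0 ≤ v x) (zu : ¬ u =ᵐ[volume] 0) (zv : ¬ v =ᵐ[volume] 0) :
    ∃ uc vc : EuclideanSpace ℝ (Fin N) → ℝ, u =ᵐ[volume] uc ∧ v =ᵐ[volume] vc ∧
      Sol lam mu1 mu2 be uc vc := by
  have hfr : Module.finrank ℝ (EuclideanSpace ℝ (Fin N)) = 2 ∨
      Module.finrank ℝ (EuclideanSpace ℝ (Fin N)) = 3 := by
    rw [finrank_euclideanSpace_fin]
    exact hN
  have hN0 : 0 < N := by rcases hN with h | h <;> omega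
  obtain ⟨uc, vc, c1, c2, a1, a2, t1, t2, e1, e2⟩ := weak_regular hfr hlam hu hv
  set e : EuclideanSpace ℝ (Fin N) := EuclideanSpace.basisFun (Fin N) ℝ ⟨0, hN0⟩ with he'
  have he : ‖e‖ = 1 := (EuclideanSpace.basisFun (Fin N) ℝ).norm_eq_one _
  have pu' : ∀ᵐ x, 0 ≤ uc x := by
    filter_upwards [pu, a1] with x h1 h2
    rw [← h2]; exact h1
  have pv' : ∀ᵐ x, 0 ≤ vc x := by
    filter_upwards [pv, a2] with x h1 h2
    rw [← h2]; exact h1
  have nu := nonneg_of_ae c1.continuous pu'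
  have nv := nonneg_of_ae c2.continuous pv'
  have qu := pos_everywhere he hlam c1 nu (fun x => by
    rw [e1]
    have h1 := nu x
    have h2 := nv x
    have : 0 ≤ mu1 * uc x ^ 3 + be * uc x * vc x ^ 2 := by positivity
    linarith) (fun h => zu (a1.trans h))
  have qv := pos_everywhere he hlam c2 nv (fun x => by
    rw [e2]
    have h1 := nu x
    have h2 := nv x
    have : 0 ≤ mu2 * vc x ^ 3 + be * vc x * uc x ^ 2 := by positivity
    linarith) (fun h => zv (a2.trans h))
  exact ⟨uc, vc, a1, a2, c1, c2, qu, qv, t1, t2, e1, e2⟩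

/-- weak `H^1` ground state -/
structure WeakGround (lam : ℝ) (w : EuclideanSpace ℝ (Fin N) → ℝ) : Prop where
  sol : ∃ g, WeakSol lam w g (fun x => w x ^ 3)
  pos : ∀ᵐ x, 0 < w x
  rad : ∀ R : EuclideanSpace ℝ (Fin N) ≃ₗᵢ[ℝ] EuclideanSpace ℝ (Fin N),
    (fun x => w (R x)) =ᵐ[volume] w

theorem not_ae_zero_of_pos {w : EuclideanSpace ℝ (Fin N) → ℝ} (h : ∀ᵐ x, 0 < w x) :
    ¬ w =ᵐ[volume] 0 := by
  intro h0
  have h1 : ∀ᵐ x : EuclideanSpace ℝ (Fin N), False := by
    filter_upwards [h, h0] with x hx hx0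
    rw [hx0] at hx
    exact lt_irrefl _ hx
  have h2 : (volume : Measure (EuclideanSpace ℝ (Fin N))) (Metric.ball 0 1) = 0 := by
    have h3 : (volume : Measure (EuclideanSpace ℝ (Fin N))) Set.univ = 0 := by
      have := (ae_iff.mp h1)
      simpa using this
    exact measure_mono_null (Set.subset_univ _) h3
  exact (Metric.measure_ball_pos (volume : Measure (EuclideanSpace ℝ (Fin N)))
    (0 : EuclideanSpace ℝ (Fin N)) one_pos).ne' h2

theorem WeakGround.not_zero {lam : ℝ} {w : EuclideanSpace ℝ (Fin N) → ℝ} (h : WeakGround lam w) :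
    ¬ w =ᵐ[volume] 0 := not_ae_zero_of_pos h.pos

theorem WeakGround.classical (hN : N = 2 ∨ N = 3) {lam : ℝ} (hlam : 0 < lam)
    {w : EuclideanSpace ℝ (Fin N) → ℝ} (h : WeakGround lam w) :
    ∃ wc, w =ᵐ[volume] wc ∧ Ground lam wc := by
  obtain ⟨g, hg⟩ := h.sol
  have hg' : WeakSol lam w g (fun x => 1 * w x ^ 3 + 0 * w x * w x ^ 2) := by
    have : (fun x => 1 * w x ^ 3 + 0 * w x * w x ^ 2) = fun x => w x ^ 3 := by
      funext x; ring
    rw [this]; exact hg
  obtain ⟨uc, vc, a1, a2, hs⟩ := weak_to_classical hN hlam (mu1 := 1) (mu2 := 1) (be := 0)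
    zero_le_one zero_le_one le_rfl hg' hg' (h.pos.mono fun x hx => hx.le)
    (h.pos.mono fun x hx => hx.le) h.not_zero h.not_zero
  refine ⟨uc, a1, hs.cu, hs.pu, hs.lu, ?_, fun x => by rw [hs.eu]; ring⟩
  intro x y hxy
  -- invariance of the continuous representative
  have hinv : ∀ R : EuclideanSpace ℝ (Fin N) ≃ₗᵢ[ℝ] EuclideanSpace ℝ (Fin N),
      ∀ x, uc (R x) = uc x := by
    intro R
    have h1 : (fun x => uc (R x)) = uc := by
      apply (Continuous.ae_eq_iff_eq (volume : Measure (EuclideanSpace ℝ (Fin N)))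
        (hs.cu.continuous.comp R.continuous) hs.cu.continuous).mp
      have h2 : (fun x => w (R x)) =ᵐ[volume] fun x => uc (R x) :=
        (R.measurePreserving.quasiMeasurePreserving).ae_eq_comp a1
      exact (h2.symm.trans (h.rad R)).trans a1
    exact fun x => congrFun h1 x
  have hR : (Submodule.reflection (ℝ ∙ (x - y))ᗮ) x = y := Submodule.reflection_sub hxy
  rw [← hR, hinv]

/-- transfer of weak solutions under translation and scaling -/
theorem WeakSol.translate {lam : ℝ} {u : EuclideanSpace ℝ (Fin N) → ℝ}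
    {g : EuclideanSpace ℝ (Fin N) → EuclideanSpace ℝ (Fin N)} {f w : EuclideanSpace ℝ (Fin N) → ℝ}
    (h : WeakSol lam u g f) (K : ℝ) (c : EuclideanSpace ℝ (Fin N))
    (hw : w =ᵐ[volume] fun x => K * u (x + c)) :
    WeakSol lam w (fun x => K • g (x + c)) (fun x => K * f (x + c)) := by
  have hmp : MeasurePreserving (fun x : EuclideanSpace ℝ (Fin N) => x + c) volume volume :=
    measurePreserving_add_right volume c
  have hshift : ∀ F : EuclideanSpace ℝ (Fin N) → ℝ, ∫ x, F (x + c) = ∫ x, F x := fun F =>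
    integral_add_right_eq_self F c
  have hu' : MemLp (fun x => K * u (x + c)) 2 :=
    (h.memLp_u.comp_measurePreserving hmp).const_mul K
  have hg' : MemLp (fun x => K • g (x + c)) 2 :=
    (h.memLp_g.comp_measurePreserving hmp).const_smul K
  -- shifted test functions
  have htest : ∀ φ : EuclideanSpace ℝ (Fin N) → ℝ, ContDiff ℝ ∞ φ → HasCompactSupport φ →
      ContDiff ℝ ∞ (fun x => φ (x - c)) ∧ HasCompactSupport (fun x => φ (x - c)) ∧
      ∀ x, fderiv ℝ (fun x => φ (x - c)) x = fderiv ℝ φ (x - c) := by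
    intro φ hφ hs
    refine ⟨hφ.comp (contDiff_id.sub contDiff_const),
      hs.comp_homeomorph (Homeomorph.subRight c), fun x => ?_⟩
    have h0 : (fun x => φ (x - c)) = fun x => φ (x + (-c)) := by
      funext y
      rw [sub_eq_add_neg]
    rw [h0, fderiv_comp_add_right, sub_eq_add_neg]
  refine ⟨hu'.ae_eq hw.symm, hg', ?_, ?_⟩
  · intro φ hφ hs v
    obtain ⟨t1, t2, t3⟩ := htest φ hφ hs
    have h1 := h.grad _ t1 t2 v
    simp only [t3] at h1
    have e1 : ∫ x, w x * fderiv ℝ φ x v = K * ∫ x, u x * fderiv ℝ φ (x - c) v := by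
      rw [← hshift (fun x => u x * fderiv ℝ φ (x - c) v), ← integral_const_mul]
      refine integral_congr_ae ?_
      filter_upwards [hw] with x hx
      rw [hx, add_sub_cancel_right]
      ring
    have e2 : ∫ x, inner ℝ (K • g (x + c)) v * φ x = K * ∫ x, inner ℝ (g x) v * φ (x - c) := by
      rw [← hshift (fun x => inner ℝ (g x) v * φ (x - c)), ← integral_const_mul]
      congr 1
      funext x
      rw [add_sub_cancel_right, real_inner_smul_left]
      ring
    rw [e1, e2, h1]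
    ring
  · intro φ hφ hs
    obtain ⟨t1, t2, t3⟩ := htest φ hφ hs
    have h1 := h.eq _ t1 t2
    simp only [t3] at h1
    have e1 : ∫ x, w x * φ x = K * ∫ x, u x * φ (x - c) := by
      rw [← hshift (fun x => u x * φ (x - c)), ← integral_const_mul]
      refine integral_congr_ae ?_
      filter_upwards [hw] with x hx
      rw [hx, add_sub_cancel_right]
      ring
    have e2 : ∫ x, fderiv ℝ φ x (K • g (x + c)) = K * ∫ x, fderiv ℝ φ (x - c) (g x) := by
      rw [← hshift (fun x => fderiv ℝ φ (x - c) (g x)), ← integral_const_mul]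
      congr 1
      funext x
      rw [add_sub_cancel_right, map_smul, smul_eq_mul]
    have e3 : ∫ x, K * f (x + c) * φ x = K * ∫ x, f x * φ (x - c) := by
      rw [← hshift (fun x => f x * φ (x - c)), ← integral_const_mul]
      congr 1
      funext x
      rw [add_sub_cancel_right]
      ring
    rw [e1, e2, e3, ← h1]
    ring

/-- the weak main theorem -/
theorem weak_main (hN : N = 2 ∨ N = 3) {lam mu1 mu2 be : ℝ} (hlam : 0 < lam)
    (hbe : 0 < be) (h1 : be < mu1) (h2 : be < mu2)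
    {u v : EuclideanSpace ℝ (Fin N) → ℝ}
    {gu gv : EuclideanSpace ℝ (Fin N) → EuclideanSpace ℝ (Fin N)}
    (hu : WeakSol lam u gu (fun x => mu1 * u x ^ 3 + be * u x * v x ^ 2))
    (hv : WeakSol lam v gv (fun x => mu2 * v x ^ 3 + be * v x * u x ^ 2))
    (pu : ∀ᵐ x, 0 ≤ u x) (pv : ∀ᵐ x, 0 ≤ v x) (zu : ¬ u =ᵐ[volume] 0) (zv : ¬ v =ᵐ[volume] 0) :
    ∃ w : EuclideanSpace ℝ (Fin N) → ℝ, WeakGround lam w ∧ Ground lam w ∧
      ∃ c : EuclideanSpace ℝ (Fin N),
        u =ᵐ[volume] (fun x => Real.sqrt ((mu2 - be) / (mu1 * mu2 - be ^ 2)) * w (x - c)) ∧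
        v =ᵐ[volume] (fun x => Real.sqrt ((mu1 - be) / (mu1 * mu2 - be ^ 2)) * w (x - c)) := by
  obtain ⟨uc, vc, a1, a2, hs⟩ := weak_to_classical hN hlam (by linarith) (by linarith) hbe.le
    hu hv pu pv zu zv
  obtain ⟨w, hw, c, hc⟩ := classical_main hN hlam hbe h1 h2 hs
  have hd : 0 < mu1 * mu2 - be ^ 2 := by nlinarith
  set K : ℝ := Real.sqrt ((mu2 - be) / (mu1 * mu2 - be ^ 2)) with hK
  have hK0 : 0 < K := Real.sqrt_pos.mpr (div_pos (by linarith) hd)
  have hu1 : u =ᵐ[volume] (fun x => K * w (x - c)) := by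
    filter_upwards [a1] with x hx
    rw [hx]
    exact (hc x).1
  have hv1 : v =ᵐ[volume]
      (fun x => Real.sqrt ((mu1 - be) / (mu1 * mu2 - be ^ 2)) * w (x - c)) := by
    filter_upwards [a2] with x hx
    rw [hx]
    exact (hc x).2
  refine ⟨w, ⟨?_, ae_of_all _ hw.pw, fun R => ae_of_all _ fun x => hw.rw' _ _ (R.norm_map x)⟩,
    hw, c, hu1, hv1⟩
  have hmp : MeasurePreserving (fun x : EuclideanSpace ℝ (Fin N) => x + c) volume volume :=
    measurePreserving_add_right volume c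
  have hue : (fun x => u (x + c)) =ᵐ[volume] fun x => K * w x := by
    have := hmp.quasiMeasurePreserving.ae_eq_comp hu1
    refine this.trans (ae_of_all _ fun x => ?_)
    simp only [Function.comp_apply, add_sub_cancel_right]
  have hve : (fun x => v (x + c)) =ᵐ[volume]
      fun x => Real.sqrt ((mu1 - be) / (mu1 * mu2 - be ^ 2)) * w x := by
    have := hmp.quasiMeasurePreserving.ae_eq_comp hv1
    refine this.trans (ae_of_all _ fun x => ?_)
    simp only [Function.comp_apply, add_sub_cancel_right]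
  have hwe : w =ᵐ[volume] fun x => K⁻¹ * u (x + c) := by
    filter_upwards [hue] with x hx
    rw [hx]
    field_simp
  have h3 := hu.translate K⁻¹ c hwe
  refine ⟨_, h3.memLp_u, h3.memLp_g, h3.grad, fun φ hφ hsφ => ?_⟩
  rw [h3.eq φ hφ hsφ]
  refine integral_congr_ae ?_
  filter_upwards [hue, hve] with x hx hx2
  rw [hx, hx2]
  have hL : Real.sqrt ((mu1 - be) / (mu1 * mu2 - be ^ 2)) ^ 2
      = (mu1 - be) / (mu1 * mu2 - be ^ 2) := Real.sq_sqrt (div_nonneg (by linarith) hd.le)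
  have hK2 : K ^ 2 = (mu2 - be) / (mu1 * mu2 - be ^ 2) :=
    Real.sq_sqrt (div_nonneg (by linarith) hd.le)
  have e1 : mu1 * (K * w x) ^ 3 + be * (K * w x) *
      (Real.sqrt ((mu1 - be) / (mu1 * mu2 - be ^ 2)) * w x) ^ 2
      = K * w x ^ 3 * (mu1 * K ^ 2
        + be * Real.sqrt ((mu1 - be) / (mu1 * mu2 - be ^ 2)) ^ 2) := by ring
  rw [e1, hL, hK2]
  have e2 : mu1 * ((mu2 - be) / (mu1 * mu2 - be ^ 2)) + be * ((mu1 - be) / (mu1 * mu2 - be ^ 2))
      = 1 := by
    field_simp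
    ring
  rw [e2]
  field_simp

theorem weak_ground_unique (hN : N = 2 ∨ N = 3) {lam : ℝ} (hlam : 0 < lam)
    {w w' : EuclideanSpace ℝ (Fin N) → ℝ} (h : WeakGround lam w) (h' : WeakGround lam w') :
    w =ᵐ[volume] w' := by
  obtain ⟨wc, a1, g1⟩ := h.classical hN hlam
  obtain ⟨wc', a2, g2⟩ := h'.classical hN hlam
  have := ground_unique hN hlam g1 g2
  rw [this] at a1
  exact a1.trans a2.symm

end

end Pool.Agent.H307
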